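import Pool.Agent.GT.DefsD

/-!
# Squad GT (MP_ba5221_nt), blocks E and F: classes of points, Selmer sets. Definitions

`W` is a Weierstrass curve over a field of characteristic zero with full rational 2-torsion; `e 0`, `e 1`,
`e 2` are the roots of its 2-division polynomial (`NJ.Roots`), the indices are read modulo 3.
-/

set_option autoImplicit false

namespace Pool.Agent.GT.F

open Polynomial Pool.Agent.NJ

noncomputable section

/-- The class modulo squares of the point `P` at the root number `i` is the class of `c`: the class of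
`x - e i`, for the point `(e i, y)` the class of `(e i - e (i + 1)) (e i - e (i + 2))`, and the class of
`1` for the point at infinity. -/
def Dl {K : Type} [Field K] (W : WeierstrassCurve K) (e : Fin 3 → K) (i : Fin 3) (c : K) :
    W.toAffine.Point → Prop
  | .zero => IsSquare c
  | .some x _ _ => (x ≠ e i → IsSquare (c * (x - e i))) ∧
      (x = e i → IsSquare (c * ((e i - e (i + 1)) * (e i - e (i + 2)))))

/-- `d` is the class of a point over the field `L`. -/
def Loc (W : WeierstrassCurve ℚ) (e : Fin 3 → ℚ) (d : Fin 3 → ℤ) (L : Type) [Field L]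
    [Algebra ℚ L] : Prop :=
  ∃ P : (W.map (algebraMap ℚ L)).toAffine.Point,
    ∀ i, Dl (W.map (algebraMap ℚ L)) (fun j => algebraMap ℚ L (e j)) i ((d i : ℤ) : L) P

/-- The 2-Selmer group of `W` with the roots `e`: the triples of classes (written as squarefree
integers, the product of the three is a square) which are classes of points over all the completions
of `ℚ`. -/
def Sel (W : WeierstrassCurve ℚ) (e : Fin 3 → ℚ) : Set (Fin 3 → ℤ) :=
  {d | (∀ i, Squarefree (d i)) ∧ IsSquare (d 0 * d 1 * d 2) ∧
    (∀ (p : ℕ) [Fact p.Prime], Loc W e d ℚ_[p]) ∧ Loc W e d ℝ}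

/-- the value at `t` -/
def ev (t : ℚ) (f : RatFunc ℚ) : ℚ := f.num.eval t / f.denom.eval t

/-- the degree of a rational function -/
def dg (f : RatFunc ℚ) : ℕ := max f.num.natDegree f.denom.natDegree

/-- the degree of the `x`-coordinate -/
def dP {W : WeierstrassCurve (RatFunc ℚ)} : W.toAffine.Point → ℕ
  | .zero => 0
  | .some x _ _ => dg x

/-- the height of a point -/
def ht {W : WeierstrassCurve ℚ} (P : W.toAffine.Point) : ℝ := Height.logHeight P.xRep

/-- `A / 2 A` has at most `N` elements -/
def Ix (A : Type) [AddCommGroup A] (N : ℕ) : Prop :=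
  ∀ S : Finset A, (∀ a ∈ S, ∀ b ∈ S, (∃ c, a = b + (c + c)) → a = b) → S.card ≤ N

/-- For each `c ∈ B` there is a prime `p > n` which divides `t - c` an odd number of times and does not
occur in `t - c'` for the other `c' ∈ B`. -/
def Sep (B : Finset ℚ) (t : ℚ) (n : ℕ) : Prop :=
  ∀ c ∈ B, ∃ p : ℕ, p.Prime ∧ n < p ∧ Odd (padicValRat p (t - c)) ∧
    ∀ c' ∈ B, c' ≠ c → padicValRat p (t - c') = 0

/-- `sp` is the specialization at `t` -/
def IsSp [DecidableEq ℚ] [DecidableEq (RatFunc ℚ)] (E : WeierstrassCurve ℚ[X]) (t : ℚ)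
    (sp : (gen E).toAffine.Point →+ (fib E t).toAffine.Point) : Prop :=
  (∀ (x y : RatFunc ℚ) (h : (gen E).toAffine.Nonsingular x y), x.denom.eval t ≠ 0 →
    ∃ h' : (fib E t).toAffine.Nonsingular (ev t x) (ev t y),
      sp (.some x y h) = .some (ev t x) (ev t y) h') ∧
  ∀ (x y : RatFunc ℚ) (h : (gen E).toAffine.Nonsingular x y), x.denom.eval t = 0 →
    sp (.some x y h) = 0

end

end Pool.Agent.GT.F
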