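import Pool.Agent.GT.Defs
import Pool.Agent.Helper32_NJ.Stmts

/-!
# Squad GT (MP_ba5221_nt), block D: the elliptic part. Definitions

The indices of the three roots are `0, 1, 2 : Fin 3` and are read modulo 3.
-/

set_option autoImplicit false

namespace Pool.Agent.GT.D

open Polynomial Pool.Agent.NJ

noncomputable section

/-! ### Classes modulo squares -/

/-- the valuation of `n` at the prime `p`, modulo 2 -/
def vl (p : ℕ) (n : ℤ) : ZMod 2 := (padicValInt p n : ZMod 2)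

/-- the part of `n` prime to `p` -/
def un (p : ℕ) (n : ℤ) : ℤ := n / (p : ℤ) ^ padicValInt p n

open Classical in
/-- `0` if the part of `n` prime to the odd prime `p` is a square modulo `p`, and `1` otherwise -/
def ul (p : ℕ) (n : ℤ) : ZMod 2 := if IsSquare ((un p n : ℤ) : ZMod p) then 0 else 1

/-- `0` if the odd part of `n` is `1` modulo 4, and `1` otherwise -/
def l4 (n : ℤ) : ZMod 2 := if un 2 n % 4 = 3 then 1 else 0

/-- `0` if the odd part of `n` is `1` or `7` modulo 8, and `1` otherwise -/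
def l8 (n : ℤ) : ZMod 2 := if un 2 n % 8 = 3 ∨ un 2 n % 8 = 5 then 1 else 0

/-- the sign -/
def sg (n : ℤ) : ZMod 2 := if n < 0 then 1 else 0

/-- additive functions of nonzero integers -/
structure Adf (f : ℤ → ZMod 2) : Prop where
  mul : ∀ m n : ℤ, m ≠ 0 → n ≠ 0 → f (m * n) = f m + f n

theorem Adf.one {f : ℤ → ZMod 2} (h : Adf f) : f 1 = 0 := by
  have h1 := h.mul 1 1 one_ne_zero one_ne_zero
  rw [mul_one] at h1
  exact add_eq_left.mp h1.symm

theorem Adf.sq {f : ℤ → ZMod 2} (h : Adf f) {n : ℤ} (hn : n ≠ 0) : f (n * n) = 0 := by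
  rw [h.mul n n hn hn]
  exact CharTwo.add_self_eq_zero _

/-! ### Points -/

/-- `X` minus the root number `i`, times `s²`, for the point `X = r / s²` -/
def Xc (e : Fin 3 → ℤ) (r s : ℤ) (i : Fin 3) : ℤ := r - e i * s ^ 2

/-- `X = r / s²` is the first coordinate of a point with `Y ≠ 0` of `Y² = ∏ (X - e i)` -/
structure Tri (e : Fin 3 → ℤ) (r s : ℤ) : Prop where
  s0 : s ≠ 0
  cop : IsCoprime r s
  ne : ∀ i, Xc e r s i ≠ 0
  sq : IsSquare (Xc e r s 0 * Xc e r s 1 * Xc e r s 2)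

/-- the roots: `e (i + 1) - e (i + 2) = K B i` if `B 0 + B 1 + B 2 = 0` -/
def rt (K : ℤ) (B : Fin 3 → ℤ) : Fin 3 → ℤ := ![0, -(K * B 2), K * B 1]

theorem rt_sub {K : ℤ} {B : Fin 3 → ℤ} (h : B 0 + B 1 + B 2 = 0) (i : Fin 3) :
    rt K B (i + 1) - rt K B i = -(K * B (i + 2)) ∧ rt K B (i + 2) - rt K B i = K * B (i + 1) ∧
      rt K B (i + 1) - rt K B (i + 2) = K * B i := by
  fin_cases i
  · refine ⟨?_, ?_, ?_⟩
    · show -(K * B 2) - 0 = -(K * B 2); ring
    · show K * B 1 - 0 = K * B 1; ring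
    · show -(K * B 2) - K * B 1 = K * B 0
      linear_combination (-K) * h
  · refine ⟨?_, ?_, ?_⟩
    · show K * B 1 - -(K * B 2) = -(K * B 0)
      linear_combination K * h
    · show 0 - -(K * B 2) = K * B 2; ring
    · show K * B 1 - 0 = K * B 1; ring
  · refine ⟨?_, ?_, ?_⟩
    · show 0 - K * B 1 = -(K * B 1); ring
    · show -(K * B 2) - K * B 1 = K * B 0
      linear_combination (-K) * h
    · show 0 - -(K * B 2) = K * B 2; ring

/-! ### The old places -/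

/-- the differences of the roots at the base point -/
structure Old (a : Fin 3 → ℤ) : Prop where
  ne : ∀ i, a i ≠ 0
  sum : a 0 + a 1 + a 2 = 0
  cop : ∀ i j, i ≠ j → IsCoprime (a i) (a j)
  two : (64 : ℤ) ∣ a 2

/-- the odd primes which divide one of the `a i` an odd number of times -/
def S1 (a : Fin 3 → ℤ) : Finset ℕ :=
  (a 0 * a 1 * a 2).natAbs.primeFactors.filter fun q => q ≠ 2 ∧ vl q (a 0 * a 1 * a 2) = 1

/-- the odd primes which divide one of the `a i` an even number of times -/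
def S0 (a : Fin 3 → ℤ) : Finset ℕ :=
  (a 0 * a 1 * a 2).natAbs.primeFactors.filter fun q => q ≠ 2 ∧ vl q (a 0 * a 1 * a 2) = 0

open Classical in
/-- the block of a prime of `S0` or `S1` -/
def bq (a : Fin 3 → ℤ) (q : ℕ) : Fin 3 :=
  if (q : ℤ) ∣ a 0 then 0 else if (q : ℤ) ∣ a 1 then 1 else 2

/-- the index of the smallest root (if it is not `2`) -/
def ra (a : Fin 3 → ℤ) (s : ℤ) : Fin 3 := if s * a 2 < 0 then 0 else 1

/-- the value of the additive function `f` at the component `i` of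
`(-1)^ε 2^y ∏ q^η`, where `q` does not occur in the component `bq a q` -/
def Fm (a : Fin 3 → ℤ) (s : ℤ) (ε : ZMod 2) (y : Fin 3 → ZMod 2) (η : ℕ → ZMod 2)
    (f : ℤ → ZMod 2) (i : Fin 3) : ZMod 2 :=
  (if i = ra a s then 0 else ε) * f (-1) + y i * f 2 +
    ∑ q ∈ S1 a, (if bq a q = i then 0 else η q) * f q

/-- the equations for the old part of the class -/
structure Sys (a : Fin 3 → ℤ) (s k : ℤ) (ε : ZMod 2) (y : Fin 3 → ZMod 2) (η : ℕ → ZMod 2) :
    Prop where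
  ysum : y 0 + y 1 + y 2 = 0
  t1 : Fm a s ε y η l4 2 = 0
  t2 : Fm a s ε y η l8 2 = y 2
  t3 : Fm a s ε y η l8 0 + y 0 = y 2 * (l8 (k * a 2) + vl 2 (k * a 2))
  tq : ∀ q ∈ S1 a, Fm a s ε y η (ul q) (bq a q) = η q * ul q (-(k * a (bq a q + 2)))

/-- the twist by `2 s r` of the curve at the base point has no unexpected classes -/
structure Cho (a : Fin 3 → ℤ) (s : ℤ) (r : ℕ) : Prop where
  pr : r.Prime
  r2 : r ≠ 2
  ss : s = 1 ∨ s = -1
  nd : ∀ i, ¬ (r : ℤ) ∣ a i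
  re : 0 < s * a 1 ∨ s * a 0 < 0
  m16 : (2 * s * r * a 1) % 16 = 6
  ev : ∀ q ∈ S0 a, ul q (-(2 * s * r * a (bq a q + 2))) = 1
  inj : ∀ (ε : ZMod 2) (y : Fin 3 → ZMod 2) (η : ℕ → ZMod 2), Sys a s (2 * s * r) ε y η →
    ε = 0 ∧ (∀ i, y i = 0) ∧ ∀ q ∈ S1 a, η q = 0

/-! ### The new places -/

section
variable {ι : Type} [Fintype ι] [DecidableEq ι]

/-- the differences of the roots (without the common factor) -/
def Bn (a : Fin 3 → ℤ) (bl : ι → Fin 3) (m : ι → ℕ) (p : ι → ℕ) (i : Fin 3) : ℤ :=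
  a i * ∏ l, if bl l = i then (p l : ℤ) ^ m l else 1

/-- the common factor of the differences of the roots -/
def Kn (s : ℤ) (r : ℕ) (st : ι → ℕ) (p : ι → ℕ) : ℤ := 2 * s * r * ∏ l, (p l : ℤ) ^ st l

/-- the primes `p l` at the new places -/
structure New (a : Fin 3 → ℤ) (r : ℕ) (bl : ι → Fin 3) (m st : ι → ℕ) (p : ι → ℕ) (h : ZMod 2) :
    Prop where
  pr : ∀ l, (p l).Prime
  inj : Function.Injective p
  m8 : ∀ l, p l % 8 = 1
  nd : ∀ l i, ¬ (p l : ℤ) ∣ a i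
  nr : ∀ l, p l ≠ r
  ua : ∀ l i, ul (p l) (a i) = 0
  um : ∀ l, ul (p l) (-1) = 0
  u2 : ∀ l, ul (p l) 2 = 0
  uo : ∀ l, ∀ q ∈ S0 a ∪ S1 a, ul q (p l) = 0
  ur : ∀ l, ul r (p l) = 1
  ur' : ∀ l, ul (p l) r = 1
  mu : ∀ l l', l ≠ l' → ul (p l) (p l') = h
  st1 : ∀ l, st l ≤ 1
  deg : ∃ N : ℕ, (∀ i, ∑ l, (if bl l = i then m l else 0) = N) ∧ Even (N + ∑ l, st l)
  sum : Bn a bl m p 0 + Bn a bl m p 1 + Bn a bl m p 2 = 0

/-- all data together -/
structure Pk (a : Fin 3 → ℤ) (s : ℤ) (r : ℕ) (bl : ι → Fin 3) (m st : ι → ℕ) (p : ι → ℕ)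
    (h : ZMod 2) : Prop where
  old : Old a
  cho : Cho a s r
  new : New a r bl m st p h

/-- the roots of the curve -/
def re (a : Fin 3 → ℤ) (s : ℤ) (r : ℕ) (bl : ι → Fin 3) (m st : ι → ℕ) (p : ι → ℕ) : Fin 3 → ℤ :=
  rt (Kn s r st p) (Bn a bl m p)

end

/-! ### Linear forms -/

/-- Differences of roots which are products of linear forms `al l u + be l v` -/
structure LD (ι : Type) [Fintype ι] [DecidableEq ι] where
  al : ι → ℤ
  be : ι → ℤ
  /-- the block: the form divides the difference number `bl l` -/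
  bl : ι → Fin 3
  /-- the multiplicity -/
  m : ι → ℕ
  /-- `1` if the form divides the common factor -/
  st : ι → ℕ
  ka : Fin 3 → ℤ
  g : ℤ
  /-- the degree of the differences -/
  N : ℕ
  st1 : ∀ l, st l ≤ 1
  np : ∀ l l', l ≠ l' → al l * be l' - al l' * be l ≠ 0
  k0 : ∀ i, ka i ≠ 0
  g0 : g ≠ 0
  N1 : 1 ≤ N
  deg : ∀ i, ∑ l, (if bl l = i then m l else 0) = N
  par : Even (N + ∑ l, st l)
  sum : ∀ u v : ℤ, ∑ i, ka i * ∏ l, (if bl l = i then (al l * u + be l * v) ^ m l else 1) = 0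

namespace LD
variable {ι : Type} [Fintype ι] [DecidableEq ι] (D : LD ι)

/-- the linear form -/
def L (l : ι) (u v : ℤ) : ℤ := D.al l * u + D.be l * v

/-- the differences of the roots -/
def A (i : Fin 3) (u v : ℤ) : ℤ := D.ka i * ∏ l, if D.bl l = i then D.L l u v ^ D.m l else 1

/-- the common factor -/
def F (u v : ℤ) : ℤ := D.g * ∏ l, D.L l u v ^ D.st l

end LD

/-! ### Curves over `ℚ(T)` -/

/-- A rational place of `ℂ(T)`: the point at infinity or a rational point. -/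
def RatPl (A : ValuationSubring (RatFunc ℂ)) : Prop :=
  RatFunc.X ∉ A ∨ ∃ c : ℚ, (RatFunc.X - RatFunc.C (c : ℂ))⁻¹ ∉ A

/-- The quadratic twist by `k`: if `E` is `(2 y + a₁ x + a₃)² = 4 x³ + b₂ x² + 2 b₄ x + b₆`, it is the curve
`y² = x³ + k b₂ x² + 8 k² b₄ x + 16 k³ b₆`. -/
def twist (E : WeierstrassCurve ℚ[X]) (k : ℤ) : WeierstrassCurve ℚ[X] where
  a₁ := 0
  a₂ := C (k : ℚ) * E.b₂
  a₃ := 0
  a₄ := C (8 * (k : ℚ) ^ 2) * E.b₄
  a₆ := C (16 * (k : ℚ) ^ 3) * E.b₆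

/-- all bad places are rational, in polynomial form -/
def RatBad (δ x y z : ℚ[X]) : Prop :=
  ∀ t : ℂ, (aeval t (x * y * z) = 0 ∨ Odd ((δ.map (algebraMap ℚ ℂ)).rootMultiplicity t)) →
    ∃ c : ℚ, t = (c : ℂ)

end

end Pool.Agent.GT.D
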