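import Pool.Agent.GT.DefsD

/-!
# Squad GT (MP_ba5221_nt), block D: the elliptic part. Statements

All rows are independent: the statements of the rows in `uses` are hypotheses. Complete proofs are in
the docstrings. `e i` are the roots, `X i = r - e i s²`; for a point `(X, Y)`, `Y ≠ 0`, the class of the
component `i` modulo squares is the class of `X i`. `P_j` is the 2-torsion point `(e j, 0)`; its
component `k ≠ j` is `e j - e k`.

Idea of the descent (rows SYS, NWP, COR): the curve has the roots `re a s r bl m st p`, with the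
differences `K B i`, `K = 2 s r ∏ (p l)^(st l)`, `B i = a i ∏_(bl l = i) (p l)^(m l)`. All `p l` are squares
at the old places (`2`, the primes of the `a i`, infinity), so the old part of the class satisfies a
system of linear equations over `F_2` which does not depend on the `p l` and has only the zero solution
(`Cho`: the diagonal of the matrix is free by the choice of `r`). Modulo the 2-torsion the class is
trivial at `r`. Then the primes `p l` are excluded by their mutual symbols, which are all equal.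
-/

set_option autoImplicit false

namespace Pool.Agent.GT.D

open Polynomial Pool.Agent.NJ

noncomputable section

/-! ### Functions of classes -/

/-- D_ADD: additivity.

Proof.  `padicValInt.mul`, so `un p (m n) = un p m * un p n` (`p ^ v ∣ m`).  The numbers `un p m` are not
divisible by `p` (for `m ≠ 0`), and for `p` odd the set of nonzero squares of `ZMod p` has index 2
(`legendreSym.mul`, `quadraticChar`).  Residues modulo 4 and 8: cases.  Sign: cases. -/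
def AddStmt : Prop :=
  (∀ p : ℕ, p.Prime → Adf (vl p)) ∧ (∀ p : ℕ, p.Prime → p ≠ 2 → Adf (ul p)) ∧ Adf l4 ∧ Adf l8 ∧
    Adf sg

/-- D_VAL: values.

Proof.  Direct (`un p n = n` if `p` does not divide `n`; `un p p = 1`). -/
def ValStmt : Prop :=
  (∀ (p : ℕ) (n : ℤ), p.Prime → ¬ (p : ℤ) ∣ n → vl p n = 0 ∧ un p n = n) ∧
  (∀ p : ℕ, p.Prime → vl p p = 1 ∧ un p p = 1) ∧
  (∀ (p : ℕ) (n : ℤ), p.Prime → p ≠ 2 → ¬ (p : ℤ) ∣ n →
    (IsSquare ((n : ℤ) : ZMod p) → ul p n = 0) ∧ (¬ IsSquare ((n : ℤ) : ZMod p) → ul p n = 1)) ∧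
  (∀ p : ℕ, p.Prime → p ≠ 2 → ul p p = 0) ∧
  (∀ n : ℤ, n % 2 = 1 → l4 n = (if n % 4 = 3 then 1 else 0) ∧
    l8 n = (if n % 8 = 3 ∨ n % 8 = 5 then 1 else 0)) ∧
  l4 2 = 0 ∧ l8 2 = 0 ∧ vl 2 (-1) = 0 ∧ sg (-1) = 1 ∧ (∀ p : ℕ, 0 < p → sg p = 0)

/-- D_EXP: expansion.

Proof.  `n = sgn n · ∏_(p | n) p^(v_p n)` (`Nat.factorization_prod_pow_eq_self` for `natAbs`); `f` of a product
is the sum, `f (p^v) = v f(p)`, and `f (-n) = f (-1) + f n`.  Primes outside of `P` have even `v`; primes of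
`P` which do not divide `n` contribute `0`.  (`f 1 = 0`: `Adf.one`.) -/
def ExpStmt : Prop := ∀ f : ℤ → ZMod 2, Adf f → ∀ n : ℤ, n ≠ 0 → ∀ P : Finset ℕ,
  (∀ p ∈ P, p.Prime) → (∀ p : ℕ, p.Prime → p ∉ P → vl p n = 0) →
    f n = sg n * f (-1) + ∑ p ∈ P, vl p n * f p

/-- D_SQR: squares.

Proof.  `n > 0` and all exponents of the prime factorisation are even. -/
def SqrStmt : Prop := ∀ n : ℤ, n ≠ 0 → sg n = 0 → (∀ p : ℕ, p.Prime → vl p n = 0) → IsSquare n

/-! ### Local conditions -/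

/-- D_GOO: good primes.

Proof.  If `p` divides `s`, then it does not divide `r`, and all `X i = r` modulo `p` are units.  If `p` does
not divide `s` and `p ∣ X i`, then `X j = (e i - e j) s²` modulo `p` is a unit for `j ≠ i`, and
`X 0 X 1 X 2` is a square, so `v_p (X i)` is even. -/
def GooStmt : Prop := ∀ (e : Fin 3 → ℤ) (r s : ℤ) (p : ℕ), Tri e r s → p.Prime →
  (∀ i j, i ≠ j → ¬ (p : ℤ) ∣ e i - e j) → ∀ i, vl p (Xc e r s i) = 0

/-- D_MLO: multiplicative reduction, odd case.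

Proof.  Write `v` for `v_p`, `u = X (i+1)`, `u' = X (i+2)`, `x = X i`; `u - u' = (e (i+2) - e (i+1)) s²`.
(a) `p ∣ s`: all three are `= r` modulo `p²`, units; `r³` is a square modulo `p`, so `r` is: all classes are
trivial.  (b) `p` does not divide `s`, `p ∣ x`: then `u, u'` are units (`u = (e i - e (i+1)) s²` modulo `p`) and
`u = u'` modulo `p`, so `u u'` is a square modulo `p`; as `x u u'` is a square, `v x` is even and the unit
part of `x` is a square modulo `p`.  (c) `p` does not divide `s`, `x`.  `v u + v u'` is even.  If `v u` is even: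
`v (u - u')` is odd, so `v u = v u' = 2 k < v (u - u')`, `u / p^(2k) = u' / p^(2k)` modulo `p`, the product of the
unit parts is a square, so `x` is a square modulo `p`.  If `v u` is odd: `p ∣ u`, so
`x = (e (i+1) - e i) s²` modulo `p`. -/
def MloStmt : Prop := ∀ (e : Fin 3 → ℤ) (r s : ℤ) (p : ℕ) (i : Fin 3), Tri e r s → p.Prime →
  p ≠ 2 → ¬ (p : ℤ) ∣ e (i + 1) - e i → ¬ (p : ℤ) ∣ e (i + 2) - e i →
  vl p (e (i + 1) - e (i + 2)) = 1 →
    vl p (Xc e r s i) = 0 ∧ vl p (Xc e r s (i + 2)) = vl p (Xc e r s (i + 1)) ∧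
    ul p (Xc e r s i) = vl p (Xc e r s (i + 1)) * ul p (e (i + 1) - e i)

/-- D_MLE: nonsplit multiplicative reduction, even case.

Proof.  Notation of MLO.  (a) `p ∣ s`: units.  (b) `p` does not divide `s`, `p ∣ x`: `u, u'` are units, so `v x` is
even.  (c) Otherwise `v x = 0`, `v u + v u'` is even.  If `v u` is odd, then `v u'` is odd; if `v u ≠ v u'` then
`v (u - u')` is the smaller one, odd, but it is even by hypothesis; so `v u = v u' = k`.  `v (u - u') ≥ k`, and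
`≠ k` by parity, so `u / p^k = u' / p^k` modulo `p`, the product of the unit parts of `u, u'` is a square
modulo `p`, so `x` is a square modulo `p`; but `x = (e (i+1) - e i) s²` modulo `p` (`p ∣ u`) is not. -/
def MleStmt : Prop := ∀ (e : Fin 3 → ℤ) (r s : ℤ) (p : ℕ) (i : Fin 3), Tri e r s → p.Prime →
  p ≠ 2 → ¬ (p : ℤ) ∣ e (i + 1) - e i → ¬ (p : ℤ) ∣ e (i + 2) - e i →
  e (i + 1) ≠ e (i + 2) → (p : ℤ) ∣ e (i + 1) - e (i + 2) →
  vl p (e (i + 1) - e (i + 2)) = 0 → ul p (e (i + 1) - e i) = 1 → ∀ j, vl p (Xc e r s j) = 0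

/-- D_STR: the primes of the common factor.

Proof.  `p ∣ e j - e k` for all `j, k`.  (a) `p ∣ s`: all `X k = r` modulo `p²`, `r³` is a square modulo `p`: trivial
class.  (b) `p` does not divide `s` and some `X k` is a unit: all `X k` are equal modulo `p`, `X 0³` is a
square modulo `p`: trivial class.  (c) all `X k = p x k`; `v (x 0 x 1 x 2)` is odd.
If `p ∣ x i`: `x (i+1) = (e i - e (i+1)) / p · s²` modulo `p` is a unit, so is `x (i+2)`, and the class of `X k`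
is that of `e i - e k`: `j = i`.  Otherwise `x i` is a unit and `v (x (i+1)) + v (x (i+2))` is odd, so the two
are different; say `v (x (i+2)) < v (x (i+1))` (the other case is the same, with `j = i+2`).  Then
`X (i+2) = (X (i+2) - X (i+1)) (1 + p ..)`: its class is that of `e (i+1) - e (i+2)` (up to the square `s²`), and
`p ∣ x (i+1)`, so `x i = (e (i+1) - e i) / p · s²` modulo `p`: the class of `X i` is that of
`e (i+1) - e i`.  So `j = i+1`. -/
def StrStmt : Prop := ∀ (e : Fin 3 → ℤ) (r s : ℤ) (p : ℕ) (i : Fin 3), Tri e r s → p.Prime →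
  p ≠ 2 → (∀ j k, (p : ℤ) ∣ e j - e k) → ¬ (p : ℤ) ^ 2 ∣ e (i + 1) - e i →
  ¬ (p : ℤ) ^ 2 ∣ e (i + 2) - e i → e (i + 1) ≠ e (i + 2) →
    (∀ k, vl p (Xc e r s k) = 0 ∧ ul p (Xc e r s k) = 0) ∨
    ∃ j, ∀ k, k ≠ j → vl p (Xc e r s k) = vl p (e j - e k) ∧
      ul p (Xc e r s k) = ul p (e j - e k)

/-- D_TWO: the prime 2.

Proof.  Let `C = e 2 - e 0 = 6` modulo 16, `64 ∣ e 1 - e 0`, `Z = X 2`, `u = X 0 = Z + C s²`,
`u' = X 1 = u - (e 1 - e 0) s²`, `Z u u'` a square.  Note `l4 1 = l8 1 = 0`, and for an odd number `n` the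
class of `n` modulo squares of `Q_2` is its residue modulo 8.
(a) `s` even: `r` is odd, `u = u' = r` modulo 256, so `Z` is a square class (`Z u²` is a square times a unit `1` modulo
8): `Z = 1` modulo 8, `u = Z + C s² = Z = 1` modulo 8 (`C s² = 0` modulo 8): everything is trivial.
(b) `s` odd, `4 ∣ Z`: `v (u) = 1`, `u' = u (1 + 32 ..)`, so `Z` is a square class: `v Z` is even,
`un 2 Z = 1` modulo 8: `l4 Z = l8 Z = vl 2 Z = 0`.  `u / 2 = Z / 2 + (C / 2) s²`; `C / 2 = 3` modulo 8, `s² = 1`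
modulo 8, and `Z / 2 = 2` or `0` modulo 8 (`Z = 4 · 1` or `16 · ..`): `u / 2 = 5` or `3` modulo 8, `l8 u = 1 = vl 2 u`.
(c) `s` odd, `Z` odd: `u` odd, `u' = u` modulo 64, so `Z = 1` modulo 8 and `u = 1 + 6 = 7` modulo 8 (`C s² = 6` modulo
8): `l8 u = 0 = vl 2 u`.
(d) `s` odd, `Z = 2 ·` odd: `u` is even.  Put `E = u - u' = (e 1 - e 0) s²`.  `Z u u'` is a square and `v Z = 1`, so
`v u + v u'` is odd.  If `v u + 3 ≤ v E` then `u' = u (1 - E / u)` would have the same valuation: so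
`v u ≥ v E - 2 ≥ 4`, `Z = - C s²` modulo 16, `un 2 Z = -3 = 5` modulo 8: `l4 Z = 0`, `l8 Z = 1 = vl 2 Z`; and
`un 2 u' = 5 un 2 u` modulo 8.  If `v u < v u'`: `v E = v u`, and `un 2 E = un 2 u` modulo 8 (if `v u' ≥ v u + 3`) or
`un 2 E = un 2 u - 2 un 2 u' = - 9 un 2 u = - un 2 u` modulo 8 (if `v u' = v u + 1`): `l8 E = l8 u`, `vl 2 E = vl 2 u`.
If `v u' < v u`: `v E = v u'`, and `- un 2 E = un 2 u' = 5 un 2 u` (if `v u ≥ v u' + 3`) or
`- un 2 E = un 2 u' - 2 un 2 u = 3 un 2 u` modulo 8: `l8 E = l8 u + 1`, `vl 2 E = vl 2 u + 1`.  In both cases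
`l8 u + vl 2 u = l8 E + vl 2 E`, and `E` and `e 1 - e 0` have the same values (`s` odd). -/
def TwoStmt : Prop := ∀ (e : Fin 3 → ℤ) (r s : ℤ), Tri e r s → (e 2 - e 0) % 16 = 6 →
  (64 : ℤ) ∣ e 1 - e 0 → e 1 ≠ e 0 →
    l4 (Xc e r s 2) = 0 ∧ l8 (Xc e r s 2) = vl 2 (Xc e r s 2) ∧
    l8 (Xc e r s 0) + vl 2 (Xc e r s 0) =
      vl 2 (Xc e r s 2) * (l8 (e 1 - e 0) + vl 2 (e 1 - e 0))

/-- D_REA: the real place.

Proof.  `X a` is the largest of the three numbers `X i = r - e i s²`, and the product of the three is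
positive: `X a > 0` and the other two have the same sign. -/
def ReaStmt : Prop := ∀ (e : Fin 3 → ℤ) (r s : ℤ) (a : Fin 3), Tri e r s → (∀ j, e a ≤ e j) →
  sg (Xc e r s a) = 0 ∧ sg (Xc e r s (a + 1)) = sg (Xc e r s (a + 2))

/-! ### The descent -/

section
variable (ι : Type) [Fintype ι] [DecidableEq ι]

/-- D_DFF: the differences of the roots at the primes `p l` and at the old primes.

Proof.  `K = 2 s r ∏ (p l)^(st l)`, `B i = a i ∏_(bl l = i) (p l)^(m l)`; `vl`, `ul` are additive (ADD), with the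
values of `New` and VAL.  At `p l`: `ul K = 0 + 0 + 1 + ∑_(l' ≠ l) (st l') h`, `ul (B i) = ∑_(l' ≠ l, bl l' = i) (m l') h`,
and `N + ∑ st l` is even.  So `ul (K B i) = 1 + h ((∑ st) - st l + N - [bl l = i] m l) =
1 + h (st l + [bl l = i] m l)`.  (`s = ± 1`: `ul (± 1) = 0`.) -/
def DffStmt : Prop := ∀ (a : Fin 3 → ℤ) (s : ℤ) (r : ℕ) (bl : ι → Fin 3) (m st : ι → ℕ)
  (p : ι → ℕ) (h : ZMod 2), Pk a s r bl m st p h →
  (∀ (l : ι) (i : Fin 3), vl (p l) (Kn s r st p * Bn a bl m p i) =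
      (st l : ZMod 2) + (if bl l = i then (m l : ZMod 2) else 0) ∧
    ul (p l) (Kn s r st p * Bn a bl m p i) =
      1 + h * ((st l : ZMod 2) + (if bl l = i then (m l : ZMod 2) else 0))) ∧
  (∀ q ∈ S0 a ∪ S1 a, ∀ i : Fin 3, vl q (Kn s r st p * Bn a bl m p i) = vl q (a i) ∧
    ul q (Kn s r st p * Bn a bl m p i) = ul q (2 * s * r * a i)) ∧
  (∀ i : Fin 3, l8 (Kn s r st p * Bn a bl m p i) = l8 (2 * s * r * a i) ∧
    vl 2 (Kn s r st p * Bn a bl m p i) = vl 2 (2 * s * r * a i) ∧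
    Kn s r st p * Bn a bl m p i ≠ 0 ∧ 0 < (Kn s r st p * Bn a bl m p i) * (s * a i)) ∧
  (Kn s r st p * Bn a bl m p 1) % 16 = 6

/-- D_LOC: the valuations of the components.

Proof.  The roots `e = re a s r bl m st p`, with `e (i+1) - e i = - K B (i+2)`, `e (i+2) - e i = K B (i+1)`,
`e (i+1) - e (i+2) = K B i` (`rt_sub`).  (1) `q ∈ S1 a`, `i = bq a q`: `q ∣ a i`, and `q` does not divide
`K B (i+1)`, `K B (i+2)` (`a` pairwise coprime, `q ≠ 2, r, p l`); `vl q (K B i) = vl q (a i) = 1` (DFF, and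
`vl q (a 0 a 1 a 2) = vl q (a i)`): MLO.  (2) `q ∈ S0 a`: MLE with the condition `ev` of `Cho` (DFF).
(3) other primes `≠ 2, r, p l`: they do not divide any difference: GOO.
(4) signs: the index of the smallest root is `ra a s`: the roots are `0`, `- K B 2`, `K B 1`, where `K B i` has
the sign of `s a i` (DFF), and `re` of `Cho`: REA. -/
def LocStmt : Prop := ∀ (a : Fin 3 → ℤ) (s : ℤ) (r : ℕ) (bl : ι → Fin 3) (m st : ι → ℕ)
  (p : ι → ℕ) (h : ZMod 2), Pk a s r bl m st p h → ∀ x w : ℤ, Tri (re a s r bl m st p) x w →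
  (∀ q ∈ S1 a, vl q (Xc (re a s r bl m st p) x w (bq a q)) = 0 ∧
    vl q (Xc (re a s r bl m st p) x w (bq a q + 2)) =
      vl q (Xc (re a s r bl m st p) x w (bq a q + 1)) ∧
    ul q (Xc (re a s r bl m st p) x w (bq a q)) =
      vl q (Xc (re a s r bl m st p) x w (bq a q + 1)) *
        ul q (-(2 * s * r * a (bq a q + 2)))) ∧
  (∀ q ∈ S0 a, ∀ i, vl q (Xc (re a s r bl m st p) x w i) = 0) ∧
  (∀ q : ℕ, q.Prime → q ≠ 2 → q ≠ r → q ∉ S0 a ∪ S1 a → (∀ l, q ≠ p l) →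
    ∀ i, vl q (Xc (re a s r bl m st p) x w i) = 0) ∧
  (∀ i, sg (Xc (re a s r bl m st p) x w i) =
    if i = ra a s then 0 else sg (Xc (re a s r bl m st p) x w 2))

/-- D_FEX: the value of an additive function.

Proof.  EXP with `P = {2, r} ∪ S0 ∪ S1 ∪ {p l}` and LOC: the terms of `S0` and `r` vanish, those of `S1` are
`η q f q` or `0`. -/
def FexStmt : Prop := ∀ (a : Fin 3 → ℤ) (s : ℤ) (r : ℕ) (bl : ι → Fin 3) (m st : ι → ℕ)
  (p : ι → ℕ) (h : ZMod 2), Pk a s r bl m st p h → ∀ x w : ℤ, Tri (re a s r bl m st p) x w →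
  (∀ i, vl r (Xc (re a s r bl m st p) x w i) = 0) → ∀ f : ℤ → ZMod 2, Adf f → ∀ i,
    f (Xc (re a s r bl m st p) x w i) =
      Fm a s (sg (Xc (re a s r bl m st p) x w 2))
        (fun j => vl 2 (Xc (re a s r bl m st p) x w j))
        (fun q => vl q (Xc (re a s r bl m st p) x w (bq a q + 1))) f i +
      ∑ l, vl (p l) (Xc (re a s r bl m st p) x w i) * f (p l)

/-- D_SYS: the old part of the class vanishes.

Proof.  `Sys a s (2 s r) ε y η` holds for `ε = sg (X 2)`, `y i = vl 2 (X i)`, `η q = vl q (X (bq a q + 1))`: `ysum`: the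
product is a square; `t1, t2, t3`: TWO (hypotheses by DFF) and FEX for `f = l4, l8`, `f (p l) = 0` because
`p l = 1` modulo 8 (VAL); `tq`: LOC and FEX for `f = ul q`, `f (p l) = 0` (`uo`).  So all of them vanish by `inj`
of `Cho`. -/
def SypStmt : Prop := ∀ (a : Fin 3 → ℤ) (s : ℤ) (r : ℕ) (bl : ι → Fin 3) (m st : ι → ℕ)
  (p : ι → ℕ) (h : ZMod 2), Pk a s r bl m st p h → ∀ x w : ℤ, Tri (re a s r bl m st p) x w →
  (∀ i, vl r (Xc (re a s r bl m st p) x w i) = 0) →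
    (∀ i, sg (Xc (re a s r bl m st p) x w i) = 0) ∧
    (∀ i, vl 2 (Xc (re a s r bl m st p) x w i) = 0) ∧
    (∀ q ∈ S0 a ∪ S1 a, ∀ i, vl q (Xc (re a s r bl m st p) x w i) = 0) ∧
    ∀ f : ℤ → ZMod 2, Adf f → ∀ i, f (Xc (re a s r bl m st p) x w i) =
      ∑ l, vl (p l) (Xc (re a s r bl m st p) x w i) * f (p l)

/-- D_NWP: the new part of the class vanishes.

Proof.  Write `x_(l,i) = vl (p l) (X i)`; by SYP `f (X i) = ∑_l x_(l,i) f (p l)` for additive `f`.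
(1) At `r`: `r` divides all differences of roots exactly once (`st`: `r ∣ K`), so STR applies (any `i`); the
second alternative is impossible, because `vl r (X k) = 0` but `vl r (e j - e k) = 1`; so
`0 = ul r (X i) = ∑_l x_(l,i)` (`ur`).
(2) At `p l`: `ul (p l) (X i) = ∑_(l' ≠ l) x_(l',i) h + x_(l,i) ul (p l) (p l) = h x_(l,i)` by (1) and VAL.
(3) `st l = 1`: STR with `i = bl l` (DFF; `p l` divides `K` exactly once and not `B j`, `j ≠ bl l`).  Second
alternative: for the given `j` choose `k ≠ j` such that the third index `t` is `≠ bl l`; `e j - e k = ± K B t`, so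
`x_(l,k) = 1` and `ul (p l) (X k) = 1 + h` (DFF: `st l = 1`, `bl l ≠ t`), but this must be `h x_(l,k) = h`:
contradiction.  So `x_(l,i) = 0` for all `i`.
(4) `st l = 0`, `i = bl l`, `m l` odd: MLO: `x_(l,i) = 0`, `x_(l,i+1) = x_(l,i+2)`, and
`h x_(l,i) = ul (p l) (X i) = x_(l,i+1) ul (p l) (- K B (i+2)) = x_(l,i+1)` (DFF), so it is `0`.
(5) `st l = 0`, `m l > 0` even: MLE.  (6) `st l = m l = 0`: GOO. -/
def NwpStmt : Prop := ∀ (a : Fin 3 → ℤ) (s : ℤ) (r : ℕ) (bl : ι → Fin 3) (m st : ι → ℕ)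
  (p : ι → ℕ) (h : ZMod 2), Pk a s r bl m st p h → ∀ x w : ℤ, Tri (re a s r bl m st p) x w →
  (∀ i, vl r (Xc (re a s r bl m st p) x w i) = 0) →
    ∀ l i, vl (p l) (Xc (re a s r bl m st p) x w i) = 0

/-- D_COR: the class is trivial.

Proof.  SYP, NWP, LOC (other primes) and SQR. -/
def CorStmt : Prop := ∀ (a : Fin 3 → ℤ) (s : ℤ) (r : ℕ) (bl : ι → Fin 3) (m st : ι → ℕ)
  (p : ι → ℕ) (h : ZMod 2), Pk a s r bl m st p h → ∀ x w : ℤ, Tri (re a s r bl m st p) x w →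
  (∀ i, vl r (Xc (re a s r bl m st p) x w i) = 0) →
    ∀ i, IsSquare (Xc (re a s r bl m st p) x w i)

/-- D_SEL: the curve has only the points of order 2.

Proof.  `e₂ = - K B 2`, `e₃ = K B 1` (so `e₃ = 6` modulo 16, `64 ∣ e₂`: DFF).  By `NJ.CRITStmt` it is enough that all
classes are in `InT`.  Let `Cls e₂ e₃ d₁ d₂`, with `Pt e₂ e₃ d₁ d₂ x w ..`; `r` divides `e₂`, `e₃`, `e₂ - e₃` exactly
once (`e₂ - e₃ = - K B 2 - K B 1 = K B 0`).  By `NJ.TRNStmt` (translation by the 2-torsion; compare the parities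
of the exponents of `r`, `NJ.H93.val_translate` in Helper93_NJ/NRM.lean) there is a class
`f₁, f₂` prime to `r` (either `d` itself or a translate).  For a class `(f₁, f₂)` prime to `r`:
`Pt e₂ e₃ f₁ f₂ x w ..` gives `Tri (re ..) x w` with `X 0 = x = f₁ A²`, `X 1 = x - e₂ w² = f₂ B²`, and
`vl r (X i) = 0` (for `i = 2` by the product); COR: `X 0`, `X 1` are squares, so `f₁ = f₂ = 1` (squarefree).
So `d` is `(1, 1)` or the class of a 2-torsion point. -/
def SelStmt : Prop := ∀ (a : Fin 3 → ℤ) (s : ℤ) (r : ℕ) (bl : ι → Fin 3) (m st : ι → ℕ)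
  (p : ι → ℕ) (h : ZMod 2), Pk a s r bl m st p h →
    Triv ((-(Kn s r st p * Bn a bl m p 2) : ℤ) : ℚ) ((Kn s r st p * Bn a bl m p 1 : ℤ) : ℚ)

end

/-! ### The choice of the prime `r` -/

/-- D_DIA: completion of the diagonal.

Proof.  Induction on the finite set `ι`: it is enough to add one index `q` to a system which has only the
zero solution for `V` and the other indices `ι'`.  The map `(v, η) ↦ (L v + ∑ η_i c_i, b_i v + ∑ g_ij η_j + δ_i η_i)` of
`V × (ι' → ZMod 2)` to itself is injective, so bijective (finite).  Let `(v₁, η₁)` be the preimage of the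
column `(c_q, (g_(i q))_i)`, and `δ_q = 1 + b_q v₁ + ∑_(j ∈ ι') g_(q j) η₁ j - g_(q q)`.  If `(v, η, t)` is a zero of the new
system (`t = η_q`), then `(v, η) = t (v₁, η₁)` (characteristic 2), and the equation number `q` reads
`t (b_q v₁ + ∑ g_(q j) η₁ j + g_(q q) + δ_q) = t = 0`. -/
def DiaStmt : Prop := ∀ (n : ℕ) (ι : Type) [Fintype ι] [DecidableEq ι]
  (L : (Fin n → ZMod 2) →ₗ[ZMod 2] (Fin n → ZMod 2)) (c : ι → Fin n → ZMod 2)
  (b : ι → (Fin n → ZMod 2) →ₗ[ZMod 2] ZMod 2) (g : ι → ι → ZMod 2), Function.Injective L →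
  ∃ δ : ι → ZMod 2, ∀ (v : Fin n → ZMod 2) (η : ι → ZMod 2), L v + ∑ i, η i • c i = 0 →
    (∀ i, b i v + ∑ j, g i j * η j + δ i * η i = 0) → v = 0 ∧ η = 0

/-- D_CRT: residue classes with prescribed symbols.

Proof.  `N = 8 ∏ q`; for every `q` choose a residue `≠ 0` modulo `q` which is a square or not; Chinese remainder
theorem.  (VAL for `ul q n`.) -/
def CrtStmt : Prop := ∀ (Q : Finset ℕ) (τ : ℕ → ZMod 2) (c : ℕ), (∀ q ∈ Q, q.Prime ∧ q ≠ 2) →
  c % 2 = 1 → c < 8 → ∃ N ρ : ℕ, 0 < N ∧ ρ.Coprime N ∧ ∀ n : ℕ, n ≡ ρ [MOD N] →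
    n % 8 = c ∧ ∀ q ∈ Q, ¬ q ∣ n ∧ ul q n = τ q

/-- D_CHO: the choice of `r` (STRONG).

Proof.  Sign: if `a 1 < 0` and `0 < a 0` take `s = -1`, otherwise `s = 1`.  Residue modulo 8: `r s a 1 = 3` modulo 8,
so `2 s r a 1 = 6` modulo 16.  Then `κ = l8 (2 s r a 2) + vl 2 (2 s r a 2)` is a constant.
`Sys` is a system of linear equations for `v = (ε, y 0, y 2)` (`y 1 = y 0 + y 2`) and `η : S1 a → ZMod 2`
(`n = 3` in DIA).  Part `L`: `t1`: `ε · 1 + ..` (`ra ≠ 2`, `l4 (-1) = 1`, `l4 2 = 0`); `t2`: `y 2` (`l8 (-1) = l8 2 = 0`); `t3`: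
`y 0 + κ y 2`: injective.  The equation `tq` for `q` has the diagonal coefficient `ul q (- (2 s r a (i+2))) =
ul q r + ul q (- 2 s a (i+2))` (`i = bq a q`), the other coefficients do not depend on `r`.  DIA gives `δ`, CRT for
`Q = S0 ∪ S1` gives the residue class of `r` with `ul q r = δ q + ul q (- 2 s a (i+2))` for `q ∈ S1`, and
`ul q r = 1 + ul q (- 2 s a (i+2))` for `q ∈ S0`. -/
def ChoStmt : Prop := ∀ a : Fin 3 → ℤ, Old a → ∃ (s : ℤ) (N ρ : ℕ), 0 < N ∧ ρ.Coprime N ∧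
  ∀ r : ℕ, r.Prime → r ≠ 2 → (∀ i, ¬ (r : ℤ) ∣ a i) → r ≡ ρ [MOD N] → Cho a s r

/-! ### The primes -/

/-- D_RCP: reciprocity.

Proof.  `jacobiSym.quadratic_reciprocity_one_mod_four`, `ZMod.exists_sq_eq_neg_one_iff`,
`ZMod.exists_sq_eq_two_iff`.  For `d`: `d = 2^k d'`, `(d / p) = (d' / p) = (p / d')` (Jacobi symbol, `p = 1` modulo 8),
and `(p / d')` depends on `p` modulo `d'`.  (VAL for `ul`.) -/
def RcpStmt : Prop :=
  (∀ p : ℕ, p.Prime → p % 8 = 1 → ul p (-1) = 0 ∧ ul p 2 = 0) ∧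
  (∀ p q : ℕ, p.Prime → q.Prime → p % 8 = 1 → q ≠ 2 → p ≠ q → ul p q = ul q p) ∧
  (∀ p p' d : ℕ, p.Prime → p'.Prime → p % 8 = 1 → p' % 8 = 1 → 0 < d → p.Coprime d →
    p'.Coprime d → p ≡ p' [MOD d] → ul p d = ul p' d)

/-- D_PRI: the primes from the theorem of Green and Tao.

Proof.  `Q = S0 ∪ S1 ∪ {odd primes dividing some n l - n l' ≠ 0}`; `r ∉ Q` (`n l < r`, `r` does not divide `a i`).
`M = 8 r ∏_Q q`; `b = 1` modulo `8 ∏_Q q`, `b` a nonresidue modulo `r`.  `GtStmt` for `K = 2 + max n l`, `M`, `b` and a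
large `n₀` (larger than `r`, all `|a i|`, all elements of `Q`): `p l = a' + (n l) d` are primes `= b` modulo `M`, and `a'` does
not divide `d`, because `a' + d` is a prime (`K ≥ 2`).  `ua`: `a i` is a product of `± 1`, `2` and primes of `S0 ∪ S1`,
and `ul (p l) q = ul q (p l) = 0` (RCP, `p l = 1` modulo `q`), ADD.  `ur'`: RCP.  `mu`: for `l ≠ l'`,
`p l' = (n l' - n l) d` modulo `p l`, so `ul (p l) (p l') = ul (p l) (n l' - n l) + ul (p l) d = ul (p l) d`, and by RCP this is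
independent of `l` (`p l = p l'` modulo `d`): `h = ul a' d` (`a'` is the prime number `0` of the progression,
`a' = 1` modulo 8). -/
def PriStmt : Prop := GtStmt → ∀ (ι : Type) [Fintype ι] [DecidableEq ι] (a : Fin 3 → ℤ) (s : ℤ)
  (r : ℕ) (bl : ι → Fin 3) (m st n : ι → ℕ), Old a → Cho a s r → Function.Injective n →
  (∀ l, n l < r) → (∀ l, st l ≤ 1) →
  (∃ N : ℕ, (∀ i, ∑ l, (if bl l = i then m l else 0) = N) ∧ Even (N + ∑ l, st l)) →
  (∀ a' d : ℕ, Bn a bl m (fun l => a' + n l * d) 0 + Bn a bl m (fun l => a' + n l * d) 1 +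
    Bn a bl m (fun l => a' + n l * d) 2 = 0) → ∀ n₀ : ℕ, ∃ a' d : ℕ, n₀ ≤ a' ∧ a'.Prime ∧
      0 < d ∧ a'.Coprime d ∧ ∃ h : ZMod 2, New a r bl m st (fun l => a' + n l * d) h

/-- D_BAS: the base point.

Proof.  Since `∑ [bl l = 2] m l = N ≥ 1` there is a form `l` with `bl l = 2`, `m l ≥ 1`.  `(x, y) = (be l, - al l)` is its root,
`(x, y) ≠ 0`, and the other forms do not vanish there (`np`).  `(u₀, v₀) = (x, y) + 2^k (x', y')` with
`L l (x', y') ≠ 0` (for example `(al l, be l)`); for large `k` all forms are `≠ 0` at `(u₀, v₀)` and the 2-adic valuations of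
`A 0`, `A 1` at `(u₀, v₀)` are those at `(x, y)`, while `2^k` divides `A 2 (u₀, v₀)`.  `g₀` = the gcd of the three
values, `a i = A i / g₀`: the sum is `0` (`sum`), so they are pairwise coprime. -/
def BasStmt : Prop := ∀ (ι : Type) [Fintype ι] [DecidableEq ι] (D : LD ι),
  ∃ (u₀ v₀ g₀ : ℤ) (a : Fin 3 → ℤ), (∀ l, D.L l u₀ v₀ ≠ 0) ∧ g₀ ≠ 0 ∧ Old a ∧
    ∀ i, D.A i u₀ v₀ = g₀ * a i

/-- D_APP: the base point is moved to infinity.

Proof.  `w = (- v₀, u₀)`, `Δ = u₀² + v₀² ≠ 0` (there is at least one form).  `c l = L l (u₀, v₀)`, `f l = L l (w)`, so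
`c l f l' - c l' f l = Δ (al l be l' - al l' be l) ≠ 0`.  `Q = ∏ c l`, `n' l = f l ∏_(l' ≠ l) c l'`, so
`Q f l = c l n' l`, and the `n' l` are different.  `μ = min n' l`, `n l = n' l - μ`,
`(u₁, v₁) = Q w - μ (u₀, v₀)`. -/
def AppStmt : Prop := ∀ (ι : Type) [Fintype ι] [DecidableEq ι] (D : LD ι) (u₀ v₀ : ℤ),
  (∀ l, D.L l u₀ v₀ ≠ 0) → ∃ (u₁ v₁ : ℤ) (n : ι → ℕ), u₀ * v₁ - u₁ * v₀ ≠ 0 ∧
    Function.Injective n ∧ ∀ (a d : ℤ) (l : ι),
      D.L l (u₀ * a + u₁ * d) (v₀ * a + v₁ * d) = D.L l u₀ v₀ * (a + n l * d)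

/-- D_INF: infinitely many parameters.

Proof.  `(u₀ a + u₁ d) / (v₀ a + v₁ d) = (u₀ a' + u₁ d') / (v₀ a' + v₁ d')` implies `a d' = a' d` (determinant), so
`a = a'`, `d = d'` (coprime, positive).  `v₀ a + v₁ d = 0` for at most one coprime pair with `a, d > 0`.  There are
infinitely many pairs (`a` is unbounded). -/
def InfStmt : Prop := ∀ (u₀ v₀ u₁ v₁ : ℤ) (P : ℕ → ℕ → Prop), u₀ * v₁ - u₁ * v₀ ≠ 0 →
  (∀ n₀ : ℕ, ∃ a d : ℕ, n₀ ≤ a ∧ a.Prime ∧ 0 < d ∧ a.Coprime d ∧ P a d) →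
  {t : ℚ | ∃ a d : ℕ, a.Prime ∧ 0 < d ∧ P a d ∧ v₀ * a + v₁ * d ≠ 0 ∧
    t = ((u₀ * a + u₁ * d : ℤ) : ℚ) / ((v₀ * a + v₁ * d : ℤ) : ℚ)}.Infinite

/-- D_LDC: twists of products of linear forms.

Proof.  BAS: `u₀, v₀, g₀, a`.  APP: `u₁, v₁, n`.  CHO: `s, N, ρ`.  `c = 2 s g₀ F(u₀, v₀)`; `n₀` larger than 2, all `|a i|` and
all `n l`.  For a prime `r` as in the statement: `Cho a s r`, PRI gives infinitely many `(a', d)` with
`p l = a' + (n l) d` and `New`.  With `u = u₀ a' + u₁ d`, `v = v₀ a' + v₁ d`: `L l (u, v) = L l (u₀, v₀) p l`, so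
`A i (u, v) = g₀ a i ∏ .. = g₀ B i`, `F (u, v) = F (u₀, v₀) ∏ (p l)^(st l)`, and
`c r F A i = (g₀ F(u₀, v₀))² K B i`.  SEL gives `Triv (- K B 2) (K B 1)`, and `Triv e₂ e₃` implies
`Triv (λ² e₂) (λ² e₃)` (`λ ≠ 0`: divide `X` by `λ²`, `Y` by `λ³`).  The hypothesis `sum` of PRI: from `D.sum` at `(u, v)`,
divided by `g₀`.  INF. -/
def LdcStmt : Prop := GtStmt → ∀ (ι : Type) [Fintype ι] [DecidableEq ι] (D : LD ι),
  ∃ (c : ℤ) (N ρ n₀ : ℕ), c ≠ 0 ∧ 0 < N ∧ ρ.Coprime N ∧ ∀ r : ℕ, r.Prime → n₀ ≤ r →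
    r ≡ ρ [MOD N] → {t : ℚ | ∃ u v : ℤ, v ≠ 0 ∧ t = (u : ℚ) / (v : ℚ) ∧ (∀ l, D.L l u v ≠ 0) ∧
      Triv ((-(c * r * D.F u v * D.A 2 u v) : ℤ) : ℚ)
        ((c * r * D.F u v * D.A 1 u v : ℤ) : ℚ)}.Infinite

/-! ### From curves over `ℚ(T)` to linear forms -/

/-- D_BDR: rational bad places.

Proof.  As in Helper75_NJ/Bad.lean (`NJ.H75.bad`, its lemmas may be imported): the place `A t` of `NJ.PLCStmt` is bad if
`x y z` vanishes at `t` or the multiplicity of `t` in `δ` is odd.  So `RatPl (A t)`; `RatFunc.X ∈ A t` (order `≥ 0`), and for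
`t ≠ c`, `(X - c)⁻¹ ∈ A t` (order `0`); so `t = c`. -/
def BdrStmt : Prop := ∀ E : WeierstrassCurve ℚ[X], E.Δ ≠ 0 → (∀ A ∈ badPlaces E, RatPl A) →
  ∀ (e₁ e₂ e₃ u : RatFunc ℚ) (δ x y z : ℚ[X]), Roots (gen E) e₁ e₂ e₃ →
    Dif e₁ e₂ e₃ u δ x y z → RatBad δ x y z

/-- D_SPL: polynomials with rational roots.

Proof.  All roots of `x` in `ℂ` are rational, so `x` splits over `ℚ` (compare the number of roots with the degree, or
`Polynomial.Splits` by irreducible factors: an irreducible factor has a complex root, which is rational). -/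
def SplStmt : Prop := ∀ x : ℚ[X], x ≠ 0 → (∀ t : ℂ, aeval t x = 0 → ∃ c : ℚ, t = (c : ℂ)) →
  x = C x.leadingCoeff * ∏ c ∈ x.roots.toFinset, (X - C c) ^ x.rootMultiplicity c

/-- D_SQP: polynomials with rational odd roots.

Proof.  Induction on the degree (or unique factorisation): `R` is the set of the rational roots with odd
multiplicity.  An irreducible factor `π` of `δ` over `ℚ` of degree `≥ 2` is separable, its complex roots are not
rational, so their multiplicity in `δ`, which is the multiplicity of `π` in `δ`, is even. -/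
def SqpStmt : Prop := ∀ δ : ℚ[X], δ ≠ 0 →
  (∀ t : ℂ, Odd ((δ.map (algebraMap ℚ ℂ)).rootMultiplicity t) → ∃ c : ℚ, t = (c : ℂ)) →
  ∃ (k : ℚ) (s : ℚ[X]) (R : Finset ℚ), k ≠ 0 ∧ s ≠ 0 ∧ δ = C k * s ^ 2 * ∏ c ∈ R, (X - C c)

/-- D_FRM: homogeneous linear forms (STRONG).

Proof.  SPL for `x, y, z`, SQP for `δ = k s² ∏_(c ∈ R) (X - c)`.  Let `R'` be the union of `R` and the roots of
`x, y, z`, `ι = Option R'` (as a type: `Option {c // c ∈ R'}`).  For `c ∈ R'`: `L_c = (den c) u - (num c) v`; for `none`: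
`L = v`.  Blocks: roots of `x` get block `2`, of `y` block `0`, of `z` block `1` (coprime), the others any block; `m` = the
multiplicity of `c` in `x y z`, `st = 1` iff `c ∈ R`.  `N` = the largest of the three degrees, `N ≥ 1`.  `none`: since
`x + y + z = 0` at most one of the degrees is smaller than `N`; this is its block, `m = N -` degree (`m = 0` if there
is none); `st` = the parity of `N + |R|`.  `x(u/v) = lc_x ∏ (u/v - c)^m = lc_x (∏ den^(-m)) v^(-N) ∏_(bl = 2) L^m`, and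
so on: `x(u/v) = c_x v^(-N) ∏_(bl = 2) L^m` with `c_x ∈ ℚ`; a common denominator `d > 0` gives integers
`ka 2 = d c_x`, `ka 0 = d c_y`, `ka 1 = d c_z`.  `δ(u/v) = c_δ s(u/v)² v^(-|R| - st none) ∏ L^st` with `c_δ ∈ ℚ`.
Together `(δ x)(u/v) = (c_δ / d) s(u/v)² v^(-(N + |R| + st none)) (∏ L^st) ka 2 ∏ L^m`, where the exponent of `v` is even,
and `c_δ / d = g / h²` with integers `g, h` (`num · den / den²`).  `w = s`, `lam = s(u/v) / (h v^(..))`.
`sum` of `LD`: an identity of forms: it holds for `v ≠ 0`, away from finitely many `u/v`, so always (for `v = 0`: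
polynomial in `v` with infinitely many zeros; or write both sides as homogeneous polynomials). -/
def FrmStmt : Prop := ∀ δ x y z : ℚ[X], δ ≠ 0 → x ≠ 0 → y ≠ 0 → z ≠ 0 → x + y + z = 0 →
  IsCoprime x y → ¬ (x.natDegree = 0 ∧ y.natDegree = 0) → RatBad δ x y z →
  ∃ (ι : Type) (_ : Fintype ι) (_ : DecidableEq ι) (D : LD ι) (w : ℚ[X]), w ≠ 0 ∧
    ∀ u v : ℤ, v ≠ 0 → (∀ l, D.L l u v ≠ 0) → w.eval ((u : ℚ) / v) ≠ 0 →
      ∃ lam : ℚ, lam ≠ 0 ∧
        (δ * x).eval ((u : ℚ) / v) = lam ^ 2 * ((D.F u v * D.A 2 u v : ℤ) : ℚ) ∧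
        (δ * y).eval ((u : ℚ) / v) = lam ^ 2 * ((D.F u v * D.A 0 u v : ℤ) : ℚ) ∧
        (δ * z).eval ((u : ℚ) / v) = lam ^ 2 * ((D.F u v * D.A 1 u v : ℤ) : ℚ)

/-- D_TWI: the twisted curve.

Proof.  `b₂ = 4 k b₂(E)`, `b₄ = 16 k² b₄(E)`, `b₆ = 64 k³ b₆(E)` for the twist; the roots are multiplied by `4 k`.
`Δ = 2^12 k^6 Δ(E)` (`b₈` is determined by `4 b₈ = b₂ b₆ - b₄²`). -/
def TwiStmt : Prop := ∀ (E : WeierstrassCurve ℚ[X]) (k : ℤ), k ≠ 0 → E.Δ ≠ 0 →
  (twist E k).Δ ≠ 0 ∧ ∀ (e₁ e₂ e₃ u : RatFunc ℚ) (δ x y z : ℚ[X]), Roots (gen E) e₁ e₂ e₃ →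
    Dif e₁ e₂ e₃ u δ x y z →
    Roots (gen (twist E k)) (4 * k * e₁) (4 * k * e₂) (4 * k * e₃) ∧
    Dif (4 * k * e₁) (4 * k * e₂) (4 * k * e₃) (2 * u) (C (k : ℚ) * δ) x y z

/-- D_FIN: the final theorem.

Proof.  As `NJ.main_of` (Helper32_NJ/Asm.lean): `NJ.TORStmt`, `NJ.POLStmt`, `NJ.NISStmt` give `Dif .. u δ x y z` with
`x, y` not both constant; BDR: `RatBad`; FRM: `D, w`; LDC: `c, N, ρ, n₀`.  For a prime `r`: the infinitely many `t` of
LDC, without the finitely many zeros of `w`: `(c r δ x)(t) = lam² (c r F A 2)`, .. so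
`Triv (-(C (c r) δ x)(t)) ((C (c r) δ z)(t))`.  TWI, `NJ.FIBStmt` for the twist, `NJ.RK0Stmt`, `NJ.GENStmt`. -/
def MainStmt : Prop := GtStmt → ∀ E : WeierstrassCurve ℚ[X], E.Δ ≠ 0 → Nonisotrivial E →
  FullTwo (gen E) → (∀ A ∈ badPlaces E, RatPl A) →
  ∃ (c : ℤ) (N ρ n₀ : ℕ), c ≠ 0 ∧ 0 < N ∧ ρ.Coprime N ∧ ∀ r : ℕ, r.Prime → n₀ ≤ r →
    r ≡ ρ [MOD N] → rk (gen (twist E (c * r))) = 0 ∧ (nonJumping (twist E (c * r))).Infinite

end

end Pool.Agent.GT.D
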