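import Pool.Agent.GT.DefsF
import Pool.Agent.GT.StmtsD

/-!
# Squad GT (MP_ba5221_nt), block F: all ranks. Statements

All rows are independent: the statements of the rows in `uses` are hypotheses. Complete proofs are in
the docstrings. Notation: `T i = (e i, y)` is the 2-torsion point with the root number `i`; at an affine
point `(2 y + a₁ x + a₃)² = 4 x³ + b₂ x² + 2 b₄ x + b₆ = 4 (x - e 0) (x - e 1) (x - e 2)` (`Roots`).
-/

set_option autoImplicit false

namespace Pool.Agent.GT.F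

open Polynomial Pool.Agent.NJ

noncomputable section

/-! ### Classes of points -/

/-- F_BAS: first properties of the classes.

Proof.  (1) `c = x - e i`, or `(e i - e (i+1)) (e i - e (i+2))`, or `1`.  (2) If `w ≠ 0` and `c w` is a
square, then `d w` is a square iff `c d` is one (`c d w² = (c w) (d w)`).  (3) Infinity: `1`.  If `x ≠ e i` for all
`i`: `∏ (c i (x - e i))` is a square and `∏ (x - e i) = ((2 y + a₁ x + a₃) / 2)²`.  If `x = e i`: the values are
`(e i - e (i+1)) (e i - e (i+2))`, `e i - e (i+1)`, `e i - e (i+2)`, with product a square (three cases for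
`i`).  (4) `-P` has the same `x`. -/
def BasStmt : Prop := ∀ (K : Type) [Field K] [CharZero K] (W : WeierstrassCurve K)
  (e : Fin 3 → K), Roots W (e 0) (e 1) (e 2) → Function.Injective e →
  (∀ (i : Fin 3) (P : W.toAffine.Point), ∃ c : K, c ≠ 0 ∧ Dl W e i c P) ∧
  (∀ (i : Fin 3) (c d : K) (P : W.toAffine.Point), c ≠ 0 → d ≠ 0 → Dl W e i c P →
    (Dl W e i d P ↔ IsSquare (c * d))) ∧
  (∀ (P : W.toAffine.Point) (c : Fin 3 → K), (∀ i, c i ≠ 0 ∧ Dl W e i (c i) P) →
    IsSquare (c 0 * c 1 * c 2)) ∧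
  (∀ (i : Fin 3) (c : K) (P : W.toAffine.Point), Dl W e i c P → Dl W e i c (-P))

/-- F_TOR: the points of order two.

Proof.  `P + P = 0` iff `P = -P` iff `P = 0` or `2 y + a₁ x + a₃ = 0`, iff (`4 ∏ (x - e i) = 0`) `x = e i` for
some `i`.  For `x = e i` there is exactly one `y`, `y = - (a₁ e i + a₃) / 2`, and this point is on the curve;
it is nonsingular since the derivative of `4 ∏ (x - e i)` at `e i` is not zero. -/
def TorStmt : Prop := ∀ (K : Type) [Field K] [CharZero K] [DecidableEq K]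
  (W : WeierstrassCurve K) (e : Fin 3 → K), Roots W (e 0) (e 1) (e 2) → Function.Injective e →
  (∀ P : W.toAffine.Point, P + P = 0 ↔
    P = 0 ∨ ∃ (i : Fin 3) (y : K) (h : W.toAffine.Nonsingular (e i) y), P = .some (e i) y h) ∧
  (∀ i, ∃ y : K, W.toAffine.Nonsingular (e i) y ∧ 2 * y + W.a₁ * e i + W.a₃ = 0 ∧
    ∀ y', W.toAffine.Nonsingular (e i) y' → y' = y) ∧
  Nat.card {P : W.toAffine.Point // P + P = 0} = 4

/-- F_ADD: the class of a sum (STRONG).

Proof.  `P = 0` or `Q = 0`: `Dl` does not change if `c` is multiplied by a square, and the class of `0` is `1`.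
`P + Q = 0`: `P` and `Q` have the same `x`, so the same `w ≠ 0` with `c w`, `d w` squares: `c d` is a square.
Now `P = (x₁, y₁)`, `Q = (x₂, y₂)`, `P + Q = (x₃, y₃)`, `l` the slope; the line `y = L(x) = l (x - x₁) + y₁` meets the
curve in `P, Q, -(P + Q)`: `(x - x₁) (x - x₂) (x - x₃) = x³ + a₂ x² + a₄ x + a₆ - L² - (a₁ x + a₃) L`.  At `x = e i`
(where `4 (x³ + a₂ x² + a₄ x + a₆) = - (a₁ x + a₃)²`):
`4 (e i - x₁) (e i - x₂) (e i - x₃) = - (2 L(e i) + a₁ e i + a₃)²`, so `(x₁ - e i) (x₂ - e i) (x₃ - e i)` is a square.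
If `x₁, x₂, x₃ ≠ e i` this is the claim.  If `x₁ = e i` and `x₂ ≠ e i` (so `P = T i`):
`2 l + a₁ = (2 y₂ + a₁ x₂ + a₃) / (x₂ - e i)`, so `4 x₃ = (2 l + a₁)² - b₂ - 4 x₁ - 4 x₂` gives
`(x₃ - e i) (x₂ - e i) = (e i - e (i+1)) (e i - e (i+2))`: the claim (`x₃ ≠ e i`).  The same if `x₂ = e i`, `x₁ ≠ e i`.
`x₁ = x₂ = e i` is impossible (then `Q = P = - P`).  If `x₃ = e i`, `x₁, x₂ ≠ e i`: `P = T i + (- Q)`
(`P + Q = T i`), so `(x₁ - e i) (x₂ - e i) = (e i - e (i+1)) (e i - e (i+2))` by the case before. -/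
def AddStmt : Prop := ∀ (K : Type) [Field K] [CharZero K] [DecidableEq K]
  (W : WeierstrassCurve K) (e : Fin 3 → K), Roots W (e 0) (e 1) (e 2) → Function.Injective e →
  ∀ (i : Fin 3) (c d : K) (P Q : W.toAffine.Point), c ≠ 0 → d ≠ 0 → Dl W e i c P →
    Dl W e i d Q → Dl W e i (c * d) (P + Q)

/-- F_KER: points with trivial classes are doubles (STRONG).

Proof.  `P = 0 = 0 + 0`.  `P = (x₀, y₀)`: `x₀ - e i = r i ^ 2` for all `i` (also if `x₀ = e i`, with `r i = 0`; then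
for `j ≠ i` it is `Dl` at `j`).  `η = (2 y₀ + a₁ x₀ + a₃) / 2`, `η² = (r 0 r 1 r 2)²`; changing the sign of `r 0` we may
assume `η = - r 0 r 1 r 2` (or `+`, see below).  `s₁ = r 0 + r 1 + r 2`, `s₂ = r 0 r 1 + r 0 r 2 + r 1 r 2`,
`x = x₀ + s₂`, `x - e i = (r i + r (i+1)) (r i + r (i+2))` (from `x₀ = e i + r i²`); `r i + r j ≠ 0` for `i ≠ j`, since
`r j² - r i² = e i - e j ≠ 0`.  `Y = ε (r 0 + r 1) (r 0 + r 2) (r 1 + r 2)`, `ε = ± 1`, `2 y + a₁ x + a₃ = 2 Y`: this is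
a point `Q`.  `Q ≠ -Q`.  The tangent slope `l` at `Q`: `2 l + a₁ = (derivative of 4 ∏ (x - e i)) / (2 · 2 Y)`, which is
`4 (∑ (x - e i) (x - e j)) / (4 Y) = 2 ε s₁` (because `(x - e 0) (x - e 1) = (r 0 + r 1)² (r 0 + r 2) (r 1 + r 2)`, ..).
So `4 x(2 Q) = (2 l + a₁)² - b₂ - 8 x = 4 s₁² + 4 (e 0 + e 1 + e 2) - 8 x = 4 x₀` (as `∑ r i² = 3 x₀ - ∑ e i`,
`s₁² = ∑ r i² + 2 s₂`).  The value of `2 y + a₁ x + a₃` at `2 Q` is
`- (2 (l (x₀ - x) + y) + a₁ x₀ + a₃) = - ((2 l + a₁) (x₀ - x) + 2 Y) = 2 ε (s₁ s₂ - (r 0 + r 1) (r 0 + r 2) (r 1 + r 2))`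
`= 2 ε r 0 r 1 r 2`.  So with `η = ε r 0 r 1 r 2` (choose `ε`; no sign change of `r 0` is necessary) `2 Q = P`. -/
def KerStmt : Prop := ∀ (K : Type) [Field K] [CharZero K] [DecidableEq K]
  (W : WeierstrassCurve K) (e : Fin 3 → K), Roots W (e 0) (e 1) (e 2) → Function.Injective e →
  ∀ P : W.toAffine.Point, (∀ i, Dl W e i 1 P) → ∃ Q, P = Q + Q

/-- F_SLB: the Selmer group bounds `W(ℚ) / 2`.

Proof.  Each `P` has a triple `d(P)` of squarefree integers with `Dl W e i (d i) P` (BAS; each nonzero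
rational number is a squarefree integer times a square).  It is in `Sel W e`: product (BAS (3)), local points:
the image of `P` (`WeierstrassCurve.Affine.Point.map` or directly; `Dl` is preserved by `ℚ → L`).
If `d(P) = d(Q)` then the classes of `P + (-Q)` are `(d i)²`, so (BAS (2), ADD) `1`, and `P - Q = 2 R` (KER).  So
`d` is injective on a finite set of pairwise incongruent points. -/
def SlbStmt : Prop := ∀ [DecidableEq ℚ] (W : WeierstrassCurve ℚ) (e : Fin 3 → ℚ),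
  Roots W (e 0) (e 1) (e 2) → Function.Injective e →
  ∀ N : ℕ, (Sel W e).encard ≤ N → Ix W.toAffine.Point N

/-! ### Heights -/

/-- F_PAR: the approximate parallelogram law, algebraic part.

Proof.  Cases `P = 0`, `Q = 0`, `P = Q`, `P = -Q` and the generic case: formulas. -/
def ParStmt : Prop := ∀ (K : Type) [Field K] [DecidableEq K] (W : WeierstrassCurve K),
  W.Δ ≠ 0 → ∀ P Q : W.toAffine.Point, ∃ c : K, c ≠ 0 ∧ ∀ i : Fin 3,
    (W.addSubMap i).eval (P.sym2x Q) = c * (P + Q).sym2x (P - Q) i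

/-- F_HGT: the height on `W(ℚ)`.

Proof.  (1) `WeierstrassCurve.abs_logHeight_addSubMap_sub_two_mul_logHeight_le` (`W.IsElliptic` from `Δ ≠ 0`), PAR,
invariance of `logHeight` under multiplication with `c ≠ 0`, and `Height.abs_logHeight_sym2_sub_le` for the
vector `sym2x P Q` (compare with `logHeight P.xRep + logHeight Q.xRep`).  (2) `logHeight` is `≥ 0`.
(3) `Northcott (logHeight₁ (K := ℚ))`: finitely many `x`, and `xRep_eq_xRep_iff`. -/
def HgtStmt : Prop := ∀ [DecidableEq ℚ] (W : WeierstrassCurve ℚ), W.Δ ≠ 0 →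
  (∃ C : ℝ, ∀ P Q : W.toAffine.Point, |ht (P + Q) + ht (P - Q) - 2 * (ht P + ht Q)| ≤ C) ∧
  (∀ P : W.toAffine.Point, 0 ≤ ht P) ∧ ∀ B : ℝ, {P : W.toAffine.Point | ht P ≤ B}.Finite

/-- F_FG: Mordell-Weil from the finiteness of `W(ℚ) / 2`.

Proof.  HGT and `AddCommGroup.fg_of_descent'`; `Ix` gives `FiniteIndex` of the range of
`nsmulAddMonoidHom 2`: the quotient is finite since each finite subset has at most `N` elements
(representatives). -/
def FgStmt : Prop := ∀ [DecidableEq ℚ] (W : WeierstrassCurve ℚ), W.Δ ≠ 0 →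
  ∀ N : ℕ, Ix W.toAffine.Point N → AddGroup.FG W.toAffine.Point

/-- F_RNK: the rank of a finitely generated group.

Proof.  `A` is isomorphic to `ℤ^r × F`, `F` finite (structure theorem: `Module.Finite ℤ A`, or
`AddCommGroup.equiv_free_prod_directSum_zmod`).  `F` has 4 elements with `2 a = 0`, so `F / 2 F` has 4 elements,
and `A / 2 A` has `2^r · 4`; representatives: `2^r · 4 ≤ 4 · 2^R`.  `Module.rank ℤ A = r`. -/
def RnkStmt : Prop := ∀ (A : Type) [AddCommGroup A], AddGroup.FG A →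
  Nat.card {a : A // a + a = 0} = 4 → ∀ R : ℕ, Ix A (4 * 2 ^ R) → Module.rank ℤ A ≤ R

/-! ### Specialization -/

/-- F_EVL: values of rational functions.

Proof.  `ev t f = RatFunc.eval (RingHom.id ℚ) t f`; `RatFunc.eval_add`, `RatFunc.eval_mul`, ..; the denominator of
`f + g` and of `f g` divides the product of the denominators; if `ev t f ≠ 0` then `f.num` does not vanish at
`t`, and the denominator of `f⁻¹` is `f.num` up to a constant.  (6): the denominator and the numerator have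
finitely many zeros. -/
def EvlStmt : Prop :=
  (∀ (t : ℚ) (f g : RatFunc ℚ), f.denom.eval t ≠ 0 → g.denom.eval t ≠ 0 →
    (f + g).denom.eval t ≠ 0 ∧ ev t (f + g) = ev t f + ev t g ∧
    (f - g).denom.eval t ≠ 0 ∧ ev t (f - g) = ev t f - ev t g ∧
    (f * g).denom.eval t ≠ 0 ∧ ev t (f * g) = ev t f * ev t g) ∧
  (∀ (t : ℚ) (p : ℚ[X]), (algebraMap ℚ[X] (RatFunc ℚ) p).denom.eval t ≠ 0 ∧
    ev t (algebraMap ℚ[X] (RatFunc ℚ) p) = p.eval t) ∧
  (∀ (t : ℚ) (f : RatFunc ℚ), f.denom.eval t ≠ 0 → ev t f ≠ 0 →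
    (f⁻¹).denom.eval t ≠ 0 ∧ ev t f⁻¹ = (ev t f)⁻¹) ∧
  (∀ f : RatFunc ℚ, ∃ Z : Finset ℚ, ∀ t ∉ Z, f.denom.eval t ≠ 0 ∧ (f ≠ 0 → ev t f ≠ 0))

/-- F_ROO: the roots of the fibres.

Proof.  EVL: `E.Δ`, the denominators of the `e i`, and the differences `e i - e j` (not zero) for the last
statement.  `b₂(fib) = b₂(E)(t)`, ... (`WeierstrassCurve.map_b₂`), and `Roots (gen E)` is evaluated at `t`. -/
def RooStmt : Prop := ∀ (E : WeierstrassCurve ℚ[X]) (e : Fin 3 → RatFunc ℚ), E.Δ ≠ 0 →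
  Roots (gen E) (e 0) (e 1) (e 2) → Function.Injective e →
  ∃ Z : Finset ℚ, ∀ t ∉ Z, (fib E t).Δ ≠ 0 ∧ (∀ i, (e i).denom.eval t ≠ 0) ∧
    Roots (fib E t) (ev t (e 0)) (ev t (e 1)) (ev t (e 2)) ∧
    Function.Injective (fun i => ev t (e i))

/-- F_SP: the specialization homomorphism (STRONG).

Proof.  Let `O` be the ring of the functions without a pole at `t`.  If `x ∈ O` then `y ∈ O` (`y` is integral
over `O`), and the value of `(x, y)` is a point of `fib E t` (nonsingular since `Δ ≠ 0`).  `sp` as in `IsSp`;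
`Ker` = the points with a pole of `x` (then `v(x) = -2 m`, `v(y) = -3 m`), and `0`.  `sp (-P) = - sp P`.
(1) `P, Q` not in `Ker`, `x₁(t) ≠ x₂(t)`: the formulas.  (2) `P(t) = Q(t) ≠ -Q(t)`: the slope is
`(x₁² + x₁ x₂ + x₂² + a₂ (x₁ + x₂) + a₄ - a₁ y₁) / (y₁ + y₂ + a₁ x₂ + a₃)` (also if `x₁ ≠ x₂`), the denominator is not
zero at `t`.  (3) `P(t) = -Q(t)`, `P ≠ -Q`: the slope has a pole: either the numerator `N` of (2) is not zero at
`t` (the denominator is zero at `t`), or it is zero, then the value of `y₁ - y₂` at `t` is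
`2 y₁ + a₁ x₁ + a₃ ≠ 0` (nonsingular) and that of `x₁ - x₂` is `0`.  So `P + Q ∈ Ker`.  (4) `Ker` is closed under
addition: PAR, `addSubMap` at `(1, 0, 0)` is `(1, 0, 0)`, so `1 / x(P+Q)` and `1 / x(P-Q)` have sum and product with
value `0` at `t`.  (5) `P ∉ Ker`, `Q ∈ Ker`, `S = P + Q`: `S ∉ Ker` by (4) (else `P = S - Q ∈ Ker`); apply (1), (2),
(3) to `S` and `-P`: the sum `Q` is in `Ker`, so `S(t) = P(t)`. -/
def SpStmt : Prop := ∀ [DecidableEq ℚ] [DecidableEq (RatFunc ℚ)] (E : WeierstrassCurve ℚ[X])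
  (t : ℚ), (fib E t).Δ ≠ 0 →
  ∃ sp : (gen E).toAffine.Point →+ (fib E t).toAffine.Point, IsSp E t sp

/-- F_DEG: the degree of the double.

Proof.  `x = p / q` in lowest terms, `D = max (deg p) (deg q)`.  By PAR with `P = Q` (`sym2x P P = (x², 2 x, 1)`)
the vector `(F, G, 0)`, `F = p⁴ - b₄ p² q² - 2 b₆ p q³ - b₈ q⁴`, `G = 4 p³ q + b₂ p² q² + 2 b₄ p q³ + b₆ q⁴`
(`b = b(E) ∈ ℚ[T]`), is proportional to `(x(2P), 1, 0)`, or `2 P = 0` and `G = 0`.  Identities
`A₁ F + B₁ G = Δ p⁸`, `A₂ F + B₂ G = Δ q⁸` (`addSubMapCoeff` at `(p², 2 p q, q²)`), `A, B` homogeneous of degree 4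
in `p, q`.  So `max (deg F) (deg G) ≥ 4 D - c`, and `gcd (F, G)` divides `Δ`.  If `G = 0`: `A₁ F = Δ p⁸`,
`A₂ F = Δ q⁸`, so `F` divides `Δ` and `D` is bounded (`dP 0 = 0`). -/
def DegStmt : Prop := ∀ [DecidableEq (RatFunc ℚ)] (E : WeierstrassCurve ℚ[X]), E.Δ ≠ 0 →
  ∃ C : ℕ, ∀ P : (gen E).toAffine.Point, 4 * dP P ≤ dP (P + P) + C

/-- F_DIV: infinitely 2-divisible points are torsion points.

Proof.  `dP (P k)` is bounded by some `D` (DEG).  Choose `2 D + 1` rational numbers `t` with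
`(fib E t).Δ ≠ 0`.  For each of them `ht (sp (P k))` is bounded (`4 ht (Q) ≤ ht (2 Q) + C'`, HGT with `P = Q`), so
`sp (P k)` takes finitely many values.  So there are `j < k` with `sp (P j) = sp (P k)` at all these `t`.  If
`x(P j) = p / q`, `x(P k) = p' / q'` (`1 / 0` for infinity), then `p q' - p' q` has degree `≤ 2 D` and `2 D + 1`
zeros, so it is `0` and `P j = ± P k`.  As `P j = 2^(k-j) P k`, `(2^(k-j) ∓ 1) P k = 0`, and `P 0 = 2^k P k`. -/
def DivStmt : Prop := ∀ [DecidableEq (RatFunc ℚ)] (E : WeierstrassCurve ℚ[X]), E.Δ ≠ 0 →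
  ∀ P : ℕ → (gen E).toAffine.Point, (∀ k, P k = P (k + 1) + P (k + 1)) →
    ∃ n : ℕ, 0 < n ∧ n • P 0 = 0

/-- F_ALG: comparison of ranks.

Proof.  Let `N` be the kernel.  For `a ∈ N`: `f a = 0 + 0`, so `a = m + m`, `f m + f m = 0`, `f m = f s` with
`s + s = 0`, so `a = (m - s) + (m - s)`, `m - s ∈ N`.  So each element of `N` starts a chain, and is a torsion
element.  If `v` is a linearly independent family of `A` then `f ∘ v` is linearly independent:
`∑ a_i f (v_i) = 0` gives `n ∑ a_i v_i = 0`. -/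
def AlgStmt : Prop := ∀ (A B : Type) [AddCommGroup A] [AddCommGroup B] (f : A →+ B),
  (∀ a, (∃ b, f a = b + b) → ∃ a', a = a' + a') →
  (∀ b, b + b = 0 → ∃ a, a + a = 0 ∧ f a = b) →
  (∀ P : ℕ → A, (∀ k, P k = P (k + 1) + P (k + 1)) → ∃ n : ℕ, 0 < n ∧ n • P 0 = 0) →
  Module.rank ℤ A ≤ Module.rank ℤ B

/-! ### The classes over `ℚ(T)` -/

/-- F_CLS: the classes of the points over `ℚ(T)` (STRONG).

Proof.  `f = (x(P) - e i) / u²` (or `(e i - e (i+1)) (e i - e (i+2)) / u⁴`, or `1`).  For `t ∈ ℂ` let `v` be the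
multiplicity of `t` in the numerator minus that in the denominator (extended to `ℂ`).  If `t` is not one of the
bad places (`t = c`, `c ∈ B`) then `v(δ)` is even and `v(x) = v(y) = v(z) = 0`, so `v((e i - e j) / u²) = 2 m` for all
`i ≠ j`.  Then `v(f)` is even: this is clear if `x(P) = e j` for some `j`.  Otherwise let `w j` be
`v((x(P) - e j) / u²)`; `w 0 + w 1 + w 2` is even (the product is a square).  If `w i < 2 m`, then
`w j = w i` for all `j`, so `3 w i` is even; if `w i > 2 m`, then `w j = 2 m` for `j ≠ i`, so `w i` is even.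
So the polynomial `q = f.num * f.denom` has odd multiplicity only at the bad places, and `D.SqpStmt` gives
`q = k s² ∏_(c ∈ R) (X - c)`; the elements of `R` have odd multiplicity in `q`, so `R ⊆ B`.
(For valuations at `t ∈ ℂ`: `rootMultiplicity` of the polynomials mapped to `ℂ[X]`; a sum of two functions of
different valuations has the smaller one.) -/
def ClsStmt : Prop := ∀ (E : WeierstrassCurve ℚ[X]) (e : Fin 3 → RatFunc ℚ) (u : RatFunc ℚ)
  (δ x y z : ℚ[X]) (B : Finset ℚ), E.Δ ≠ 0 → Roots (gen E) (e 0) (e 1) (e 2) →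
  Dif (e 0) (e 1) (e 2) u δ x y z → D.RatBad δ x y z →
  (∀ c : ℚ, c ∈ B ↔ ((x * y * z).eval c = 0 ∨ Odd (δ.rootMultiplicity c))) →
  ∀ (i : Fin 3) (P : (gen E).toAffine.Point), ∃ (k : ℚ) (R : Finset ℚ), k ≠ 0 ∧ R ⊆ B ∧
    Dl (gen E) e i (algebraMap ℚ[X] (RatFunc ℚ) (C k * ∏ c ∈ R, (X - C c))) P

/-- F_NSQ: a point which is not a double stays not a double.

Proof.  By KER there is `i` such that not `Dl (gen E) e i 1 P`.  CLS: `f = k ∏_(c ∈ R) (T - c)` with `Dl .. i f P`, and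
`f` is not a square (BAS (2)).  `n` = larger than all the primes of the numerator and denominator of `k`.
`Z` = the exceptional sets of ROO and of EVL for the following functions: `x(P)`, `x(P) - e i` (if not zero), and the
square root `g` of `f (x(P) - e i)` or of `f (e i - e (i+1)) (e i - e (i+2))`; `P ≠ 0` since `0 = 0 + 0`.  For
`t ∉ Z`: `Dl (fib E t) (e at t) i (f(t)) (sp P)`, `f(t) = k ∏ (t - c) ≠ 0` (`Z ⊇ B`).  If `sp P = Q + Q`, then
`f(t)` is a square (ADD with a class of `Q`, BAS (2)).  If `R` has an element `c`: by `Sep` the `p`-adic valuation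
of `f(t)` is that of `t - c`, odd.  If `R = ∅`: `k` is a square in `ℚ`, so `f` is a square. -/
def NsqStmt : Prop := ∀ [DecidableEq ℚ] [DecidableEq (RatFunc ℚ)] (E : WeierstrassCurve ℚ[X])
  (e : Fin 3 → RatFunc ℚ) (u : RatFunc ℚ) (δ x y z : ℚ[X]) (B : Finset ℚ), E.Δ ≠ 0 →
  Roots (gen E) (e 0) (e 1) (e 2) → Dif (e 0) (e 1) (e 2) u δ x y z → D.RatBad δ x y z →
  (∀ c : ℚ, c ∈ B ↔ ((x * y * z).eval c = 0 ∨ Odd (δ.rootMultiplicity c))) →
  ∀ P : (gen E).toAffine.Point, (¬ ∃ Q, P = Q + Q) → ∃ (n : ℕ) (Z : Finset ℚ),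
    ∀ t : ℚ, t ∉ Z → Sep B t n → ∀ sp : (gen E).toAffine.Point →+ (fib E t).toAffine.Point,
      IsSp E t sp → ¬ ∃ Q, sp P = Q + Q

/-- F_TOP: the rank of the generic fibre and of infinitely many fibres (STRONG).

Proof.  Write `A` for the points of `gen E`, `T n` for the infinite sets; `sp` from SP.  The `e i` are pairwise
different (`Dif`).  For `t ∈ T n`, `t ∉ Z` (ROO): `Ix (fib E t) (4 · 2^R)` (SLB).
(a) `Ix A (4 · 2^R)`: let `S` be pairwise incongruent modulo `2 A`.  For `a ≠ b` in `S`, `a - b` is not a double: NSQ.  For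
`t ∈ T n`, `n` large, outside of a finite set: `sp a` and `sp b` are incongruent (`sp a = sp b + 2 c` gives
`sp (a - b) = c + c`), so `S` has at most `4 · 2^R` elements.
(b) Let `S` be such a set with the maximal number of elements; each `P ∈ A` is congruent to an element of `S`.
For `t ∈ T n`, `n` large, outside of a finite set (NSQ for the `s ∈ S` which are not doubles): if
`sp P = Q + Q` then `P` is a double.
(c) If `b + b = 0` in the fibre then `b = 0` or `b = (e i (t), y)` (TOR), which is the image of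
`(e i, y')` (TOR for `gen E`).
(d) ALG with DIV: `rk (gen E) ≤ rk (fib E t)`; FG, TOR, RNK: `rk (fib E t) ≤ R`.
(`rk` uses the classical instance of `DecidableEq`: instantiate the rows with it.) -/
def TopStmt : Prop := ∀ (E : WeierstrassCurve ℚ[X])
  (e : Fin 3 → RatFunc ℚ) (u : RatFunc ℚ) (δ x y z : ℚ[X]) (B : Finset ℚ), E.Δ ≠ 0 →
  Roots (gen E) (e 0) (e 1) (e 2) → Dif (e 0) (e 1) (e 2) u δ x y z → D.RatBad δ x y z →
  (∀ c : ℚ, c ∈ B ↔ ((x * y * z).eval c = 0 ∨ Odd (δ.rootMultiplicity c))) →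
  ∀ R : ℕ, (∀ n : ℕ, {t : ℚ | (fib E t).Δ ≠ 0 ∧
      (Sel (fib E t) (fun i => ev t (e i))).encard ≤ (4 * 2 ^ R : ℕ) ∧ Sep B t n}.Infinite) →
    (R : Cardinal) ≤ rk (gen E) → rk (gen E) = R ∧ (nonJumping E).Infinite

end

end Pool.Agent.GT.F
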