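import Pool.Agent.Helper77_GT.A_MON
import Pool.Agent.Helper8_GT.MDH
import Pool.Agent.Helper8_GT.SAM
import Pool.Agent.Helper79_GT.A_FND
import Pool.Agent.Helper95_GT.PRT
import Pool.Agent.Helper47_GT.A_PAR
import Pool.Agent.Helper17_GT.A_GRA
import Pool.Agent.Helper62_GT.A_GRB
import Pool.Agent.Helper65_GT.A_GRL
import Pool.Agent.Helper7_GT.A_PRB
import Pool.Agent.Helper94_GT.A_COR
import Pool.Agent.Helper94_GT.A_CRT
import Pool.Agent.Helper47_GT.A_DHA
import Pool.Agent.Helper87_GT.A_SZE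
import Pool.Agent.Helper77_GT.B_CSW
import Pool.Agent.Helper10_GT.B_STP
import Pool.Agent.Helper56_GT.B_EXP
import Pool.Agent.Helper45_GT.B_SLF
import Pool.Agent.Helper9_GT.B_CUT
import Pool.Agent.Helper20_GT.B_DEN
import Pool.Agent.Helper13_GT.B_NUP
import Pool.Agent.Helper89_GT.B_ONE
import Pool.Agent.Helper90_GT.B_CAP
import Pool.Agent.Helper86_GT.B_CNS
import Pool.Agent.Helper89_GT.B_CNT
import Pool.Agent.Helper91_GT.B_PSA
import Pool.Agent.Helper15_GT.B_PSC
import Pool.Agent.Helper91_GT.B_PSD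
import Pool.Agent.Helper41_GT.SEP
import Pool.Agent.Helper92_GT.B_POL
import Pool.Agent.Helper3_GT.B_HUL
import Pool.Agent.Helper13_GT.B_DMA
import Pool.Agent.Helper67_GT.B_GNA
import Pool.Agent.Helper62_GT.B_GNB
import Pool.Agent.Helper41_GT.DMT
import Pool.Agent.Helper41_GT.REL

/-!
# Squad GT: the density Hales-Jewett theorem, Szemerédi's theorem and the relative Szemerédi theorem

Assembly of the blocks A and B, no hypotheses left.
-/

namespace Pool.Agent.GT

/-- the density Hales-Jewett theorem -/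
theorem dha : DhaStmt :=
  H47.a_dha H8.mdh (H79.fnd H8.sam) H95.prt H47.a_par
    (H94.crt H77.a_mon H7.a_prb (H65.a_grl H17.a_gra H62.a_grb) H94.cor)

/-- Szemerédi's theorem -/
theorem sze : SzeStmt := H87.a_sze dha

theorem slf_ : SlfStmt := H45.b_slf (H10.b_stp H77.b_csw) H56.exp_

theorem cnt_ : CntStmt :=
  H89.cnt H20.den (H86.b_cns (H89.one slf_) (H90.b_cap H13.b_nup))

theorem dmt_ : DmtStmt := H41.dmt (H13.b_dma H41.sep H92.b_pol H3.b_hul) H67.gna H62.b_gnb

/-- the relative Szemerédi theorem of Conlon, Fox and Zhao -/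
theorem rel_ : RelStmt :=
  H41.rel (H9.b_cut slf_) cnt_ H91.psa H15.psc H91.psd H67.gna dmt_ sze

end Pool.Agent.GT
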