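import Pool.Agent.GT.StmtsC
import Pool.Agent.Helper96_GT.C_LVC
import Pool.Agent.Helper77_GT.C_LAM
import Pool.Agent.Helper41_GT.QQB
import Pool.Agent.Helper25_GT.C_SSB
import Pool.Agent.Helper30_GT.C_GLB
import Pool.Agent.Helper95_GT.TDS
import Pool.Agent.Helper87_GT.C_BET
import Pool.Agent.Helper80_GT.C_EXA
import Pool.Agent.Helper20_GT.C_EXB
import Pool.Agent.Helper24_GT.C_EXC
import Pool.Agent.Helper10_GT.C_BRB
import Pool.Agent.Helper2_GT.C_LOC
import Pool.Agent.Helper30_GT.C_AVD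
import Pool.Agent.Helper1_GT.TRA
import Pool.Agent.Helper90_GT.C_BAD
import Pool.Agent.Helper41_GT.LFG
import Pool.Agent.Helper65_GT.C_SYS
import Pool.Agent.Helper21_GT.PriLemma
import Pool.Agent.Helper1_GT.PIG
import Pool.Agent.Helper41_GT.WIN
import Pool.Agent.Helper1_GT.MAJ

/-!
# Squad GT: the majorant (assembly of block C)
-/

namespace Pool.Agent.GT

theorem ssb_of (qqq : QqqStmt) : SsbStmt :=
  H25.c_ssb H41.c_sst (H41.c_qqb qqq H96.c_lvc) H96.c_lvc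

theorem exc_of (qqq : QqqStmt) : ExcStmt :=
  H24.c_exc H87.c_bet H80.c_exa (H20.exb (ssb_of qqq) H96.c_lvc)

theorem lfg_of (qqq : QqqStmt) (crm : CrmStmt) : LfgStmt :=
  H41.c_lfg H77.c_lam (exc_of qqq) H2.c_loc (H30.c_avd crm) H1.c_tra
    (H10.c_brb H77.c_lam H96.c_lvc) H90.c_bad

theorem pri_ : PriStmt := H21.pri_

theorem maj_of (qqq : QqqStmt) (crm : CrmStmt) : MajStmt :=
  H1.c_maj H96.c_lvc H30.c_glb H95.tds H41.c_eps (lfg_of qqq crm) H65.c_sys
    (H1.c_pig pri_) H41.c_win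

end Pool.Agent.GT
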