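import Pool.Agent.GT.StmtsD
import Pool.Agent.Helper32_NJ.Hlv
import Pool.Agent.Helper32_NJ.Pts
import Pool.Agent.Helper37_NJ.Gdr
import Pool.Agent.Helper36_NJ.Plc
import Pool.Agent.Helper56_NJ.Crit
import Pool.Agent.Helper56_NJ.Two
import Pool.Agent.Helper94_NJ.Trn
import Pool.Agent.Helper77_GT.D_ADD
import Pool.Agent.Helper86_GT.D_EXP
import Pool.Agent.Helper86_GT.D_CRT
import Pool.Agent.Helper72_GT.D_SQR
import Pool.Agent.Helper41_GT.DGT
import Pool.Agent.Helper18_GT.D_MLO
import Pool.Agent.Helper24_GT.D_MLE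
import Pool.Agent.Helper38_GT.D_STR
import Pool.Agent.Helper38_GT.D_SYP
import Pool.Agent.Helper3_GT.D_TWO
import Pool.Agent.Helper80_GT.D_REA
import Pool.Agent.Helper87_GT.D_DFF
import Pool.Agent.Helper81_GT.D_LOC
import Pool.Agent.Helper84_GT.D_NWP
import Pool.Agent.Helper20_GT.D_COR
import Pool.Agent.Helper1_GT.SEL
import Pool.Agent.Helper1_GT.BAS
import Pool.Agent.Helper1_GT.FRM
import Pool.Agent.Helper76_GT.D_DIA
import Pool.Agent.Helper34_GT.D_VAL
import Pool.Agent.Helper34_GT.D_FEX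
import Pool.Agent.Helper34_GT.D_CHO
import Pool.Agent.Helper34_GT.D_FIN
import Pool.Agent.Helper92_GT.D_RCP
import Pool.Agent.Helper67_GT.D_PRI
import Pool.Agent.Helper90_GT.D_APP
import Pool.Agent.Helper15_GT.D_LDC
import Pool.Agent.Helper55_GT.D_INF
import Pool.Agent.Helper91_GT.D_SPL
import Pool.Agent.Helper65_GT.D_SQP

/-!
# Squad GT (MP_ba5221_nt), block D: all rows together
-/

set_option autoImplicit false

namespace Pool.Agent.GT.D

open Pool.Agent.NJ

/-- twists of curves with full rational 2-torsion and rational bad places -/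
theorem main_all : D.MainStmt := by
  have val : ValStmt := H34.d_val
  have add : AddStmt := H77.d_add
  have exp : ExpStmt := H86.d_exp
  have sqr : SqrStmt := H72.d_sqr
  have goo : GooStmt := H41.d_goo
  have mlo : MloStmt := H18.d_mlo add val
  have mle : MleStmt := GT.H24.d_mle add val
  have str : StrStmt := H38.d_str add val
  have two : D.TwoStmt := H3.d_two
  have rea : ReaStmt := H80.d_rea
  have dff : ∀ (ι : Type) [Fintype ι] [DecidableEq ι], DffStmt ι :=
    fun ι _ _ => H87.d_dff ι add val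
  have loc : ∀ (ι : Type) [Fintype ι] [DecidableEq ι], LocStmt ι :=
    H81.d_loc goo mlo mle rea dff add val
  have fex : ∀ (ι : Type) [Fintype ι] [DecidableEq ι], FexStmt ι :=
    fun ι _ _ => H34.d_fex ι exp (loc ι)
  have syp : ∀ (ι : Type) [Fintype ι] [DecidableEq ι], SypStmt ι :=
    fun ι _ _ => H38.d_syp ι (fex ι) (loc ι) two (dff ι) add val
  have nwp : ∀ (ι : Type) [Fintype ι] [DecidableEq ι], NwpStmt ι :=
    fun ι _ _ => H84.d_nwp ι (syp ι) str mlo mle goo (dff ι) add val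
  have cor : ∀ (ι : Type) [Fintype ι] [DecidableEq ι], CorStmt ι :=
    fun ι _ _ => H20.cor ι (syp ι) (nwp ι) (loc ι) sqr
  have trn : TRNStmt := NJ.H94.trn NJ.H32.pts
  have crit : CRITStmt := NJ.H56.crit NJ.H32.pts NJ.H32.hlv NJ.H56.two
  have sel : ∀ (ι : Type) [Fintype ι] [DecidableEq ι], SelStmt ι :=
    fun ι _ _ => H1.d_sel ι (cor ι) (dff ι) crit trn
  have crt : CrtStmt := H86.d_crt val
  have cho : ChoStmt := H34.d_cho H76.d_dia crt add val
  have pri : PriStmt := H67.pri (H92.d_rcp add val) add val exp crt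
  have ldc : LdcStmt := H15.d_ldc H1.d_bas H90A.app H55.d_inf cho pri sel
  have frm : FrmStmt := H1.d_frm H91.spl H65.d_sqp
  exact H34.d_fin (H41.d_bdr NJ.H37.gdr NJ.H36.plc) frm ldc H41.d_twi

end Pool.Agent.GT.D
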