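import Pool.Agent.GT.StmtsE
import Pool.Agent.Helper32_NJ.All
import Pool.Agent.Helper77_GT.D_ADD
import Pool.Agent.Helper86_GT.D_EXP
import Pool.Agent.Helper41_GT.DGT
import Pool.Agent.Helper18_GT.D_MLO
import Pool.Agent.Helper24_GT.D_MLE
import Pool.Agent.Helper38_GT.D_STR
import Pool.Agent.Helper34_GT.D_VAL
import Pool.Agent.Helper92_GT.D_RCP
import Pool.Agent.Helper90_GT.D_APP
import Pool.Agent.Helper55_GT.D_INF
import Pool.Agent.Helper91_GT.D_SPL
import Pool.Agent.Helper65_GT.D_SQP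
import Pool.Agent.Helper52_GT.E_SQA
import Pool.Agent.Helper18_GT.E_FFD
import Pool.Agent.Helper79_GT.E_GDP
import Pool.Agent.Helper87_GT.E_STB
import Pool.Agent.Helper9_GT.E_REL
import Pool.Agent.Helper32_GT.E_DVL
import Pool.Agent.Helper63_GT.E_CLX
import Pool.Agent.Helper74_GT.E_TRL
import Pool.Agent.Helper96_GT.E_NRZ
import Pool.Agent.Helper51_GT.E_NPE
import Pool.Agent.Helper83_GT.E_SLC
import Pool.Agent.Helper46_GT.E_INJ
import Pool.Agent.Helper34_GT.E_PRE
import Pool.Agent.Helper62_GT.E_LDE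
import Pool.Agent.Helper24_GT.E_IDN
import Pool.Agent.Helper32_GT.E_DUP
import Pool.Agent.Helper13_GT.E_TRT
import Pool.Agent.Helper76_GT.E_HLF
import Pool.Agent.Helper85_GT.E_GRP
import Pool.Agent.Helper38_GT.E_HTA
import Pool.Agent.Helper39_GT.E_HGT
import Pool.Agent.Helper38_GT.E_EON
import Pool.Agent.Helper29_GT.TBD
import Pool.Agent.Helper29_GT.EVH
import Pool.Agent.Helper31_GT.E_RKN
import Pool.Agent.Helper84_GT.E_PLR
import Pool.Agent.Helper42_GT.E_FRZ
import Pool.Agent.Helper94_GT.E_FRX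
import Pool.Agent.Helper42_GT.E_TWF
import Pool.Agent.Helper42_GT.E_SLT
import Pool.Agent.Helper94_GT.E_FIN
/-!
# Squad GT (MP_ba5221_nt), block E: all rows together
-/

set_option autoImplicit false

namespace Pool.Agent.GT.OF

open Pool.Agent.NJ Pool.Agent.GT.D

/-- one fibre decides -/
theorem main_all : OF.MainStmt := by
  have val : ValStmt := D.H34.d_val
  have add : AddStmt := D.H77.d_add
  have exp : ExpStmt := D.H86.d_exp
  have goo : GooStmt := D.H41.d_goo
  have mlo : MloStmt := D.H18.d_mlo add val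
  have mle : MleStmt := GT.H24.d_mle add val
  have str : StrStmt := D.H38.d_str add val
  have rcp : RcpStmt := D.H92.d_rcp add val
  have sqa : SqaStmt := H52.e_sqa
  have gdp : GdpStmt := H79.e_gdp sqa H18.ffd add val
  have dvl : DvlStmt := H32.e_dvl add val exp rcp
  have clx : ClxStmt := H63.e_clx dvl add val exp rcp goo
  have npe : NpeStmt := H51.e_npe clx dvl add val str mlo mle goo
  have nrz : NrzStmt := H96.e_nrz H74.e_trl dvl add val
  have slc : SlcStmt := H83.e_slc sqa gdp H87.e_stb H9.e_rel dvl npe goo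
  have inj : InjStmt := H46.e_inj nrz slc add
  have pre : PreStmt := H34.e_pre rcp add val exp
  have lde : LdeStmt := H62.e_lde inj pre dvl D.H90A.app D.H55.d_inf
  have dup : DupStmt := H32.e_dup
  have grp : GrpStmt := H85.e_grp dup H13.e_trt (H76.e_hlf dup)
  have hgt : HgtStmt := H39.e_hgt H38.e_hta dup H13.e_trt
  have eon : EonStmt := H38.e_eon H24.e_idn dup
  have tbd : TbdStmt := H29.tbd eon H24.e_idn dup
  have plr : PlrStmt := H84.e_plr NJ.H27.tor
  have frz : FrzStmt := H42.e_frz D.H91.spl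
  have frx : FrxStmt := H94.e_frx plr frz (D.H41.d_bdr NJ.H37.gdr NJ.H36.plc) D.H65.d_sqp
    NJ.H36.pol NJ.H24.nis
  exact H94.e_fin frx lde H42.e_twf H42.e_slt grp hgt tbd H29.evh H31.e_rkn

end Pool.Agent.GT.OF
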