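import Mathlib

/-!
# Squad GT (MP_ba5221_nt): interface of the blocks

* GT1 (Szemerédi's theorem): output `SzeStmt`, files `DefsA.lean`, `StmtsA.lean`.
* GT2 (relative Szemerédi theorem of Conlon, Fox and Zhao): `SzeStmt → RelStmt`.
* GT3 (majorant): `MajStmt`.
* `GtStmt` (Green-Tao theorem in a residue class) follows from `RelStmt` and `MajStmt`.

All averages are written as plain sums; `[NeZero N]` gives `Fintype (ZMod N)`.
-/

namespace Pool.Agent.GT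

/-- Szemerédi's theorem with a lower bound for the number of progressions (the difference `0` is
counted, too). -/
def SzeStmt : Prop := ∀ (K : ℕ) (δ : ℝ), 0 < δ → ∃ c : ℝ, 0 < c ∧
  ∀ (N : ℕ) [NeZero N] (f : ZMod N → ℝ), (∀ x, 0 ≤ f x) → (∀ x, f x ≤ 1) →
    δ * N ≤ ∑ x, f x →
    c * (N : ℝ) ^ 2 ≤ ∑ a : ZMod N, ∑ d : ZMod N, ∏ j ∈ Finset.range K, f (a + j * d)

/-- the linear form number `j`, `∑ (i - j) x_i`; the `K` forms are an arithmetic progression with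
first term `∑ i x_i` and difference `- ∑ x_i` -/
def psi {K N : ℕ} (j : Fin K) (x : Fin K → ZMod N) : ZMod N :=
  ∑ i : Fin K, (((i : ℕ) : ZMod N) - ((j : ℕ) : ZMod N)) * x i

/-- the coordinates of `x` and `y` mixed: `y i` where `ω i` is true -/
def mix {K : ℕ} {X : Type} (ω : Fin K → Bool) (x y : Fin K → X) : Fin K → X :=
  fun i => if ω i then y i else x i

/-- the linear forms condition with error `ε` -/
def LF (K : ℕ) {N : ℕ} [NeZero N] (ν : ZMod N → ℝ) (ε : ℝ) : Prop :=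
  ∀ S : Finset (Fin K × (Fin K → Bool)), (∀ p ∈ S, p.2 p.1 = false) →
    |(∑ x : Fin K → ZMod N, ∑ y : Fin K → ZMod N, ∏ p ∈ S, ν (psi p.1 (mix p.2 x y)))
      / (N : ℝ) ^ (2 * K) - 1| ≤ ε

/-- the relative Szemerédi theorem -/
def RelStmt : Prop := ∀ (K : ℕ) (δ : ℝ), 3 ≤ K → 0 < δ → ∃ c ε : ℝ, 0 < c ∧ 0 < ε ∧
  ∀ (N : ℕ) [NeZero N] (ν f : ZMod N → ℝ), N.Coprime (K - 1).factorial → (∀ x, 0 ≤ f x) →
    (∀ x, f x ≤ ν x) → LF K ν ε → δ * N ≤ ∑ x, f x →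
    c * (N : ℝ) ^ 2 ≤ ∑ a : ZMod N, ∑ d : ZMod N, ∏ j ∈ Finset.range K, f (a + j * d)

/-- the majorant: for every `ε > 0` there are arbitrarily large `N` (coprime to `(K-1)!`) and a function `f`
on `ZMod N`, carried by the `x` in the middle half (`N/4 ≤ x < 3N/4`) for which `W x + b'` is a prime
(`b' = b` mod `M`, `M ∣ W`), with a majorant `ν` which satisfies the linear forms condition with error
`ε`; the density `δ` of `f` does not depend on `ε`.  The last condition takes care of the progressions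
with difference `0`. -/
def MajStmt : Prop := ∀ (K M b : ℕ), 3 ≤ K → 0 < M → b.Coprime M → ∃ δ : ℝ, 0 < δ ∧
  ∀ (ε : ℝ) (n₀ : ℕ), 0 < ε → ∃ (N W b' : ℕ) (_ : NeZero N) (ν f : ZMod N → ℝ),
    N.Coprime (K - 1).factorial ∧ n₀ ≤ N ∧ 0 < W ∧ M ∣ W ∧ b' ≡ b [MOD M] ∧ LF K ν ε ∧
    (∀ x, 0 ≤ f x) ∧ (∀ x, f x ≤ ν x) ∧ δ * N ≤ ∑ x, f x ∧
    (∀ x, f x ≠ 0 → N ≤ 4 * x.val ∧ 4 * x.val < 3 * N ∧ (W * x.val + b').Prime) ∧
    ∑ x, f x ^ K ≤ ε * (N : ℝ) ^ 2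

/-- the theorem of Green and Tao in a residue class -/
def GtStmt : Prop := ∀ (K M b : ℕ), 0 < M → b.Coprime M → ∀ n₀ : ℕ, ∃ a d : ℕ,
  n₀ ≤ a ∧ 0 < d ∧ M ∣ d ∧ ∀ j < K, (a + j * d).Prime ∧ a + j * d ≡ b [MOD M]

end Pool.Agent.GT
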