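import Mathlib

/-!
# Squad GT (MP_ba5221_nt), block A: Szemerédi's theorem from the density Hales-Jewett theorem

Words over `k` letters are functions `ι → Fin k`.  The last letter of `Fin (k + 1)` is written `∗` in the
docstrings.
-/

namespace Pool.Agent.GT

section Words

variable {ι κ η θ α β : Type}

/-- the word with the letters `y e` in the places of the wildcard `e` -/
def sp (f : ι → α ⊕ η) (y : η → α) : ι → α := fun i => Sum.elim id y (f i)

/-- `f` is (the index function of) a combinatorial subspace: every wildcard occurs -/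
def IsSub (f : ι → α ⊕ η) : Prop := ∀ e : η, ∃ i, f i = Sum.inr e

/-- the word `w` with `a` in the places of the wildcard -/
def lp (w : ι → Option α) (a : α) : ι → α := fun i => (w i).getD a

/-- `w` is a combinatorial line: the wildcard occurs -/
def IsLine (w : ι → Option α) : Prop := ∃ i, w i = none

/-- composition of subspaces -/
def cmp (f : ι → α ⊕ η) (g : η → α ⊕ θ) : ι → α ⊕ θ := fun i => Sum.elim Sum.inl g (f i)

/-- the subspace over more letters -/
def up {k : ℕ} (f : ι → Fin k ⊕ η) : ι → Fin (k + 1) ⊕ η := fun i => Sum.map Fin.castSucc id (f i)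

/-- the word over more letters -/
def cs {k : ℕ} (x : ι → Fin k) : ι → Fin (k + 1) := fun i => (x i).castSucc

/-- `x` with `a` in the place of the last letter `∗` -/
def rp {k : ℕ} (x : ι → Fin (k + 1)) (a : Fin k) : ι → Fin k :=
  fun i => if h : x i = Fin.last k then a else (x i).castPred h

/-- `x` and `y` differ only by letters `i` and `∗` -/
def Eqv {k : ℕ} (a : Fin k) (x y : ι → Fin (k + 1)) : Prop :=
  ∀ j, x j = y j ∨ ((x j = a.castSucc ∨ x j = Fin.last k) ∧ (y j = a.castSucc ∨ y j = Fin.last k))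

/-- `D` is `(a, ∗)`-insensitive -/
def Ins {k : ℕ} (a : Fin k) (D : Finset (ι → Fin (k + 1))) : Prop :=
  ∀ x y, Eqv a x y → x ∈ D → y ∈ D

theorem sp_cmp (f : ι → α ⊕ η) (g : η → α ⊕ θ) (y : θ → α) : sp (cmp f g) y = sp f (sp g y) := by
  funext i
  simp only [sp, cmp]
  rcases f i with a | e <;> rfl

theorem IsSub.cmp {f : ι → α ⊕ η} {g : η → α ⊕ θ} (hf : IsSub f) (hg : IsSub g) :
    IsSub (GT.cmp f g) := by
  intro e
  obtain ⟨j, hj⟩ := hg e
  obtain ⟨i, hi⟩ := hf j
  refine ⟨i, ?_⟩
  unfold GT.cmp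
  rw [hi]
  exact hj

theorem IsSub.up {k : ℕ} {f : ι → Fin k ⊕ η} (hf : IsSub f) : IsSub (GT.up f) := by
  intro e
  obtain ⟨i, hi⟩ := hf e
  refine ⟨i, ?_⟩
  unfold GT.up
  rw [hi]
  rfl

theorem up_cmp {k : ℕ} (f : ι → Fin k ⊕ η) (g : η → Fin k ⊕ θ) : up (cmp f g) = cmp (up f) (up g) := by
  funext i
  simp only [up, cmp]
  rcases f i with a | e <;> rfl

theorem sp_up_cs {k : ℕ} (f : ι → Fin k ⊕ η) (y : η → Fin k) : sp (up f) (cs y) = cs (sp f y) := by
  funext i
  simp only [sp, up, cs]
  rcases f i with a | e <;> rfl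

theorem IsSub.injective {f : ι → α ⊕ η} (hf : IsSub f) : Function.Injective (sp f) := by
  intro x y h
  funext e
  obtain ⟨i, hi⟩ := hf e
  have := congrFun h i
  unfold sp at this
  rw [hi] at this
  exact this

theorem rp_cs {k : ℕ} (x : ι → Fin k) (a : Fin k) : rp (cs x) a = x := by
  funext i
  unfold rp cs
  rw [dif_neg (Fin.castSucc_lt_last _).ne]
  exact Fin.castPred_castSucc _

/-- `x` and `x` with `∗` replaced by `a` are equivalent -/
theorem eqv_rp {k : ℕ} (x : ι → Fin (k + 1)) (a : Fin k) : Eqv a x (cs (rp x a)) := by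
  intro j
  unfold cs rp
  by_cases h : x j = Fin.last k
  · right
    rw [dif_pos h]
    exact ⟨Or.inr h, Or.inl rfl⟩
  · left
    rw [dif_neg h, Fin.castSucc_castPred]

theorem Eqv.symm {k : ℕ} {a : Fin k} {x y : ι → Fin (k + 1)} (h : Eqv a x y) : Eqv a y x := by
  intro j
  rcases h j with h1 | h1
  · exact Or.inl h1.symm
  · exact Or.inr ⟨h1.2, h1.1⟩

end Words

/-- every set of words of length at least `n` over `k` letters, of density at least `δ`, contains a
combinatorial line -/
def DH (k : ℕ) (δ : ℝ) (n : ℕ) : Prop :=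
  ∀ (ι : Type) [Fintype ι], n ≤ Fintype.card ι → ∀ A : Finset (ι → Fin k),
    δ * (k : ℝ) ^ Fintype.card ι ≤ A.card →
    ∃ w : ι → Option (Fin k), IsLine w ∧ ∀ a, lp w a ∈ A

/-- the density Hales-Jewett theorem for `k` letters -/
def DHJ (k : ℕ) : Prop := ∀ δ : ℝ, 0 < δ → ∃ n, DH k δ n

end Pool.Agent.GT
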