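import Pool.Agent.GT.Defs

/-!
# Squad GT (MP_ba5221_nt), block B: the relative Szemerédi theorem of Conlon, Fox and Zhao

`av f` is the average of `f` over a finite type.  The variables `x : Fin K → X` are the points of a
`K`-partite system; `μ j` does not depend on the coordinate `j`.
-/

namespace Pool.Agent.GT

open Finset

/-- the average of a function on a finite type -/
noncomputable def av {α : Type} [Fintype α] (f : α → ℝ) : ℝ := (∑ a, f a) / (Fintype.card α : ℝ)

/-- `g` does not depend on the coordinate `j` -/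
def Ind {K : ℕ} {X : Type} (j : Fin K) (g : (Fin K → X) → ℝ) : Prop :=
  ∀ (x : Fin K → X) (s : X), g (Function.update x j s) = g x

/-- the linear forms condition for a system `μ` -/
def HLF {K : ℕ} {X : Type} [Fintype X] (μ : Fin K → (Fin K → X) → ℝ) (ε : ℝ) : Prop :=
  ∀ S : Finset (Fin K × (Fin K → Bool)), (∀ p ∈ S, p.2 p.1 = false) →
    |av (fun z : (Fin K → X) × (Fin K → X) => ∏ p ∈ S, μ p.1 (mix p.2 z.1 z.2)) - 1| ≤ ε

/-- the cut norm of `h` at the coordinate `j` is at most `ε` -/
def Cut {K : ℕ} {X : Type} [Fintype X] (j : Fin K) (h : (Fin K → X) → ℝ) (ε : ℝ) : Prop :=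
  ∀ u : Fin K → (Fin K → X) → ℝ, (∀ i, Ind i (u i)) → (∀ i x, |u i x| ≤ 1) →
    |av (fun x => h x * ∏ i ∈ univ.erase j, u i x)| ≤ ε

/-- the canonical cut norm on `ZMod N` with `K` variables is at most `ε` -/
def C0 (N K : ℕ) [NeZero N] (h : ZMod N → ℝ) (ε : ℝ) : Prop :=
  ∀ u : Fin K → (Fin K → ZMod N) → ℝ, (∀ i, Ind i (u i)) → (∀ i y, |u i y| ≤ 1) →
    |av (fun y : Fin K → ZMod N => h (∑ i, y i) * ∏ i, u i y)| ≤ ε

/-- the `ω` with support in `J` -/
def cube {K : ℕ} (J : Finset (Fin K)) : Finset (Fin K → Bool) :=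
  univ.filter (fun ω => ∀ i, ω i = true → i ∈ J)

/-- the averages of the Cauchy-Schwarz argument: the coordinates in `J` are doubled already; the weights
with index `j ∈ J` are replaced by their majorants `P j` -/
noncomputable def EJ {K : ℕ} {X : Type} [Fintype X] (a : Fin K) (F : (Fin K → X) → ℝ)
    (p P : Fin K → Bool → (Fin K → X) → ℝ) (J : Finset (Fin K)) : ℝ :=
  av (fun z : (Fin K → X) × (Fin K → X) =>
    (∏ ω ∈ cube J, F (mix ω z.1 z.2)) *
    (∏ j ∈ J, ∏ ω ∈ cube (insert a (J.erase j)), P j (ω a) (mix ω z.1 z.2)) *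
    (∏ j ∈ (univ.erase a) \ J, ∏ ω ∈ cube (insert a J), p j (ω a) (mix ω z.1 z.2)))

/-! ### Averages -/

section Av

variable {α β : Type} [Fintype α] [Fintype β]

theorem av_add (f g : α → ℝ) : av (fun a => f a + g a) = av f + av g := by
  unfold av; rw [Finset.sum_add_distrib, add_div]

theorem av_sub (f g : α → ℝ) : av (fun a => f a - g a) = av f - av g := by
  unfold av; rw [Finset.sum_sub_distrib, sub_div]

theorem av_neg (f : α → ℝ) : av (fun a => - f a) = - av f := by
  unfold av; rw [Finset.sum_neg_distrib, neg_div]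

theorem av_mul_left (c : ℝ) (f : α → ℝ) : av (fun a => c * f a) = c * av f := by
  unfold av; rw [← Finset.mul_sum, mul_div_assoc]

theorem av_mul_right (c : ℝ) (f : α → ℝ) : av (fun a => f a * c) = av f * c := by
  unfold av; rw [← Finset.sum_mul]; ring

theorem av_const [Nonempty α] (c : ℝ) : av (fun _ : α => c) = c := by
  unfold av
  have h : (Fintype.card α : ℝ) ≠ 0 := by exact_mod_cast Fintype.card_ne_zero
  rw [Finset.sum_const, nsmul_eq_mul, Finset.card_univ]
  field_simp

theorem av_sum {ι : Type} (s : Finset ι) (f : ι → α → ℝ) :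
    av (fun a => ∑ i ∈ s, f i a) = ∑ i ∈ s, av (f i) := by
  unfold av; rw [Finset.sum_comm, Finset.sum_div]

theorem av_mono {f g : α → ℝ} (h : ∀ a, f a ≤ g a) : av f ≤ av g := by
  unfold av
  exact div_le_div_of_nonneg_right (Finset.sum_le_sum fun a _ => h a) (Nat.cast_nonneg _)

theorem av_nonneg {f : α → ℝ} (h : ∀ a, 0 ≤ f a) : 0 ≤ av f := by
  unfold av
  exact div_nonneg (Finset.sum_nonneg fun a _ => h a) (Nat.cast_nonneg _)

theorem abs_av_le (f : α → ℝ) : |av f| ≤ av (fun a => |f a|) := by
  unfold av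
  rw [abs_div, Nat.abs_cast]
  exact div_le_div_of_nonneg_right (Finset.abs_sum_le_sum_abs _ _) (Nat.cast_nonneg _)

theorem av_prod (f : α × β → ℝ) : av f = av (fun a => av (fun b => f (a, b))) := by
  unfold av
  rw [Fintype.sum_prod_type, Fintype.card_prod, Nat.cast_mul, ← Finset.sum_div, div_div]
  ring

theorem av_comm (f : α → β → ℝ) :
    av (fun a => av (fun b => f a b)) = av (fun b => av (fun a => f a b)) := by
  unfold av
  rw [← Finset.sum_div, ← Finset.sum_div, Finset.sum_comm, div_right_comm]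

theorem av_equiv (e : α ≃ β) (f : β → ℝ) : av (fun a => f (e a)) = av f := by
  unfold av
  rw [Fintype.card_congr e, Equiv.sum_comp e f]

/-- the Cauchy-Schwarz inequality with a weight -/
theorem av_sq_le (T V R : α → ℝ) (h : ∀ a, |T a| ≤ V a) :
    (av (fun a => T a * R a)) ^ 2 ≤ av V * av (fun a => V a * R a ^ 2) := by
  have hV : ∀ a, 0 ≤ V a := fun a => (abs_nonneg _).trans (h a)
  have h1 : |av (fun a => T a * R a)| ≤ av (fun a => V a * |R a|) :=
    (abs_av_le _).trans (av_mono fun a => by
      rw [abs_mul]; exact mul_le_mul_of_nonneg_right (h a) (abs_nonneg _))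
  have h2 : (av (fun a => T a * R a)) ^ 2 ≤ (av (fun a => V a * |R a|)) ^ 2 := by
    rw [← sq_abs (av (fun a => T a * R a))]
    exact pow_le_pow_left₀ (abs_nonneg _) h1 2
  refine h2.trans ?_
  unfold av
  rw [div_pow, div_mul_div_comm, sq (Fintype.card α : ℝ)]
  refine div_le_div_of_nonneg_right ?_ (mul_nonneg (Nat.cast_nonneg _) (Nat.cast_nonneg _))
  have h3 := Finset.sum_mul_sq_le_sq_mul_sq univ (fun a => Real.sqrt (V a))
    (fun a => Real.sqrt (V a) * |R a|)
  have e1 : (∑ a, Real.sqrt (V a) * (Real.sqrt (V a) * |R a|)) = ∑ a, V a * |R a| :=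
    Finset.sum_congr rfl fun a _ => by rw [← mul_assoc, Real.mul_self_sqrt (hV a)]
  have e2 : (∑ a, Real.sqrt (V a) ^ 2) = ∑ a, V a :=
    Finset.sum_congr rfl fun a _ => Real.sq_sqrt (hV a)
  have e3 : (∑ a, (Real.sqrt (V a) * |R a|) ^ 2) = ∑ a, V a * R a ^ 2 :=
    Finset.sum_congr rfl fun a _ => by rw [mul_pow, Real.sq_sqrt (hV a), sq_abs]
  rw [e1, e2, e3] at h3
  exact h3

/-- an average over the coordinates is an average over one of them first -/
theorem av_update {K : ℕ} {X : Type} [Fintype X] [Nonempty X] (j : Fin K)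
    (f : (Fin K → X) → ℝ) :
    av f = av (fun x => av (fun s : X => f (Function.update x j s))) := by
  rw [← av_prod (fun q : (Fin K → X) × X => f (Function.update q.1 j q.2))]
  let e : (Fin K → X) × X ≃ (Fin K → X) × X :=
    { toFun := fun q => (Function.update q.1 j q.2, q.1 j)
      invFun := fun q => (Function.update q.1 j q.2, q.1 j)
      left_inv := fun q => by simp
      right_inv := fun q => by simp }
  have h := av_equiv e (fun q : (Fin K → X) × X => f q.1)
  have h2 : av (fun q : (Fin K → X) × X => f q.1) = av f := by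
    rw [av_prod]
    simp only [av_const]
  rw [← h2, ← h]
  rfl

end Av

theorem mix_update_left {K : ℕ} {X : Type} (ω : Fin K → Bool) (x y : Fin K → X) (j : Fin K) (s : X)
    (h : ω j = false) : mix ω (Function.update x j s) y = Function.update (mix ω x y) j s := by
  funext i
  unfold mix
  by_cases hi : i = j
  · subst hi; simp [h]
  · simp [Function.update_of_ne hi]

theorem mix_update_right {K : ℕ} {X : Type} (ω : Fin K → Bool) (x y : Fin K → X) (j : Fin K) (s : X)
    (h : ω j = true) : mix ω x (Function.update y j s) = Function.update (mix ω x y) j s := by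
  funext i
  unfold mix
  by_cases hi : i = j
  · subst hi; simp [h]
  · simp [Function.update_of_ne hi]

theorem mix_false {K : ℕ} {X : Type} (x y : Fin K → X) : mix (fun _ => false) x y = x := by
  funext i; simp [mix]

theorem mem_cube {K : ℕ} {J : Finset (Fin K)} {ω : Fin K → Bool} :
    ω ∈ cube J ↔ ∀ i, ω i = true → i ∈ J := by
  simp [cube]

end Pool.Agent.GT
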