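import Mathlib

/-!
# Squad GT (MP_ba5221_nt), block C: the majorant (Selberg weights)

`P` is always a finite set of primes, a squarefree number with prime factors in `P` is a subset of
`P`; `nn a` is the product of `a`.
-/

open Finset

namespace Pool.Agent.GT

/-- the product of a finite set of numbers -/
def nn (a : Finset ℕ) : ℕ := ∏ p ∈ a, p

/-- `∏ 1 / (p - 1)` -/
noncomputable def gg (a : Finset ℕ) : ℝ := ∏ p ∈ a, 1 / ((p : ℝ) - 1)

/-- `∏ 1 / p` -/
noncomputable def iw (a : Finset ℕ) : ℝ := ∏ p ∈ a, 1 / (p : ℝ)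

/-- the subsets of `P` with product less than `R` -/
def lv (P : Finset ℕ) (R : ℕ) : Finset (Finset ℕ) := P.powerset.filter fun a => nn a < R

/-- the sum of Selberg -/
noncomputable def GG (P : Finset ℕ) (R : ℕ) : ℝ := ∑ r ∈ lv P R, gg r

/-- the weights of Selberg -/
noncomputable def lam (P : Finset ℕ) (R : ℕ) (a : Finset ℕ) : ℝ :=
  (-1) ^ a.card * (nn a : ℝ) * (∑ r ∈ (lv P R).filter (fun r => a ⊆ r), gg r) / GG P R

/-- `Q(t)` -/
noncomputable def QQ (P : Finset ℕ) (R : ℕ) (t : Finset ℕ) : ℝ :=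
  ∑ a ∈ P.powerset, ∑ b ∈ P.powerset, lam P R a * lam P R b * iw ((a ∪ b) \ t)

/-- `S(t)` -/
noncomputable def SS (P : Finset ℕ) (R : ℕ) (t : Finset ℕ) : ℝ :=
  ∑ a ∈ P.powerset, ∑ b ∈ P.powerset,
    if t ⊆ a ∪ b then lam P R a * lam P R b * iw ((a ∪ b) \ t) else 0

/-- the divisor sum `∑_{a ∣ n} λ_a` -/
noncomputable def tds (P : Finset ℕ) (R n : ℕ) : ℝ :=
  ∑ a ∈ P.powerset.filter (fun a => nn a ∣ n), lam P R a

/-- the majorant -/
noncomputable def nu (P : Finset ℕ) (R W b : ℕ) {N : ℕ} (x : ZMod N) : ℝ :=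
  GG P R * (tds P R (W * x.val + b)) ^ 2

section Forms

variable {σ ι : Type}

/-- a good system of linear forms: coefficients at most `B`, one coefficient of each form is `1` or `-1`,
and for two different forms there is a variable which occurs only in the first one -/
def Good (B : ℕ) (L : σ → ι → ℤ) : Prop :=
  (∀ s i, |L s i| ≤ B) ∧ (∀ s, ∃ i, L s i = 1 ∨ L s i = -1) ∧
    (∀ s s', s ≠ s' → ∃ i, L s i ≠ 0 ∧ L s' i = 0)

variable [Fintype σ] [Fintype ι] [DecidableEq ι]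

/-- the linear form number `s` in `ZMod N` -/
def ev (L : σ → ι → ℤ) {N : ℕ} (s : σ) (z : ι → ZMod N) : ZMod N := ∑ i, (L s i : ZMod N) * z i

/-- the local density: the proportion of the `v` mod `p` with `p ∣ W (c_s + L_s(v)) + b` for all `s ∈ T` -/
noncomputable def al (L : σ → ι → ℤ) (W b : ℕ) (c : σ → ℤ) (p : ℕ) (T : Finset σ) : ℝ :=
  ((univ.filter fun v : ι → Fin p =>
    ∀ s ∈ T, (p : ℤ) ∣ W * (c s + ∑ i, L s i * ((v i : ℕ) : ℤ)) + b).card : ℝ) /
      (p : ℝ) ^ Fintype.card ι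

/-- the set of the `s` with `p ∈ A s ∪ B s` -/
def TT [DecidableEq σ] (A B : σ → Finset ℕ) (p : ℕ) : Finset σ :=
  univ.filter fun s => p ∈ A s ∪ B s

/-- the modulus of a pair of tuples -/
def DD (A B : σ → Finset ℕ) : ℕ := nn (univ.biUnion fun s => A s ∪ B s)

/-- the average, over the translates of `z` by `h ∈ [0, D)^ι`, of the function which is `1` if
`nn (A s ∪ B s) ∣ W L_s(z) + b` for all `s` and `0` otherwise -/
noncomputable def avb (L : σ → ι → ℤ) (W b : ℕ) (A B : σ → Finset ℕ) {N : ℕ} (z : ι → ZMod N) : ℝ :=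
  ((univ.filter fun h : ι → Fin (DD A B) =>
    ∀ s, nn (A s ∪ B s) ∣ W * (ev L s (fun i => z i + ((h i : ℕ) : ZMod N))).val + b).card : ℝ) /
      (DD A B : ℝ) ^ Fintype.card ι

/-- the sum over all pairs of tuples -/
noncomputable def brk [DecidableEq σ] (P : Finset ℕ) (R : ℕ) (X : (σ → Finset ℕ) → (σ → Finset ℕ) → ℝ) : ℝ :=
  GG P R ^ Fintype.card σ * ∑ A ∈ Fintype.piFinset (fun _ : σ => P.powerset),
    ∑ B ∈ Fintype.piFinset (fun _ : σ => P.powerset),
      (∏ s, lam P R (A s) * lam P R (B s)) * X A B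

/-- `z` is good with margin `T` -/
def Gd (L : σ → ι → ℤ) (T : ℕ) {N : ℕ} (z : ι → ZMod N) : Prop :=
  ∀ s, T ≤ (ev L s z).val ∧ (ev L s z).val + T < N

end Forms

/-- the coefficients of the form `psi j (mix ω x y)`; the variable `(i, false)` is `x i`, `(i, true)` is
`y i` -/
def co {K : ℕ} (q : Fin K × (Fin K → Bool)) (v : Fin K × Bool) : ℤ :=
  if q.2 v.1 = v.2 then ((v.1 : ℕ) : ℤ) - ((q.1 : ℕ) : ℤ) else 0

/-- the primes less than `R` which do not divide `W` -/
def PP (W R : ℕ) : Finset ℕ := (Finset.range R).filter fun p => p.Prime ∧ ¬ p ∣ W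

end Pool.Agent.GT
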