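import Pool.Agent.GT.DefsD

/-!
# Squad GT (MP_ba5221_nt), block E: one fibre decides. Definitions

The indices of the three roots are `0, 1, 2 : Fin 3` and are read modulo 3.
-/

set_option autoImplicit false

namespace Pool.Agent.GT.OF

open Polynomial Pool.Agent.NJ Pool.Agent.GT.D

noncomputable section

/-! ### The 2-Selmer group -/

/-- The 2-covering of the curve `y² = (x - e 0) (x - e 1) (x - e 2)` given by the class `d` has a
point over `F`: there are `z i`, `w` in `F`, not all zero, with `x - e i = d i (z i / w)²`. -/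
def Cv (F : Type) [Field F] [Algebra ℚ F] (e d : Fin 3 → ℚ) : Prop :=
  ∃ (z : Fin 3 → F) (w : F), ¬ (z = 0 ∧ w = 0) ∧ ∀ i j : Fin 3,
    algebraMap ℚ F (d i) * z i ^ 2 - algebraMap ℚ F (d j) * z j ^ 2 =
      algebraMap ℚ F (e j - e i) * w ^ 2

/-- The 2-Selmer group of `y² = (x - e 0) (x - e 1) (x - e 2)` over `ℚ` is as small as possible: it
consists of the classes of the 2-torsion points. -/
def TrivialSelmer (e : Fin 3 → ℚ) : Prop :=
  ∀ d : Fin 3 → ℚ, (∀ i, d i ≠ 0) → IsSquare (d 0 * d 1 * d 2) →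
    (∀ (p : ℕ) [Fact p.Prime], Cv ℚ_[p] e d) → Cv ℝ e d →
    (∀ i, IsSquare (d i)) ∨ ∃ j, ∀ k, k ≠ j → IsSquare (d k * (e j - e k))

/-- The same for integers; `P i` is the root number `i + 1` minus the root number `i + 2`. -/
def Cov (F : Type) [Field F] (P d : Fin 3 → ℤ) : Prop :=
  ∃ (z : Fin 3 → F) (w : F), ¬ (z = 0 ∧ w = 0) ∧ ∀ i : Fin 3,
    (d (i + 1) : F) * z (i + 1) ^ 2 - (d (i + 2) : F) * z (i + 2) ^ 2 = -(P i : F) * w ^ 2

/-- The 2-Selmer group is trivial, for the roots `rt 1 P`. -/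
def Zsel (P : Fin 3 → ℤ) : Prop :=
  ∀ d : Fin 3 → ℤ, (∀ i, d i ≠ 0) → IsSquare (d 0 * d 1 * d 2) →
    (∀ (q : ℕ) [Fact q.Prime], Cov ℚ_[q] P d) → Cov ℝ P d →
    (∀ i, IsSquare (d i)) ∨ ∃ j, ∀ k, k ≠ j → IsSquare (d k * (rt 1 P j - rt 1 P k))

/-- The class of the point `(x, w)` is trivial or the class of a 2-torsion point. -/
def InTor (e : Fin 3 → ℤ) (x w : ℤ) : Prop :=
  (∀ i, IsSquare (Xc e x w i)) ∨ ∃ j, ∀ k, k ≠ j → IsSquare (Xc e x w k * (e j - e k))

/-! ### The new places -/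

section
variable {ι : Type} [Fintype ι]

/-- the differences of the roots of the fibre at `t`; `P` are those at the base point -/
def Dn (P : Fin 3 → ℤ) (bl : ι → Fin 3) (m st p : ι → ℕ) (i : Fin 3) : ℤ :=
  P i * ∏ l, (p l : ℤ) ^ (st l + if bl l = i then m l else 0)

/-- the normalising function -/
def zz (r : ℕ) (h : ZMod 2) (p : ι → ℕ) (n : ℤ) : ZMod 2 := vl r n + h * ∑ l, vl (p l) n

/-- the primes `p l` at the new places; they are `1` modulo the `N`-th powers of the old primes `≠ r` -/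
structure Nwe (P : Fin 3 → ℤ) (r : ℕ) (bl : ι → Fin 3) (m st p : ι → ℕ) (h : ZMod 2) (N : ℕ) :
    Prop where
  P0 : ∀ i, P i ≠ 0
  ps : P 0 + P 1 + P 2 = 0
  rp : r.Prime
  r2 : r ≠ 2
  rd : ∀ i, (r : ℤ) ∣ P i ∧ ¬ (r : ℤ) ^ 2 ∣ P i
  pr : ∀ l, (p l).Prime
  inj : Function.Injective p
  m8 : ∀ l, p l % 8 = 1
  nd : ∀ l i, ¬ (p l : ℤ) ∣ P i
  cl : ∀ (l : ι) (q : ℕ), q.Prime → q ≠ r → (q : ℤ) ∣ 2 * P 0 * P 1 * P 2 →
    (q : ℤ) ^ N ∣ (p l : ℤ) - 1
  ur : ∀ l, ul r (p l) = 1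
  mu : ∀ l l', l ≠ l' → ul (p l) (p l') = h
  st1 : ∀ l, st l ≤ 1
  deg : ∃ M : ℕ, (∀ i, ∑ l, (if bl l = i then m l else 0) = M) ∧ Even (M + ∑ l, st l)
  sum : Dn P bl m st p 0 + Dn P bl m st p 1 + Dn P bl m st p 2 = 0

end

/-! ### Points -/

section
variable {F : Type} [Field F]

/-- `Q` is an affine point with the first coordinate `x` -/
def HasX {W : WeierstrassCurve F} (Q : W.toAffine.Point) (x : F) : Prop :=
  ∃ (y : F) (h : W.toAffine.Nonsingular x y), Q = WeierstrassCurve.Affine.Point.some x y h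

open Classical in
/-- every point is the sum of a point of order 2 and a double -/
def Div2 (W : WeierstrassCurve F) : Prop :=
  ∀ Q : W.toAffine.Point, ∃ T Q' : W.toAffine.Point, 2 • T = 0 ∧ Q = T + 2 • Q'

open Classical in
/-- every point has finite order -/
def Tors (W : WeierstrassCurve F) : Prop :=
  ∀ Q : W.toAffine.Point, ∃ n : ℕ, 0 < n ∧ n • Q = 0

open Classical in
/-- every point is killed by `n` -/
def Expo (W : WeierstrassCurve F) (n : ℕ) : Prop := ∀ Q : W.toAffine.Point, n • Q = 0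

open Classical in
/-- `Q` is killed by `n` -/
def Kil {W : WeierstrassCurve F} (n : ℕ) (Q : W.toAffine.Point) : Prop := n • Q = 0

/-- three different roots -/
structure Rt3 (W : WeierstrassCurve F) (e : Fin 3 → F) : Prop where
  two : (2 : F) ≠ 0
  rts : Roots W (e 0) (e 1) (e 2)
  ne : ∀ i j, i ≠ j → e i ≠ e j

end

/-- the differences of the roots are `lam²` times the integers `D i` -/
structure Scl (W : WeierstrassCurve ℚ) (ε : Fin 3 → ℚ) (lam : ℚ) (D : Fin 3 → ℤ) : Prop where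
  rts : Roots W (ε 0) (ε 1) (ε 2)
  lam0 : lam ≠ 0
  D0 : ∀ i, D i ≠ 0
  sum : D 0 + D 1 + D 2 = 0
  dif : ∀ i : Fin 3, ε (i + 1) - ε (i + 2) = lam ^ 2 * (D i : ℚ)

/-- the height of a rational number -/
def Ht (x : ℚ) : ℕ := max x.num.natAbs x.den

end

end Pool.Agent.GT.OF
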