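import Pool.Agent.GT.AllAB
import Pool.Agent.GT.AllC0
import Pool.Agent.Helper13_GT.C_CRM
import Pool.Agent.Helper32_GT.C_QQQ

/-!
# The theorem of Green and Tao in a residue class

`greenTao : GtStmt`: for all `K`, `M > 0`, `b` coprime to `M` there are arithmetic progressions of `K`
primes which are all `= b` modulo `M`, with arbitrarily large first term.  `maj_` : the majorant with the
linear forms condition; `rel_`, `sze`, `dha` (file `AllAB`): relative Szemerédi theorem, Szemerédi's
theorem, density Hales-Jewett theorem.
-/

namespace Pool.Agent.GT

theorem maj_ : MajStmt := maj_of H32.qqq H13.c_crm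

/-- the theorem of Green and Tao in a residue class -/
theorem greenTao : GtStmt := H41.c_gtm rel_ maj_

end Pool.Agent.GT
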