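import Pool.Agent.GT.Defs
import Pool.Agent.GT.DefsA

/-!
# Squad GT (MP_ba5221_nt), block A: Szemerédi's theorem from the density Hales-Jewett theorem

Proof of Dodos, Kanellopoulos and Tyros.  Words over `k` letters: `ι → Fin k`; the last letter of
`Fin (k + 1)` is written `∗`; `[k]` are the other letters.  `|ι| = Fintype.card ι`.
All rows take the statements of the column `uses` as hypotheses.

Useful: if `n ≤ |ι|`, there is an equivalence `e : ι ≃ Fin n ⊕ Fin (|ι| - n)`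
(`Fintype.equivOfCardEq`), and `Equiv.sumArrowEquivProdArrow`, `Equiv.arrowCongr`,
`Fintype.card_fun`, `Fintype.sum_prod_type`, `Fintype.sum_equiv`; a subspace `g : Fin n → α ⊕ η` and a word
`z : Fin r → α` give the subspace `i ↦ Sum.elim g (fun j => Sum.inl (z j)) (e i)`.
-/

open Finset

namespace Pool.Agent.GT

/-! ## 1. The multidimensional version -/

/-- every set of words of length at least `n` over `k` letters, of density at least `δ`, contains an
`m`-dimensional combinatorial subspace -/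
def MD (k m : ℕ) (δ : ℝ) (n : ℕ) : Prop :=
  ∀ (ι : Type) [Fintype ι], n ≤ Fintype.card ι → ∀ A : Finset (ι → Fin k),
    δ * (k : ℝ) ^ Fintype.card ι ≤ A.card →
    ∃ f : ι → Fin k ⊕ Fin m, IsSub f ∧ ∀ y, sp f y ∈ A

/-- the multidimensional density Hales-Jewett theorem for `k` letters -/
def MDHJ (k : ℕ) : Prop := ∀ (m : ℕ) (δ : ℝ), 0 < δ → ∃ n, MD k m δ n

/-- A_MON: one length is enough.

Proof.  Let `|ι| ≥ n`, `e : ι ≃ Fin n ⊕ κ`.  `|A| = ∑_z |{x : (x, z) ∈ A}|` over the words `z` on `κ`, so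
for some `z` the fibre has at least `δ k ^ n` elements; it contains a line `w`; extend `w` by the constant
letters `z`. -/
def MonStmt : Prop := ∀ (k n : ℕ) (δ : ℝ), 0 < k →
  (∀ A : Finset (Fin n → Fin k), δ * (k : ℝ) ^ n ≤ A.card →
    ∃ w : Fin n → Option (Fin k), IsLine w ∧ ∀ a, lp w a ∈ A) → DH k δ n

/-- A_MDH: from lines to subspaces.

Proof.  Induction on `m`.  `m = 0`: `A` is not empty (`k > 0`).  `m + 1`: let `n₁` be the number for `m` and
`δ/2`, `F` the number of maps `Fin n₁ → Fin k ⊕ Fin m`, and `n₂` a number with `DH k (δ/(2F)) n₂`; take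
`n = n₁ + n₂`.  Let `ι ≃ Fin n₁ ⊕ κ`, `|κ| ≥ n₂`.  The words `z` on `κ` whose fibre
`A_z = {x : (x, z) ∈ A}` has at least `(δ/2) k ^ n₁` elements have density at least `δ/2` (otherwise
`|A| < (δ/2 + δ/2) k ^ |ι|`).  For each of them there is a subspace `f_z` inside of `A_z`; for one `f` the set
of the `z` with `f_z = f` has density at least `δ/(2F)` and contains a line `w`.  `f` and `w` give a
subspace of dimension `m + 1` (`Fin.snoc`: the last wildcard is the wildcard of `w`). -/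
def MdhStmt : Prop := ∀ k : ℕ, 0 < k → DHJ k → MDHJ k

/-! ## 2. Insensitive sets -/

/-- A_SAM: sampling.  A random subspace with `n'` wildcards, each of them occurring once, filled with random
letters of `[k]` is nearly a random word.

Proof.  Let `L ≥ ((k+1)/k) ^ n' / ε²`, `n = n' L`, and choose an injection `b : Fin L × Fin n' → ι`
(disjoint blocks).  For `j : Fin L` and `u : ι → Fin (k+1)` let `f_{j,u}` be the subspace with the wildcard
`t` at `b (j, t)` and the letter `u i` at the other places.  Average of `φ (sp f_{j,u} (cs x))` over all `j`, `u`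
and `x : Fin n' → Fin k`: for fixed `j` the word `w = sp f_{j,u} (cs x)` has weight
`∏_t r (w (b (j, t)))` with respect to the uniform distribution, `r c = (k+1)/k` for `c ≠ ∗` and
`r ∗ = 0`.  So the average is `E_w φ(w) G(w)`, `G(w) = (1/L) ∑_j ∏_t r (w (b (j,t)))`.  `E G = 1` and
`E (G - 1)² ≤ ((k+1)/k) ^ n' / L ≤ ε²` (the `L` products are independent, `E r = 1`,
`E r² = (k+1)/k`).  So `|E φ G - E φ| ≤ (E φ²)^(1/2) (E (G-1)²)^(1/2) ≤ ε`, and for some `(j, u)` the average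
over `x` is at least `E φ - ε`. -/
def SamStmt : Prop := ∀ (k n' : ℕ) (ε : ℝ), 0 < k → 0 < ε → ∃ n : ℕ,
  ∀ (ι : Type) [Fintype ι] [DecidableEq ι], n ≤ Fintype.card ι →
  ∀ φ : (ι → Fin (k + 1)) → ℝ, (∀ w, 0 ≤ φ w) → (∀ w, φ w ≤ 1) →
    ∃ f : ι → Fin (k + 1) ⊕ Fin n', IsSub f ∧
      (∑ w, φ w) / ((k : ℝ) + 1) ^ Fintype.card ι - ε ≤
        (∑ x : Fin n' → Fin k, φ (sp f (cs x))) / (k : ℝ) ^ n'

/-- dense insensitive sets contain subspaces -/
def FN (k : ℕ) : Prop := ∀ (a : Fin k) (m : ℕ) (η : ℝ), 0 < η → ∃ n : ℕ,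
  ∀ (ι : Type) [Fintype ι], n ≤ Fintype.card ι → ∀ D : Finset (ι → Fin (k + 1)), Ins a D →
    η * ((k : ℝ) + 1) ^ Fintype.card ι ≤ D.card →
    ∃ f : ι → Fin (k + 1) ⊕ Fin m, IsSub f ∧ ∀ y, sp f y ∈ D

/-- A_FND.

Proof.  `n'` with `MD k m (η/2) n'`; `n` from `SamStmt` for `n'`, `ε = η/2`.  Let `φ` be the indicator
function of `D`; `SamStmt` gives `f₁ : ι → Fin (k+1) ⊕ Fin n'` such that
`B = {x : Fin n' → Fin k | sp f₁ (cs x) ∈ D}` has at least `(η/2) k ^ n'` elements.  Let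
`g : Fin n' → Fin k ⊕ Fin m` be a subspace inside of `B`, and `f = cmp f₁ (up g)`.  For
`y : Fin m → Fin (k+1)` let `y' = rp y a`.  `sp f (cs y') = sp f₁ (cs (sp g y')) ∈ D` (`sp_cmp`, `sp_up_cs`), and
`sp f y` is equivalent to it (`Eqv a`, since `y` and `cs y'` are: `eqv_rp`), so it is in `D`. -/
def FndStmt : Prop := ∀ k : ℕ, 0 < k → MDHJ k → FN k

/-- the partition lemma for one insensitive set -/
def PT (k : ℕ) : Prop := ∀ (a : Fin k) (m : ℕ) (η : ℝ), 0 < η → ∃ n : ℕ,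
  ∀ (ι : Type) [Fintype ι], n ≤ Fintype.card ι → ∀ φ : (ι → Fin (k + 1)) → ℝ, (∀ x, φ x ≤ 1) →
    (∀ f : ι → Fin (k + 1) ⊕ Fin m, IsSub f → ∑ y, φ (sp f y) ≤ 0) →
    ∀ D : Finset (ι → Fin (k + 1)), Ins a D →
      ∑ x ∈ D, φ x ≤ η * ((k : ℝ) + 1) ^ Fintype.card ι

/-- A_PRT: the partition lemma (an insensitive set is nearly a disjoint union of `m`-dimensional subspaces).

Proof.  Let `η' = η/2`, `n₁` the number of `FN` for `m` and `η'/2`, `F = (k+1+m) ^ n₁` (the number of maps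
`Fin n₁ → Fin (k+1) ⊕ Fin m`), `c = (k+1)^m η' / (2 F (k+1)^n₁)`; `0 < c ≤ 1`.

Claim for `j : ℕ`: if `|ι| ≥ n₁ j`, `φ` as in the statement and `D` insensitive, then
`∑_{x ∈ D} φ x ≤ η' (k+1) ^ |ι| + (1 - c) ^ j |D|`.  `j = 0`: `φ ≤ 1`.  `j + 1`: let `ι ≃ Fin n₁ ⊕ κ`,
`|κ| ≥ n₁ j`.  If `|D| < η' (k+1) ^ |ι|` we are done, since `∑_D φ ≤ |D|`.  Otherwise the set of the words `y` on
`κ` for which `D_y = {x : (x, y) ∈ D}` has at least `(η'/2) (k+1)^n₁` elements has density at least `η'/2`.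
`D_y` is insensitive, so there is a subspace `f_y` (dimension `m`) with values in `D_y`; for one `f` the
set `Y = {y : ∀ z, (sp f z, y) ∈ D}` has at least `η'/(2F) (k+1)^|κ|` elements.  `Y` is insensitive.  Let
`D' = D \ {(sp f z, y) : z, y ∈ Y}`; the removed set has `(k+1)^m |Y| ≥ c (k+1)^|ι| ≥ c |D|` elements
(`sp f` is injective), and the sum of `φ` over it is `∑_{y ∈ Y} ∑_z φ (sp f z, y) ≤ 0`.  For every word `x` on
`Fin n₁` the fibre `D'^x = {y : (x, y) ∈ D'}` is `D^x` or `D^x \ Y`: insensitive; and `φ(x, ·)` satisfies the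
hypotheses on `κ`.  By the claim for `j`, `∑_{D'} φ ≤ ∑_x (η' (k+1)^|κ| + (1-c)^j |D'^x|) = η' (k+1)^|ι| +
(1-c)^j |D'| ≤ η' (k+1)^|ι| + (1-c)^(j+1) |D|`.

Take `j` with `(1 - c)^j ≤ η'` and `n = n₁ j`. -/
def PrtStmt : Prop := ∀ k : ℕ, FN k → PT k

/-- the partition lemma for intersections of insensitive sets -/
def PA (k : ℕ) : Prop := ∀ (S : Finset (Fin k)) (m : ℕ) (η : ℝ), 0 < η → ∃ n : ℕ,
  ∀ (ι : Type) [Fintype ι], n ≤ Fintype.card ι → ∀ φ : (ι → Fin (k + 1)) → ℝ, (∀ x, φ x ≤ 1) →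
    (∀ f : ι → Fin (k + 1) ⊕ Fin m, IsSub f → ∑ y, φ (sp f y) ≤ 0) →
    ∀ (D : Fin k → Finset (ι → Fin (k + 1))) (E : Finset (ι → Fin (k + 1))),
      (∀ a ∈ S, Ins a (D a)) → (∀ x, x ∈ E ↔ ∀ a ∈ S, x ∈ D a) →
      ∑ x ∈ E, φ x ≤ η * ((k : ℝ) + 1) ^ Fintype.card ι

/-- A_PAR.

Proof.  Induction on `S` (`Finset.induction_on`).  `S = ∅`: `E` is the set of all words, `n = m`: with
`ι ≃ Fin m ⊕ κ` the sum over all words is the sum over `y` on `κ` of the sums over the subspaces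
`{(x, y)}`, all `≤ 0`.  `insert a S`: let `m₁` be the number of the claim for `S`, `m`, `η/2`, and `n` the number of
`PT` for `a`, `m₁`, `η/2`.  Given `φ`, `D`, `E`, let `E_S = {x : ∀ b ∈ S, x ∈ D b}` and
`φ' x = φ x 1_{E_S}(x) - η/2 ≤ 1`.  For a subspace `f` of dimension `m₁`: the claim for `S` on `Fin m₁`, for
`φ ∘ sp f` and the sets `{y : sp f y ∈ D b}` (insensitive; subspaces of `Fin m₁` are composed with `f`,
`sp_cmp`) gives `∑_y φ (sp f y) 1_{E_S}(sp f y) ≤ (η/2) (k+1)^m₁`, i.e. `∑_y φ' (sp f y) ≤ 0`.  `PT` for `φ'` and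
`D a`: `∑_{D a} φ' ≤ (η/2) (k+1)^|ι|`, and `∑_{D a} φ' = ∑_E φ - (η/2) |D a|`. -/
def ParStmt : Prop := ∀ k : ℕ, PT k → PA k

/-! ## 3. The theorem of Graham and Rothschild for lines -/

/-- the first letter `∗` of `x` is at the place `e` -/
def MinAt {k n : ℕ} (x : Fin n → Fin (k + 1)) (e : Fin n) : Prop :=
  x e = Fin.last k ∧ ∀ e' < e, x e' ≠ Fin.last k

/-- A_GRA: the colour depends only on the place of the first `∗` and the letters before it.

Proof.  Induction on `N` for all finite `C`.  `N = 0`: nothing to prove (`n = 0`).  `N + 1`: let `M` be the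
number for `N` and the colours `Fin k → C`, and `n'` such that for every `c : (Fin n' → Fin (k+1)) → C` there is an
`M`-dimensional subspace `R : Fin n' → Fin (k+1) ⊕ Fin M` on which `c` is constant (Hales-Jewett:
`Combinatorics.Subspace.exists_mono_in_high_dimension_fin`).  Take `n = n' + 1`.  Given `c`, let `R` be such
a subspace for the colouring `z ↦ c (∗, z)` (`Fin.cons`).  Let `F : Fin (n'+1) → Fin k ⊕ Fin (M+1)` be: place
`0` ↦ wildcard `0`; place `j+1` ↦ the letter of `R j` if it is a letter `≠ ∗`, the wildcard `0` if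
`R j = ∗`, the wildcard `t + 1` if `R j` is the wildcard `t`.  Then `sp (up F) (∗, z) = (∗, sp R z)`, so `c` is
constant on these words.  Let `c'(z) = (a ↦ c (sp (up F) (a, z)))`, `a ∈ [k]`, for
`z : Fin M → Fin (k+1)`, and `g : Fin M → Fin k ⊕ Fin N` from the claim for `N`.  `f = cmp F G`, `G` the
subspace `0 ↦` wildcard `0`, `t + 1 ↦` the letter of `g t` or the wildcard (of `g t`) `+ 1`:
`sp (up G) (a, y) = (a, sp (up g) y)`.  For `x, x'` with `MinAt · e`: if `e = 0`, both colours are the constant.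
If `e = e' + 1`, then `x 0 = x' 0 = a ∈ [k]`, and the colours are the values at `a` of `c' (sp (up g) (tail x))` and
`c' (sp (up g) (tail x'))`, equal by the claim. -/
def GraStmt : Prop := ∀ (k N : ℕ) (C : Type) [Finite C], 0 < k → ∃ n : ℕ,
  ∀ c : (Fin n → Fin (k + 1)) → C, ∃ f : Fin n → Fin k ⊕ Fin N, IsSub f ∧
    ∀ (x x' : Fin N → Fin (k + 1)) (e : Fin N), MinAt x e → MinAt x' e →
      (∀ e' < e, x e' = x' e') → c (sp (up f) x) = c (sp (up f) x')

/-- A_GRB: the colour depends only on (the wildcard of) the first `∗`.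

Proof.  Induction on `m`.  `m = 0`: `N = 0`.  `m + 1`: let `N'` be the number for `m` and `B` such that every
colouring of `Fin B → Fin k` with colours in `(Fin N' → Fin (k+1)) → C` (a finite type) is constant on a
combinatorial line (`Combinatorics.Line.exists_mono_in_high_dimension`, or `Subspace. ... _fin` with
one wildcard).  `N = B + N'` (`Fin.append` or `Fin.addCases`).  Given `c`, colour `u : Fin B → Fin k` by
`v ↦ c (cs u, v)`; let `w : Fin B → Option (Fin k)` be a line on which this is constant (with value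
`c' : (Fin N' → Fin (k+1)) → C`, `c' v = c (cs (lp w a), v)` for all `a ∈ [k]`).  `c'` has the property of the
hypothesis; let `g'` be the subspace from the claim for `m`.  `g` is: on `Fin B` the letters of `w`, and
the wildcard `0` at the places of the wildcard of `w`; on `Fin N'` the map `g'` with the wildcards raised by `1`.
Let `x, x'` have their first `∗` at `e`.  If `e = 0`: the words `sp (up g) x`, `sp (up g) x'` have their first `∗` at
the first wildcard of `w`, and the same letters before it: equal colours by hypothesis.  If `e = e' + 1`: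
with `a = x 0`, `a' = x' 0` in `[k]` the colours are `c' (sp (up g') (tail x))` and `c' (sp (up g') (tail x'))`. -/
def GrbStmt : Prop := ∀ (k m : ℕ) (C : Type) [Finite C], 0 < k → ∃ N : ℕ,
  ∀ c : (Fin N → Fin (k + 1)) → C,
    (∀ (x x' : Fin N → Fin (k + 1)) (e : Fin N), MinAt x e → MinAt x' e →
      (∀ e' < e, x e' = x' e') → c x = c x') →
    ∃ g : Fin N → Fin k ⊕ Fin m, IsSub g ∧
      ∀ (x x' : Fin m → Fin (k + 1)) (e : Fin m), MinAt x e → MinAt x' e →
        c (sp (up g) x) = c (sp (up g) x')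

/-- A_GRL: the theorem of Graham and Rothschild for lines: all lines of a subspace have the same colour
(the lines over `[k]` are the words over `Fin (k+1)` with at least one `∗`).

Proof.  Let `N` be the number of GRB for `2 m` and `Bool`, `n` the number of GRA for `N` and `Bool`; `f`, `g` from
GRA, GRB (for the colouring `c ∘ sp (up f)`).  Now `c (sp (up (cmp f g)) x)` depends only on the place
`e : Fin (2m)` of the first `∗` of `x`: it is `b e` (`b e` = the colour of the word with `∗` at `e` and `0` at the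
other places).  For one colour at least `m` of the `e` have this colour; choose an increasing injection
`i : Fin m → Fin (2m)` into them (`Finset.orderEmbOfFin`), and `h : Fin (2m) → Fin k ⊕ Fin m` with the
wildcard `t` at `i t` and the letter `0` elsewhere.  `sp (up h) x` has its first `∗` at `i t`, `t` the
place of the first `∗` of `x`.  Take `cmp (cmp f g) h`. -/
def GrlStmt : Prop := ∀ k m : ℕ, 0 < k → ∃ n : ℕ, ∀ c : (Fin n → Fin (k + 1)) → Bool,
  ∃ f : Fin n → Fin k ⊕ Fin m, IsSub f ∧ ∃ b : Bool, ∀ x : Fin m → Fin (k + 1),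
    (∃ e, x e = Fin.last k) → c (sp (up f) x) = b

/-! ## 4. The density increment -/

/-- A_PRB: the density Hales-Jewett theorem for events.

Proof.  Let `n₀ ≥ 1` with `DH k (δ/2) n₀`, `θ = (δ/2)/(k+1)^n₀`.  Let `m ≥ n₀`; for `t : Fin n₀ → Fin k` let `t⁺`
be the word of length `m` which is `t`, continued by the letter `0`.  For `y : Y` let
`B_y = {t : y ∈ E t⁺}`.  `∑_y |B_y| = ∑_t |E t⁺| ≥ δ |Y| k^n₀`, so at least `(δ/2) |Y|` of the `y` have
`|B_y| ≥ (δ/2) k^n₀`, and for these there is a line `w_y` inside of `B_y`.  There are at most `(k+1)^n₀`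
words `w`, so one `w` is `w_y` for at least `θ |Y|` of the `y`.  Continue `w` by the letter `0`. -/
def PrbStmt : Prop := ∀ k : ℕ, 0 < k → DHJ k → ∀ δ : ℝ, 0 < δ → ∃ (n : ℕ) (θ : ℝ), 0 < θ ∧
  ∀ m : ℕ, n ≤ m → ∀ (Y : Type) [Fintype Y] (E : (Fin m → Fin k) → Finset Y),
    (∀ t, δ * Fintype.card Y ≤ (E t).card) →
    ∃ w : Fin m → Option (Fin k), IsLine w ∧ ∃ B : Finset Y, θ * Fintype.card Y ≤ B.card ∧
      ∀ y ∈ B, ∀ a, y ∈ E (lp w a)

/-- A_COR: the density increment on an intersection of insensitive sets.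

Notation: `Y` = the words on `Fin r`, `K = (k+1)^m`, `κ = (k/(k+1))^m`.

Proof.  For `y ∈ Y` let `A^y = {x : Fin m → Fin (k+1) | (sp (up f) x, y) ∈ A}`,
`C_a^y = {x | (cs (sp f (rp x a)), y) ∈ A}`, `a : Fin k`, `C^y = ⋂_a C_a^y`.  `C_a^y` is `(a, ∗)`-insensitive
(`Eqv a x x'` implies `rp x a = rp x' a`).  If `x ∈ A^y ∩ C^y` then `x` has no letter `∗`: otherwise the
word with the wildcard at the places `i` where `f i` is a wildcard `e` with `x e = ∗`, and the letters of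
`sp (up f) x`, `y` elsewhere, is a line inside of `A` (the letter `a.castSucc` gives `(cs (sp f (rp x a)), y)`,
the letter `∗` gives `(sp (up f) x, y)`).  So `|A^y ∩ C^y| ≤ k^m = κ K`.
`∑_y |A^y| = ∑_x |{y : (sp (up f) x, y) ∈ A}| ≥ (δ - η) K |Y|`, and `∑_y |C^y| ≥ θ |Y| (K - k^m)` (all `x`
with a letter `∗`).  So `∑_y (|A^y \ C^y| - (δ+γ) (K - |C^y|)) ≥
|Y| K (δ - η - κ - (δ+γ) (1 - θ (1 - κ)))`, and some `y` has
`∑_{x ∉ C^y} (1_{A^y}(x) - (δ+γ)) ≥ K ((δ+γ) θ (1-κ) - γ - η - κ)`.  The complement of `C^y` is the disjoint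
union of the `k` sets `E_a = {x : x ∉ C_a^y, x ∈ C_b^y for b < a}`; so one of them has a sum of at least
`1/k` of this.  `E_a = {x : x ∈ D_b for all b ≤ a}`, `D_b = C_b^y` for `b < a`, `D_a` = the complement of
`C_a^y` (also insensitive). -/
def CorStmt : Prop := ∀ (k l m r : ℕ) (δ η θ γ : ℝ) (f : Fin l → Fin k ⊕ Fin m)
  (A : Finset (Fin l ⊕ Fin r → Fin (k + 1))), 0 < k → IsSub f → 0 ≤ δ + γ →
  (¬ ∃ w : Fin l ⊕ Fin r → Option (Fin (k + 1)), IsLine w ∧ ∀ a, lp w a ∈ A) →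
  (∀ x : Fin l → Fin (k + 1), (δ - η) * ((k : ℝ) + 1) ^ r ≤
    (univ.filter fun y : Fin r → Fin (k + 1) => Sum.elim x y ∈ A).card) →
  (∀ x : Fin m → Fin (k + 1), (∃ e, x e = Fin.last k) → θ * ((k : ℝ) + 1) ^ r ≤
    (univ.filter fun y : Fin r → Fin (k + 1) =>
      ∀ a : Fin k, Sum.elim (cs (sp f (rp x a))) y ∈ A).card) →
  ∃ (y : Fin r → Fin (k + 1)) (a : Fin k) (D : Fin k → Finset (Fin m → Fin (k + 1)))
    (E : Finset (Fin m → Fin (k + 1))), (∀ b, Ins b (D b)) ∧ (∀ x, x ∈ E ↔ ∀ b ≤ a, x ∈ D b) ∧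
    ((δ + γ) * θ * (1 - ((k : ℝ) / (k + 1)) ^ m) - γ - η - ((k : ℝ) / (k + 1)) ^ m)
      * ((k : ℝ) + 1) ^ m / k ≤
      ∑ x ∈ E, ((if Sum.elim (sp (up f) x) y ∈ A then (1 : ℝ) else 0) - (δ + γ))

/-- A_CRT: from `k` to `k + 1` letters.

Proof.  Let `P(δ)` be `∃ n, DH (k+1) δ n`; `P` is monotone, and `P(2)` (no set has density `2`).  Suppose that
`P(δ₀)` is false for some `δ₀ > 0`, and let `δ* = inf {δ ≥ 0 : P(δ)}`: `δ₀ ≤ δ* ≤ 1` (`P(δ)` for `δ > 1`), and
`P(δ)` for all `δ > δ*`.  MDH, FND, PRT, PAR give `PA k`.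
(1) `n₀`, `θ` from PRB for `δ*/2`; we may take `θ ≤ 1`.  `γ = δ* θ/8`.
(2) `m` with `DH (k+1) (δ* + γ) m`.
(3) `m₁ ≥ n₀` so large that `(k/(k+1))^m₁ ≤ δ* θ/16` and that `PA k` holds on all `ι` with `|ι| ≥ m₁` for
`m`, `δ* θ/(4k)` and all `S = {b : b ≤ a}`, `a : Fin k`.
(4) `l` from GRL for `k`, `m₁`.  (5) `η = δ* θ/16`, `ε = η/(2 (k+1)^l)`.  (6) `r` with `DH (k+1) (δ* + ε) r`.
Claim: every `A : Finset (Fin l ⊕ Fin r → Fin (k+1))` with `|A| ≥ (δ* - ε) (k+1)^(l+r)` contains a line.  With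
MON (`Fin l ⊕ Fin r ≃ Fin (l+r)`) this gives `P(δ* - ε)`: contradiction to the choice of `δ*`.
Suppose that `A` contains no line.  For `x` on `Fin l` let `A_x = {y : (x, y) ∈ A}`.  `A_x` contains no line, so
`|A_x| < (δ* + ε) (k+1)^r`.  Since `∑_x |A_x| ≥ (δ* - ε) (k+1)^(l+r)`, every
`|A_x| ≥ (δ* - 2 ε (k+1)^l) (k+1)^r = (δ* - η) (k+1)^r ≥ (δ*/2) (k+1)^r`.  Colour `x : Fin l → Fin (k+1)` by
`true` iff `θ (k+1)^r ≤ |{y : ∀ a, (cs (rp x a), y) ∈ A}|`.  GRL: `f : Fin l → Fin k ⊕ Fin m₁`, colour `b`.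
PRB with `Y` = the words on `Fin r`, `E t = A_{cs (sp f t)}`, `t : Fin m₁ → Fin k`: a line `w` of
`Fin m₁ → Fin k`; for `x i = ∗` (`w i = none`), `x i = (w i).castSucc` (otherwise) the word `sp (up f) x` has colour
`true` (`rp (sp (up f) x) a = sp f (rp x a)`, `rp x a = lp w a`).  So `b = true`, and the hypotheses of COR hold
(with `m₁` for `m`, `δ*` for `δ`).  COR: `y`, `a`, `D`, `E` with `∑_E φ ≥ (δ* θ/(2k)) (k+1)^m₁`,
`φ x = 1_{A^y}(x) - (δ* + γ)` (`(δ*+γ) θ (1-κ) - γ - η - κ ≥ δ* θ (15/16 - 1/8 - 1/16 - 1/16) ≥ δ* θ/2`, and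
`δ* θ ≤ 1`).  By `PA k` there is a subspace `g : Fin m₁ → Fin (k+1) ⊕ Fin m` with `∑_z φ (sp g z) > 0`, i.e.
the set of the `z : Fin m → Fin (k+1)` with `(sp (up f) (sp g z), y) ∈ A` has more than `(δ* + γ) (k+1)^m`
elements; it contains a line by (2), and this gives a line in `A`: contradiction. -/
def CrtStmt : Prop := ∀ k : ℕ, 0 < k → PA k → DHJ k → DHJ (k + 1)

/-- A_DHA: the density Hales-Jewett theorem.

Proof.  Induction with CRT, MDH, FND, PRT, PAR.  `k = 1`: a set with `|A| > 0` is the set of the only word. -/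
def DhaStmt : Prop := ∀ k : ℕ, 0 < k → DHJ k

/-! ## 5. Szemerédi's theorem -/

/-- A_SZE.

Proof.  `K = 0`: the sum is `N²`, `c = 1`.  Let `K ≥ 1`, `n ≥ 1` with `DH K (δ/4) n`, and
`A = {x : f x ≥ δ/2}`: `|A| ≥ (δ/2) N` (`∑ f ≤ |A| + (δ/2) N`).  For `a : ZMod N`, `b : Fin n → ZMod N`,
`x : Fin n → Fin K` let `φ_{a,b}(x) = a + ∑_i b_i x_i`.  For fixed `x`, `b` the map `a ↦ φ_{a,b}(x)` is a
bijection, so the average over `(a, b)` of the density of `φ_{a,b}⁻¹(A)` is at least `δ/2`, and at least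
`(δ/4) N^(n+1)` pairs `(a, b)` have density at least `δ/4`; for them `φ_{a,b}⁻¹(A)` contains a line
`w_{a,b}`.  For one `w` at least `c₀ N^(n+1)` pairs have `w_{a,b} = w`, `c₀ = (δ/4)/(K+1)^n`.  For a fixed line `w`:
`φ_{a,b}(lp w j) = a' + j d`, `a' = a + ∑_{w i ≠ none} b_i w_i`, `d = ∑_{w i = none} b_i`, and the map
`(a, b) ↦ (a', d)` is a surjective homomorphism of groups (`w` has a wildcard `i₀`: change `b_{i₀}` and `a`), so
all its fibres have `N^(n-1)` elements.  So at least `c₀ N²` pairs `(a', d)` have `a' + j d ∈ A` for all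
`j < K`, and each contributes at least `(δ/2)^K`: `c = c₀ (δ/2)^K`. -/
def SzeRowStmt : Prop := DhaStmt → SzeStmt

end Pool.Agent.GT
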