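import Pool.Agent.GT.DefsB

/-!
# Squad GT (MP_ba5221_nt), block B: statements of the rows

Target: `RelStmt` (relative Szemerédi theorem, Conlon-Fox-Zhao) from `SzeStmt`.

All sets `X` are finite and nonempty, `Ω = Fin K → X`.
-/

namespace Pool.Agent.GT

open Finset

/-! ## Cauchy-Schwarz and the strong linear forms condition -/

/-- **B_CSW** (uses: nothing).  One Cauchy-Schwarz step: `T` and `V` do not depend on `x_j`; `V` and
`R` do not depend on `y_j`.

Proof.  With `Rb (x, y) = av (fun s => R (update x j s, y))` we have `av (T R) = av (T Rb)`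
(`av_prod`, `av_comm`, `av_update` in the first variable, `T` does not depend on `x_j`).  By `av_sq_le`
`(av T Rb)^2 ≤ av V * av (V Rb^2)`.  And `av (V Rb^2) = av (V (z) R (z) R (update z.1 j (z.2 j), z.2))`:
apply `av_update` to the right hand side in the variable `x_j` (new value `s`) and in the variable
`y_j` (new value `s'`): it becomes the average of `V (x, y) R (update x j s, y) R (update x j s', y)`, and
the average over `s, s'` of the last two factors is `Rb (x, y)^2`.  In particular it is nonnegative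
(`V ≥ |T| ≥ 0`). -/
def CswStmt : Prop := ∀ (K : ℕ) (X : Type) [Fintype X] [Nonempty X] (j : Fin K)
  (T V R : (Fin K → X) × (Fin K → X) → ℝ),
  (∀ z, |T z| ≤ V z) →
  (∀ x y s, T (Function.update x j s, y) = T (x, y)) →
  (∀ x y s, V (Function.update x j s, y) = V (x, y)) →
  (∀ x y s, V (x, Function.update y j s) = V (x, y)) →
  (∀ x y s, R (x, Function.update y j s) = R (x, y)) →
  0 ≤ av (fun z => V z * (R z * R (Function.update z.1 j (z.2 j), z.2))) ∧
  (av (fun z => T z * R z)) ^ 2 ≤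
    av V * av (fun z => V z * (R z * R (Function.update z.1 j (z.2 j), z.2)))

/-- **B_STP** (uses: CswStmt).  The step `J → insert j J` of the argument.

Proof.  Apply `CswStmt` with
`T z = ∏ ω ∈ cube (insert a J), p j (ω a) (mix ω z.1 z.2)`,
`V z = ∏ ω ∈ cube (insert a J), P j (ω a) (mix ω z.1 z.2)`,
`R z =` the product of all other factors of `EJ a F p P J` (so that `EJ a F p P J = av (T R)`).
All `ω` in question have `ω j = false` (`j ∉ J`, `j ≠ a`), so nothing depends on `y_j`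
(`mix ω x (update y j s) = mix ω x y`), and `T`, `V` do not depend on `x_j` (`mix_update_left`, `Ind j (p j b)`,
`Ind j (P j b)` since `P j b = μ j` or `1`).  For `ω j = false`:
`mix ω (update x j (y j)) y = mix (update ω j true) x y`; and the map `ω ↦ (ω, update ω j true)` gives
`∏ ω ∈ cube (insert j L), H ω = (∏ ω ∈ cube L, H ω) * (∏ ω ∈ cube L, H (update ω j true))` for `j ∉ L`
(`cube (insert j L)` is the disjoint union of `cube L` and its image).  Apply this with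
`L = J` (factor `F`), `L = insert a (J.erase i)` for `i ∈ J`, `L = insert a J` for the
remaining `i`; note `(insert j J).erase j = J`, `(insert j J).erase i = insert j (J.erase i)`, and
`(update ω j true) a = ω a`.  So `V z * (R z * R (update z.1 j (z.2 j), z.2))` is exactly the function
in `EJ a F p P (insert j J)`.  Finally `0 ≤ av V ≤ 1 + ε`: `V` is the product over
`S = {(j, ω) : ω ∈ cube (insert a J), P j (ω a) = μ j}` of `μ j (mix ω ..)` (the other factors are `1`),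
and `HLF μ ε`. -/
def StpStmt : Prop := ∀ (K : ℕ) (X : Type) [Fintype X] [Nonempty X] (ε : ℝ)
  (μ : Fin K → (Fin K → X) → ℝ) (a : Fin K) (F : (Fin K → X) → ℝ)
  (p P : Fin K → Bool → (Fin K → X) → ℝ) (J : Finset (Fin K)) (j : Fin K),
  (∀ i, Ind i (μ i)) → HLF μ ε →
  (∀ i b, P i b = μ i ∨ P i b = fun _ => 1) →
  (∀ i b, Ind i (p i b)) → (∀ i b x, |p i b x| ≤ P i b x) →
  j ≠ a → j ∉ J → a ∉ J →
  EJ a F p P J ^ 2 ≤ (1 + ε) * EJ a F p P (insert j J)

/-- **B_EXP** (uses: nothing).  The end of the argument: all coordinates except `a` are doubled.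

Proof.  The last product in `EJ a _ p P (univ.erase a)` is empty.  Expand
`∏ ω ∈ cube (univ.erase a), (μ a (mix ω ..) - 1)
  = ∑ T ∈ (cube (univ.erase a)).powerset, (-1)^(card (cube \ T)) ∏ ω ∈ T, μ a (mix ω ..)`
(`Finset.prod_sub` or `Finset.prod_add`).  For every `T` the average of
`∏ ω ∈ T, μ a (mix ω ..) * ∏ i ∈ univ.erase a, ∏ ω ∈ cube (insert a ((univ.erase a).erase i)), P i (ω a) (mix ω ..)`
is the average of `∏ p ∈ S, μ p.1 (mix p.2 ..)` with
`S = {(a, ω) : ω ∈ T} ∪ {(i, ω) : i ≠ a, ω i = false, P i (ω a) = μ i}`, hence `1 + O(ε)` by `HLF`.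
The alternating sum of the `1` is `0` because `cube (univ.erase a)` is not empty, and there are at most
`2 ^ (2 ^ K)` sets `T`.  (`0 ≤ ε` follows from `HLF` with `S = ∅`.) -/
def ExpStmt : Prop := ∀ (K : ℕ) (X : Type) [Fintype X] [Nonempty X] (ε : ℝ)
  (μ : Fin K → (Fin K → X) → ℝ) (a : Fin K) (p P : Fin K → Bool → (Fin K → X) → ℝ),
  HLF μ ε → (∀ i b, P i b = μ i ∨ P i b = fun _ => 1) →
  |EJ a (fun x => μ a x - 1) p P (univ.erase a)| ≤ 2 ^ (2 ^ K) * ε

/-- **B_SLF** (uses: StpStmt, ExpStmt).  The strong linear forms condition.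

Proof.  The average is `EJ a (μ a - 1) p P ∅` (`cube ∅ = {fun _ => false}`,
`cube {a} = {fun _ => false, update (fun _ => false) a true}`, `mix` of the second one is `update x a (y a)`).
Prove by induction on the number of elements of `(univ.erase a) \ J`: for every `η > 0` there is
`ε ∈ (0, 1]` such that `|EJ a (μ a - 1) p P J| ≤ η` for all data with `HLF μ ε`, `J ⊆ univ.erase a`.  Start:
`ExpStmt`.  Step: `EJ J ^ 2 ≤ (1 + ε) EJ (insert j J) ≤ 2 * (η^2 / 2)`.  (`HLF μ ε` is monotone in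
`ε`.) -/
def SlfStmt : Prop := ∀ (K : ℕ) (η : ℝ), 0 < η → ∃ ε : ℝ, 0 < ε ∧
  ∀ (X : Type) [Fintype X] [Nonempty X] (μ : Fin K → (Fin K → X) → ℝ) (a : Fin K)
    (p P : Fin K → Bool → (Fin K → X) → ℝ),
  (∀ i, Ind i (μ i)) → HLF μ ε →
  (∀ i b, P i b = μ i ∨ P i b = fun _ => 1) →
  (∀ i b, Ind i (p i b)) → (∀ i b x, |p i b x| ≤ P i b x) →
  |av (fun z : (Fin K → X) × (Fin K → X) => (μ a z.1 - 1) *
    ∏ j ∈ univ.erase a, (p j false z.1 * p j true (Function.update z.1 a (z.2 a))))| ≤ η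

/-- **B_CUT** (uses: SlfStmt).  `μ a - 1` is small in the cut norm.

Proof.  `SlfStmt` with `p j false = u j`, `p j true = 1`, `P = 1`; the function does not depend on
`z.2` (`av_prod`, `av_const`). -/
def CutStmt : Prop := ∀ (K : ℕ) (η : ℝ), 0 < η → ∃ ε : ℝ, 0 < ε ∧
  ∀ (X : Type) [Fintype X] [Nonempty X] (μ : Fin K → (Fin K → X) → ℝ),
  (∀ i, Ind i (μ i)) → HLF μ ε → ∀ a : Fin K, Cut a (fun x => μ a x - 1) η

/-! ## The counting lemma -/

/-- **B_DEN** (uses: nothing).  The counting lemma for bounded functions.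

Proof.  For `A : Finset (Fin K)` put `D A = av (fun x => (∏ j ∈ A, g j x) * ∏ j ∈ univ \ A, h j x)`;
induction on `A`: `|D A - D ∅| ≤ A.card * ε`.  Step (`i ∉ A`): `D (insert i A) - D A` is the average of
`(g i - h i) * (∏ j ∈ A, g j) * ∏ j ∈ (univ \ A).erase i, h j`, which is of the form in `Cut i` with
`u j = g j` for `j ∈ A` and `u j = h j` otherwise. -/
def DenStmt : Prop := ∀ (K : ℕ) (X : Type) [Fintype X] [Nonempty X] (ε : ℝ)
  (g h : Fin K → (Fin K → X) → ℝ),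
  (∀ j, Ind j (g j)) → (∀ j, Ind j (h j)) →
  (∀ j x, 0 ≤ g j x) → (∀ j x, g j x ≤ 1) → (∀ j x, 0 ≤ h j x) → (∀ j x, h j x ≤ 1) →
  (∀ j, Cut j (fun x => g j x - h j x) ε) →
  |av (fun x => ∏ j, g j x) - av (fun x => ∏ j, h j x)| ≤ K * ε

/-- **B_NUP** (uses: nothing).  The marginal `ν'` of the majorants is close to `1` in `L²`.

Proof.  `(ν' - 1)^2 = ν'^2 - 2 ν' + 1`.  `av ν' = av (fun x => ∏ j ≠ a, P j x)` (`av_update`), which is
`1 + O(ε)` by `HLF` with `S = {(j, fun _ => false) : j ≠ a, P j = μ j}` (`mix_false`).  And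
`av (ν'^2) = av (fun z => ∏ j ≠ a, P j z.1 * P j (update z.1 a (z.2 a)))` (write `ν'(x)^2` as the average
over `s, s'`, use `av_update` backwards for `x_a` and `y_a`), which is `1 + O(ε)` by `HLF` with
`S = {(j, ω) : j ≠ a, P j = μ j, ω = 0 or ω = update 0 a true}`.  So the average is at most
`(1 + ε) - 2 (1 - ε) + 1 = 3 ε`. -/
def NupStmt : Prop := ∀ (K : ℕ) (X : Type) [Fintype X] [Nonempty X] (ε : ℝ)
  (μ P : Fin K → (Fin K → X) → ℝ) (a : Fin K),
  HLF μ ε → (∀ i, P i = μ i ∨ P i = fun _ => 1) →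
  av (fun x => (av (fun s => ∏ j ∈ univ.erase a, P j (Function.update x a s)) - 1) ^ 2) ≤ 3 * ε

/-- the counting lemma with the set `A` of sparse indices -/
def CN (K : ℕ) (A : Finset (Fin K)) : Prop := ∀ η : ℝ, 0 < η → ∃ ε : ℝ, 0 < ε ∧
  ∀ (X : Type) [Fintype X] [Nonempty X] (μ g h : Fin K → (Fin K → X) → ℝ),
  (∀ j, Ind j (μ j)) → (∀ j, Ind j (g j)) → (∀ j, Ind j (h j)) →
  (∀ j x, 0 ≤ μ j x) → HLF μ ε →
  (∀ j x, 0 ≤ g j x) → (∀ j ∈ A, ∀ x, g j x ≤ μ j x) → (∀ j, j ∉ A → ∀ x, g j x ≤ 1) →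
  (∀ j x, 0 ≤ h j x) → (∀ j x, h j x ≤ 1) →
  (∀ j, Cut j (fun x => g j x - h j x) ε) →
  |av (fun x => ∏ j, g j x) - av (fun x => ∏ j, h j x)| ≤ η

/-- **B_ONE** (uses: SlfStmt).  In the average of a square of marginals the weight `μ a` can be replaced
by `1`.

Proof.  `g'(x)^2`, `g'(x) h'(x)`, `h'(x)^2` with `g'(x) = av (fun s => ∏ j ≠ a, g j (update x a s))` are
averages over `s, s'` of products (`av_mul_left`, `av_mul_right`), so by `av_update` (in the variables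
`x_a`, `y_a`; `μ a` does not depend on `x_a`)
`av (fun x => (μ a x - 1) * (g' x * h' x))
  = av (fun z => (μ a z.1 - 1) * ∏ j ≠ a, (g j z.1 * h j (update z.1 a (z.2 a))))`, which is at most `η / 4` by
`SlfStmt` (`p j false = g j`, `p j true = h j`, `P j false = μ j` or `1`, `P j true = 1`); the same for the
two squares.  `(g' - h')^2 = g'^2 - 2 g' h' + h'^2`. -/
def OneStmt : Prop := ∀ (K : ℕ) (A : Finset (Fin K)) (a : Fin K) (η : ℝ), 0 < η → ∃ ε : ℝ, 0 < ε ∧
  ∀ (X : Type) [Fintype X] [Nonempty X] (μ g h : Fin K → (Fin K → X) → ℝ),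
  (∀ j, Ind j (μ j)) → (∀ j, Ind j (g j)) → (∀ j, Ind j (h j)) → HLF μ ε →
  (∀ j x, 0 ≤ g j x) → (∀ j ∈ A, ∀ x, g j x ≤ μ j x) → (∀ j, j ∉ A → ∀ x, g j x ≤ 1) →
  (∀ j x, 0 ≤ h j x) → (∀ j x, h j x ≤ 1) →
  |av (fun x => (μ a x - 1) *
    (av (fun s => ∏ j ∈ univ.erase a, g j (Function.update x a s)) -
      av (fun s => ∏ j ∈ univ.erase a, h j (Function.update x a s))) ^ 2)| ≤ η

/-- **B_CAP** (uses: NupStmt).  The `L²` distance of the two marginals (the capping argument): if the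
counting lemma holds for `A` then `g'` and `h'` are close in `L²`.

Proof.  Let `g'`, `h'`, `ν'` be the marginals (averages over the coordinate `a` of the products over
`j ≠ a`) of `g`, `h` and `P j = μ j` (`j ∈ A`), `1` (`j ∉ A`).  Put `m x = min (g' x) 1`.  Then
`(g' - h')^2 = (g' - h') (g' - m) + (g' - h') m - (g' - h') h'`.
(1) `0 ≤ g' - m ≤ |ν' - 1|` (as `g' ≤ ν'`), `|g' - h'| ≤ ν' + 1 ≤ |ν' - 1| + 2`, so the average of the
first term is at most `av (ν' - 1)^2 + 2 av |ν' - 1| ≤ 3 ε + 2 sqrt (3 ε)` (`NupStmt`,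
`av |f| ≤ sqrt (av f^2)` from `av_sq_le` with `T = V = 1`).
(2) `av (fun x => g' x * m x) = av (fun x => (∏ j ≠ a, g j x) * m x)` (`av_update`; `m` does not depend on
`x_a`), and this is `av (∏ j, G j)` with `G j = g j` (`j ≠ a`), `G a = m`; similarly for `h`
with `H j = h j`, `H a = m`.  `CN K A` (the weight `μ` is the same; `a ∉ A`, `0 ≤ m ≤ 1`,
`Cut a (m - m) = 0`) gives `|av (g' m) - av (h' m)| ≤ η'`.  (3) The same with `h'` in the place of `m`.
So the average is at most `3 ε + 2 sqrt (3 ε) + 2 η'`; choose `η' = η / 4` and `ε` small. -/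
def CapStmt : Prop := ∀ (K : ℕ) (A : Finset (Fin K)) (a : Fin K), a ∉ A → CN K A →
  ∀ η : ℝ, 0 < η → ∃ ε : ℝ, 0 < ε ∧
  ∀ (X : Type) [Fintype X] [Nonempty X] (μ g h : Fin K → (Fin K → X) → ℝ),
  (∀ j, Ind j (μ j)) → (∀ j, Ind j (g j)) → (∀ j, Ind j (h j)) →
  (∀ j x, 0 ≤ μ j x) → HLF μ ε →
  (∀ j x, 0 ≤ g j x) → (∀ j ∈ A, ∀ x, g j x ≤ μ j x) → (∀ j, j ∉ A → j ≠ a → ∀ x, g j x ≤ 1) →
  (∀ j x, 0 ≤ h j x) → (∀ j x, h j x ≤ 1) →
  (∀ j, Cut j (fun x => g j x - h j x) ε) →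
  av (fun x => (av (fun s => ∏ j ∈ univ.erase a, g j (Function.update x a s)) -
      av (fun s => ∏ j ∈ univ.erase a, h j (Function.update x a s))) ^ 2) ≤ η

/-- **B_CNS** (uses: OneStmt, CapStmt).  The step of the counting lemma.

Proof.  With the marginals `g'`, `h'` (averages over the coordinate `a` of `∏ j ≠ a, g j` resp. `h j`):
`av (∏ j, g j) = av (g a * g')` and `av (∏ j, h j) = av (h a * h')` (`av_update`, `g a`, `h a` do not
depend on `x_a`), so the difference is `av (g a * (g' - h')) + av ((g a - h a) * h')`.  The second term is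
`av ((g a - h a) * ∏ j ≠ a, h j)` (`av_update` again), at most `ε` by `Cut a`.  The first: `av_sq_le` with
`T = g a`, `V = μ a`, `R = g' - h'`: the square is at most
`av (μ a) * av (μ a (g' - h')^2) ≤ (1 + ε) * (av ((μ a - 1) (g' - h')^2) + av (g' - h')^2)`; `HLF` with
`S = {(a, fun _ => false)}`; the first is small by `OneStmt` (for `A`: `g a` does not occur, so apply it
with `g a` replaced by `0`, or to `insert a A`), the second by `CapStmt`. -/
def CnsStmt : Prop := ∀ (K : ℕ) (A : Finset (Fin K)) (a : Fin K), a ∉ A → CN K A → CN K (insert a A)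

/-- **B_CNT** (uses: DenStmt, CnsStmt).  The counting lemma: induction on `A` (`Finset.induction_on`);
for `A = ∅` use `DenStmt` with `ε = η / (K + 1)`. -/
def CntStmt : Prop := ∀ (K : ℕ) (A : Finset (Fin K)), CN K A

/-! ## Translation from `ZMod N` -/

/-- **B_PSA** (uses: nothing).  The average of `∏ j, f j (psi j x)` is the average over progressions.

Proof.  `psi j x = A x - j * D x` with `A x = ∑ i, i * x i`, `D x = ∑ i, x i`.  The map
`x ↦ (A x, - D x)` is a surjective homomorphism `(Fin K → ZMod N) → ZMod N × ZMod N` (given `(a, d)` take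
`x 1 = a`, `x 0 = - d - a`, other coordinates `0`; this uses `2 ≤ K`), so its fibres have the same number
of elements (a fibre is a translate of the kernel). -/
def PsaStmt : Prop := ∀ (K N : ℕ) [NeZero N], 2 ≤ K → ∀ f : Fin K → ZMod N → ℝ,
  av (fun x : Fin K → ZMod N => ∏ j, f j (psi j x)) =
    av (fun q : ZMod N × ZMod N => ∏ j : Fin K, f j (q.1 + ((j : ℕ) : ZMod N) * q.2))

/-- **B_PSC** (uses: nothing).  From the canonical cut norm to the cut norm at `j`.

Proof.  `psi j x = ∑ i ≠ j, (i - j) x_i`, and `i - j` is a unit of `ZMod N` for `i ≠ j` (it is `±` a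
number between `1` and `K`, which is coprime to `N`).  The map
`(t, y) ↦ x`, `x j = t`, `x (j.succAbove i) = (j.succAbove i - j)⁻¹ * y i` is a bijection
`ZMod N × (Fin K → ZMod N) ≃ (Fin (K + 1) → ZMod N)` (`Fin.insertNthEquiv` or `Equiv.piFinSuccAbove`, composed with
`Equiv.piCongrRight` of multiplications by units), and `psi j x = ∑ i, y i`.  So the average in
`Cut j` is the average over `t` of averages as in `C0` with `u' i y = u (j.succAbove i) x` (this does not depend on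
`y i`; `∏ i ∈ univ.erase j` is the product over the `j.succAbove i`, `Fin.univ_succAbove`), each at most `ε` in
absolute value. -/
def PscStmt : Prop := ∀ (K N : ℕ) [NeZero N], N.Coprime K.factorial → ∀ (h : ZMod N → ℝ) (ε : ℝ),
  C0 N K h ε → ∀ j : Fin (K + 1), Cut j (fun x => h (psi j x)) ε

/-- **B_PSD** (uses: nothing).  From the cut norm at `0` to the canonical cut norm.

Proof.  As in `PscStmt` for `j = 0`: `psi 0 x = ∑ i, (i + 1) x (i.succ)`.  Given `u` in `C0`, put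
`u' (i.succ) x = u i (fun l => (l + 1) * x (l.succ))` (and `u' 0 = 1`); the average of
`h (psi 0 x) * ∏ i ∈ univ.erase 0, u' i x` over `x` is the average over `x 0` and over
`y i = (i + 1) * x (i.succ)` of `h (∑ y) * ∏ u i y`. -/
def PsdStmt : Prop := ∀ (K N : ℕ) [NeZero N], N.Coprime K.factorial → ∀ (h : ZMod N → ℝ) (ε : ℝ),
  Cut (0 : Fin (K + 1)) (fun x => h (psi 0 x)) ε → C0 N K h ε

/-! ## The dense model theorem -/

/-- **B_SEP** (uses: nothing).  Separation (Hahn-Banach in finite dimension).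

Proof.  `D = {g | ∀ s, 0 ≤ g s ∧ g s ≤ 1}` is compact (`isCompact_univ_pi`/`Set.Icc`), and for `φ ∈ G` the
set `{g | η < av ((f - g) φ)}` is open; by compactness finitely many `φ_1, ..., φ_n ∈ G` suffice for all
`g ∈ D` (`D` is not empty, so `n ≥ 1`).  The image `Q` of `D` under the affine map
`g ↦ (av ((f - g) φ_i))_i` in `Fin n → ℝ` is compact and convex and does not meet the closed convex set
`C = {v | ∀ i, v i ≤ η}`.  `geometric_hahn_banach_closed_compact` gives a linear `ℓ` and `u < v` with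
`ℓ c < u` for `c ∈ C`, `v < ℓ q` for `q ∈ Q`.  With `ℓ v = ∑ ℓ_i v_i`: `ℓ_i ≥ 0` (otherwise `ℓ` is unbounded above
on `C`: points `η - t e_i`), `L = ∑ ℓ_i > 0` (else `ℓ = 0`), and for `φ = ∑ (ℓ_i / L) φ_i ∈ convexHull ℝ G`:
`L * av ((f - g) φ) = ℓ (q) > ℓ (η, ..., η) = L η`. -/
def SepStmt : Prop := ∀ (Z : Type) [Fintype Z] [Nonempty Z] (G : Set (Z → ℝ)) (f : Z → ℝ) (η : ℝ),
  (∀ g : Z → ℝ, (∀ s, 0 ≤ g s ∧ g s ≤ 1) → ∃ φ ∈ G, η < av (fun s => (f s - g s) * φ s)) →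
  ∃ φ ∈ convexHull ℝ G, ∀ g : Z → ℝ, (∀ s, 0 ≤ g s ∧ g s ≤ 1) →
    η < av (fun s => (f s - g s) * φ s)

/-- **B_POL** (uses: nothing).  Weierstrass approximation of `max x 0` on `[-1, 1]`
(`exists_polynomial_near_continuousMap` / `exists_polynomial_near_of_continuousOn`; `Polynomial.eval_eq_sum_range`). -/
def PolStmt : Prop := ∀ η : ℝ, 0 < η → ∃ (n : ℕ) (c : ℕ → ℝ), ∀ x : ℝ, |x| ≤ 1 →
  |max x 0 - ∑ m ∈ range n, c m * x ^ m| ≤ η

/-- **B_HUL** (uses: nothing).  If products of two elements of `G` are in the convex hull `H` of `G` then `H`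
is closed under products.

Proof.  For fixed `ψ ∈ G` the set of `φ` with `φ ψ ∈ H` is convex and contains `G`, hence contains `H`
(`convexHull_min`).  Then for fixed `φ ∈ H` the set of `ψ` with `φ ψ ∈ H` is convex and contains `G`.
Powers by induction (`φ ^ 0 = 1 ∈ G`). -/
def HulStmt : Prop := ∀ (Z : Type) (G : Set (Z → ℝ)), (fun _ => 1) ∈ G →
  (∀ φ ∈ G, ∀ ψ ∈ G, (fun s => φ s * ψ s) ∈ convexHull ℝ G) →
  ∀ φ ∈ convexHull ℝ G, ∀ m : ℕ, (fun s => φ s ^ m) ∈ convexHull ℝ G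

/-- **B_DMA** (uses: SepStmt, PolStmt, HulStmt).  The abstract dense model theorem.

Proof.  Put `η' = η / 8`, take `n, c` from `PolStmt` for `η'`, `Cs = ∑ m ∈ range n, |c m|`,
`ε = min 1 (η / (4 (Cs + 1)))`.  Suppose there is no `g`.  Since `G` is symmetric, for every `g` with values in
`[0, 1]` there is `φ ∈ G` with `η < av ((f - g) φ)`; take `φ ∈ H = convexHull ℝ G` from `SepStmt`; `|φ| ≤ 1`
(`convexHull_min`).  For `g = 1` where `φ > 0`, `0` elsewhere: `g φ = max φ 0`, so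
`η < av (f φ) - av (max φ 0) ≤ av ((ν - 1) max φ 0)` (`f φ ≤ f max φ 0 ≤ ν max φ 0`).  Now
`|max φ 0 - ∑ c m φ ^ m| ≤ η'`, so this is at most
`∑ |c m| |av ((ν - 1) φ ^ m)| + η' av |ν - 1| ≤ Cs ε + η' (av ν + 1) ≤ η / 4 + 3 η / 8 < η`; here
`|av ((ν - 1) ψ)| ≤ ε` for all `ψ ∈ H` (convexity), `φ ^ m ∈ H` (`HulStmt`), `ν ≥ f ≥ 0` and
`av ν ≤ 1 + ε ≤ 2` (`ψ = 1`).  Contradiction. -/
def DmaStmt : Prop := ∀ η : ℝ, 0 < η → ∃ ε : ℝ, 0 < ε ∧
  ∀ (Z : Type) [Fintype Z] [Nonempty Z] (G : Set (Z → ℝ)) (ν f : Z → ℝ),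
  (∀ φ ∈ G, ∀ s, |φ s| ≤ 1) → (fun _ => 1) ∈ G → (∀ φ ∈ G, (fun s => - φ s) ∈ G) →
  (∀ φ ∈ G, ∀ ψ ∈ G, (fun s => φ s * ψ s) ∈ convexHull ℝ G) →
  (∀ φ ∈ G, |av (fun s => (ν s - 1) * φ s)| ≤ ε) →
  (∀ s, 0 ≤ f s) → (∀ s, f s ≤ ν s) →
  ∃ g : Z → ℝ, (∀ s, 0 ≤ g s ∧ g s ≤ 1) ∧ ∀ φ ∈ G, |av (fun s => (f s - g s) * φ s)| ≤ η

/-- the function `s ↦` average of `∏ i, u i y` over the `y` with `∑ i, y i = s` -/
noncomputable def gen (N K : ℕ) [NeZero N] (u : Fin K → (Fin K → ZMod N) → ℝ) (s : ZMod N) : ℝ :=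
  (N : ℝ) * av (fun y : Fin K → ZMod N => (if ∑ i, y i = s then 1 else 0) * ∏ i, u i y)

/-- the set of these functions -/
def GenSet (N K : ℕ) [NeZero N] : Set (ZMod N → ℝ) :=
  {φ | ∃ u : Fin K → (Fin K → ZMod N) → ℝ, (∀ i, Ind i (u i)) ∧ (∀ i y, |u i y| ≤ 1) ∧
    φ = gen N K u}

/-- **B_GNA** (uses: nothing).  Elementary properties of `gen` (here `1 ≤ K`).

Proof.  (1) Exchange the sums: `av_s (h s * N * av_y (1_{∑ y = s} ∏ u)) = av_y (h (∑ y) ∏ u)`, since
`∑ s, h s * 1_{∑ y = s} = h (∑ y)`.  (2) `|gen| ≤ N * av_y 1_{∑ y = s} = 1` (`#{y : ∑ y = s} = N ^ (K - 1)`,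
because `K ≥ 1`: all fibres of the surjective homomorphism `y ↦ ∑ y` have the same size).
(3) `gen N K 1 = 1`.  (4) replace `u 0` by `- u 0` (`∏` changes its sign). (5) is (1) with `u = 1` and (3). -/
def GnaStmt : Prop := ∀ (N K : ℕ) [NeZero N], 1 ≤ K →
  (∀ (h : ZMod N → ℝ) (u : Fin K → (Fin K → ZMod N) → ℝ),
    av (fun s => h s * gen N K u s) = av (fun y : Fin K → ZMod N => h (∑ i, y i) * ∏ i, u i y)) ∧
  (∀ φ ∈ GenSet N K, ∀ s, |φ s| ≤ 1) ∧
  (fun _ => 1) ∈ GenSet N K ∧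
  (∀ φ ∈ GenSet N K, (fun s => - φ s) ∈ GenSet N K) ∧
  (∀ (h : ZMod N → ℝ) (ε : ℝ), C0 N K h ε → |av h| ≤ ε)

/-- **B_GNB** (uses: nothing).  The product of two generators is an average of generators.

Proof.  `gen u s * gen u' s = N^2 av_y av_y' (1_{∑ y = s} 1_{∑ y' = s} ∏ u i y ∏ u' i y')`; put `y' = y + z`
(`av_equiv (Equiv.addLeft y)`): the indicator becomes `1_{∑ y = s} 1_{∑ z = 0}`, and so the product is
`∑ z, w z * gen (fun i y => u i y * u' i (y + z)) s` with the weights `w z = N * 1_{∑ z = 0} / N ^ K`, whose sum is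
`1` (number of `z` with `∑ z = 0` is `N ^ (K - 1)`).  The functions `u i y * u' i (y + z)` do not depend on `y i` and
are bounded by `1`.  `Convex.sum_mem (convex_convexHull ..)`. -/
def GnbStmt : Prop := ∀ (N K : ℕ) [NeZero N], 1 ≤ K →
  ∀ φ ∈ GenSet N K, ∀ ψ ∈ GenSet N K, (fun s => φ s * ψ s) ∈ convexHull ℝ (GenSet N K)

/-- **B_DMT** (uses: DmaStmt, GnaStmt, GnbStmt).  The dense model theorem for the canonical cut norm:
`DmaStmt` for `G = GenSet N K`; by `GnaStmt` (1) `C0 N K h ε` means `|av (h φ)| ≤ ε` for `φ ∈ GenSet N K`. -/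
def DmtStmt : Prop := ∀ (K : ℕ), 1 ≤ K → ∀ η : ℝ, 0 < η → ∃ ε : ℝ, 0 < ε ∧
  ∀ (N : ℕ) [NeZero N] (ν f : ZMod N → ℝ), C0 N K (fun s => ν s - 1) ε →
  (∀ s, 0 ≤ f s) → (∀ s, f s ≤ ν s) →
  ∃ g : ZMod N → ℝ, (∀ s, 0 ≤ g s ∧ g s ≤ 1) ∧ C0 N K (fun s => f s - g s) η

/-- **B_REL** (uses: SzeStmt, CutStmt, CntStmt, PsaStmt, PscStmt, PsdStmt, GnaStmt, DmtStmt).  The
relative Szemerédi theorem.

Proof.  Write `K = k + 1`.  `c₀` from `SzeStmt K (δ / 2)`; `ε₁` from `CntStmt K univ` with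
`η = c₀ / 2`; `η₁ = min ε₁ (δ / 2)`; `ε₂` from `DmtStmt k η₁`; `ε₃` from `CutStmt K ε₂`;
`ε = min ε₁ ε₃`, `c = c₀ / 2`.  Given `N, ν, f`: `μ j x = ν (psi j x)` satisfies `Ind j (μ j)` (the coefficient of `x_j`
in `psi j` is `0`) and `HLF μ ε` (from `LF K ν ε`; the cardinality is `N ^ (2 K)`).  `CutStmt` for `a = 0` and `PsdStmt` give
`C0 N k (ν - 1) ε₂`; `DmtStmt` gives `g` with `C0 N k (f - g) η₁`; `PscStmt` gives `Cut j ((f - g) ∘ psi j) ε₁` (`Cut` and
`HLF` are monotone in `ε`).  `CntStmt` with `A = univ` (`g j := f ∘ psi j`, `h j := g ∘ psi j`) and `PsaStmt`: the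
progression averages of `f` and `g` differ by at most `c₀ / 2`.  `av g ≥ av f - η₁ ≥ δ / 2` (`GnaStmt` (5)), so
the progression average of `g` is at least `c₀` (`SzeStmt`; `∏ j ∈ range K` is `∏ j : Fin K`, `Finset.prod_range`). -/
def RelRowStmt : Prop := SzeStmt → RelStmt

end Pool.Agent.GT
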