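import Pool.Agent.GT.Defs
import Pool.Agent.GT.DefsC

/-!
# Squad GT (MP_ba5221_nt), block C: the majorant

Plan (Selberg weights, no zeta function).  `P` = the primes less than `R` which do not divide `W`, all of
them are large; `ν(x) = G (∑_{a ∣ W x + b'} λ_a)²`.  The linear forms condition: the sum over
`z ∈ (ZMod N)^ι` is translated by `h ∈ [0, D)^ι`, `D` the modulus of the tuple (small against `N`); for most
`z` there is no overflow, and the average over `h` is the product of the local densities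
`α_p(T)`, `1/p` for `|T| = 1`, at most `1/p²` for `|T| ≥ 2`.  Möbius inversion of `α_p` gives
`α_p(T) = ∑_{U ⊆ T} β_p(U) p^{-|T \ U|}`, `β_p(∅) = 1`, `β_p({s}) = 0`, `β_p(U) = O(p^{-2})`, and the sum over the
tuples becomes a product of sums `S(t) = ∑_{t ⊆ a ∪ b} λ_a λ_b ∏_{p ∈ (a ∪ b) \ t} 1/p`, `|G S(t)| ≤ 10^|t|`,
`G S(∅) = 1`.

All rows take the statements of the column `uses` as hypotheses.
-/

open Finset

namespace Pool.Agent.GT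

/-! ## 1. Selberg weights -/

/-- C_LVC.

Proof.  For a set `a` of primes `p ∈ a` iff `p ∣ nn a` (`p` prime); so `nn` is injective on the subsets of `P`, with
values `≥ 1`, `< R` on `lv P R`.  `∅ ∈ lv P R`, `gg ∅ = 1`, `0 ≤ gg r ≤ 1` (`p - 1 ≥ 1`). -/
def LvcStmt : Prop := ∀ (P : Finset ℕ) (R : ℕ), (∀ p ∈ P, p.Prime) → 2 ≤ R →
  (lv P R).card ≤ R ∧ 1 ≤ GG P R ∧ GG P R ≤ R

/-- C_LAM.

Proof.  `λ_∅ = G / G`.  If `nn a ≥ R`, there is no `r ∈ lv P R` with `a ⊆ r` (`nn a ∣ nn r`).  Bound: let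
`X = ∑ gg r'` over the `r' ⊆ P` disjoint from `a` with `nn r' * nn a < R`.  Writing `r = a ∪ r'`,
`∑_{r ∈ lv P R, a ⊆ r} gg r = gg a * X`.  Writing `r = l ∪ r'`, `l = r ∩ a`,
`G = ∑_{l ⊆ a} gg l ∑_{r' disjoint from a, nn l * nn r' < R} gg r' ≥ (∑_{l ⊆ a} gg l) X`, and
`∑_{l ⊆ a} gg l = ∏_{p ∈ a} (1 + 1/(p-1)) = nn a * gg a`.  So `nn a * gg a * X ≤ G`. -/
def LamStmt : Prop := ∀ (P : Finset ℕ) (R : ℕ), (∀ p ∈ P, p.Prime) → 2 ≤ R →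
  lam P R ∅ = 1 ∧ (∀ a, a ⊆ P → |lam P R a| ≤ 1) ∧ ∀ a, R ≤ nn a → lam P R a = 0

/-- C_QQQ: diagonalisation.

Proof.  `iw ((a ∪ b) \ t) = iw (a \ t) * iw (b \ t) * ∏_{p ∈ (a ∩ b) \ t} p` and
`∏_{p ∈ (a ∩ b) \ t} p = ∏ (1 + (p-1)) = ∑_{r ⊆ (a ∩ b) \ t} ∏_{p ∈ r} (p-1)`.  So
`Q(t) = ∑_{r ⊆ P \ t} ∏_{p ∈ r} (p-1) (∑_{a ⊇ r} λ_a iw (a \ t))²`.  For `r` disjoint from `t`:
`nn a * iw (a \ t) = ∏_{p ∈ a ∩ t} p`, so `G ∑_{a ⊇ r} λ_a iw (a \ t) =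
∑_{r' ∈ lv P R, r ⊆ r'} gg r' ∑_{r ⊆ a ⊆ r'} (-1)^|a| ∏_{p ∈ a ∩ t} p`, and the inner sum is
`(-1)^|r| ∏_{p ∈ r' \ r} (1 - (p if p ∈ t, else 1))`, which is `0` unless `r' \ r ⊆ t`; for `r' = r ∪ s`, `s ⊆ t`, it is
`(-1)^|r| ∏_{p ∈ s} (1 - p)`, and `gg (r ∪ s) ∏_{p ∈ s} (1-p) = gg r * (-1)^|s|`.  So
`G ∑_{a ⊇ r} λ_a iw (a \ t) = (-1)^|r| gg r ∑_{s ⊆ t, nn r * nn s < R} (-1)^|s|`; it is `0` if `nn r ≥ R`.
`∏_{p ∈ r} (p-1) * gg r = 1`. -/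
def QqqStmt : Prop := ∀ (P : Finset ℕ) (R : ℕ) (t : Finset ℕ), (∀ p ∈ P, p.Prime) → 2 ≤ R → t ⊆ P →
  QQ P R t = (∑ r ∈ (lv P R).filter (fun r => Disjoint r t),
    gg r * (∑ s ∈ t.powerset, if nn r * nn s < R then (-1 : ℝ) ^ s.card else 0) ^ 2) / GG P R ^ 2

/-- C_QQB (uses QQQ, LVC).

Proof.  The inner sum is at most `2^|t|` in absolute value, and `∑ gg r ≤ G`; for `t = ∅` it is `1`. -/
def QqbStmt : Prop := ∀ (P : Finset ℕ) (R : ℕ) (t : Finset ℕ), (∀ p ∈ P, p.Prime) → 2 ≤ R → t ⊆ P →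
  0 ≤ QQ P R t ∧ QQ P R t ≤ 4 ^ t.card / GG P R ∧ QQ P R ∅ = 1 / GG P R

/-- C_SST.

Proof.  For fixed `a`, `b`: `(a ∪ b) \ (t \ u) = ((a ∪ b) \ t) ∪ ((a ∪ b) ∩ u)` (disjoint), so
`∑_{u ⊆ t} (-1)^|u| iw ((a ∪ b) \ (t \ u)) = iw ((a ∪ b) \ t) ∏_{p ∈ t} (1 - (1/p if p ∈ a ∪ b, else 1))`, and the
product is `∏_{p ∈ t} (1 - 1/p)` if `t ⊆ a ∪ b`, and `0` otherwise (`Finset.prod_add` or `Finset.prod_one_add`). -/
def SstStmt : Prop := ∀ (P : Finset ℕ) (R : ℕ) (t : Finset ℕ), (∀ p ∈ P, p.Prime) → t ⊆ P →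
  SS P R t = (∏ p ∈ t, (1 - 1 / (p : ℝ))⁻¹) *
    ∑ u ∈ t.powerset, (-1 : ℝ) ^ u.card * QQ P R (t \ u)

/-- C_SSB (uses SST, QQB, LVC).

Proof.  `(1 - 1/p)⁻¹ ≤ 2`, and `∑_{u ⊆ t} 4^|t \ u| = 5^|t|`. -/
def SsbStmt : Prop := ∀ (P : Finset ℕ) (R : ℕ) (t : Finset ℕ), (∀ p ∈ P, p.Prime) → 2 ≤ R → t ⊆ P →
  |SS P R t| ≤ 10 ^ t.card / GG P R ∧ SS P R ∅ = 1 / GG P R

/-- C_GLB: the lower bound for `G`.

Proof.  Let `Q` be the set of all primes less than `R`, `V` the set of the `p ∈ Q` with `p ∣ W`, so that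
`Q` is the disjoint union of `V` and `PP W R`.
(1) `log R ≤ ∑_{1 ≤ n < R} 1/n`.
(2) `∑_{1 ≤ n < R} 1/n ≤ ∑_{r ∈ lv Q R} gg r`: sort the `n` by `r = n.primeFactors`, `nn r ∣ n`, so `nn r < R`;
for fixed `r` the map `n ↦ (v_p(n))_{p ∈ r}` is injective, with values in `[1, R]`, so the sum over the `n` is
at most `∏_{p ∈ r} ∑_{1 ≤ e ≤ R} p^{-e} ≤ ∏_{p ∈ r} 1/(p-1)`.
(3) `r ↦ (r ∩ V, r \ V)`: `∑_{r ∈ lv Q R} gg r ≤ (∑_{l ⊆ V} gg l) G`, and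
`∑_{l ⊆ V} gg l = ∏_{p ∈ V} p/(p-1) ≤ ∏_{p ∣ W} p/(p-1) = W/φ(W)` (`Nat.totient_eq_mul_prod_factors`). -/
def GlbStmt : Prop := ∀ W R : ℕ, 0 < W → 2 ≤ R →
  (W.totient : ℝ) / W * Real.log R ≤ GG (PP W R) R

/-- C_TDS.

Proof.  `a ⊆ P`, `nn a ∣ q`, `p ∈ a`: `p ∣ q`, so `p = q ≥ R > p`.  So `a = ∅`, and `λ_∅ = 1` (`GG ≥ 1`: the term
`∅`). -/
def TdsStmt : Prop := ∀ (P : Finset ℕ) (R q : ℕ), 2 ≤ R → (∀ p ∈ P, p.Prime ∧ p < R) → q.Prime → R ≤ q →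
  tds P R q = 1

/-! ## 2. The sum over the tuples -/

/-- C_BET: Möbius inversion.

Proof.  `β U = ∑_{V ⊆ U} (-1/p)^|U \ V| α V`.  `∑_{U ⊆ T} β U (1/p)^|T \ U| =
∑_{V ⊆ T} α V ∑_{V ⊆ U ⊆ T} (-1/p)^|U \ V| (1/p)^|T \ U|`, and the inner sum is `(1/p - 1/p)^|T \ V|`.
`β ∅ = 1`, `β {s} = 1/p - 1/p = 0`.  For `|U| ≥ 2` each of the `2^|U|` terms is at most `1/p²` in absolute
value: `V = ∅`: `p^{-|U|}`; `|V| = 1`: `p^{-(|U|-1)} p^{-1}`; `|V| ≥ 2`: `α V ≤ 1/p²`. -/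
def BetStmt : Prop := ∀ (σ : Type) [Fintype σ] [DecidableEq σ] (p : ℕ) (α : Finset σ → ℝ), 2 ≤ p →
  α ∅ = 1 → (∀ s, α {s} = 1 / (p : ℝ)) →
  (∀ T : Finset σ, 2 ≤ T.card → 0 ≤ α T ∧ α T ≤ 1 / (p : ℝ) ^ 2) →
  ∃ β : Finset σ → ℝ, β ∅ = 1 ∧ (∀ U : Finset σ, U.card = 1 → β U = 0) ∧
    (∀ U : Finset σ, 2 ≤ U.card → |β U| ≤ 2 ^ U.card / (p : ℝ) ^ 2) ∧
    ∀ T, α T = ∑ U ∈ T.powerset, β U * (1 / (p : ℝ)) ^ (T \ U).card

/-- the set of the `p ∈ P` with `s ∈ U p` -/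
def tU {σ : Type} [DecidableEq σ] {P : Finset ℕ} (U : ↥P → Finset σ) (s : σ) : Finset ℕ :=
  (univ.filter fun p : ↥P => s ∈ U p).map (Function.Embedding.subtype _)

/-- C_EXA.

Proof.  For `A`, `B` with values in the subsets of `P`: `∏_{p ∈ P} α p (TT A B p) =
∏_{p : ↥P} ∑_U (if U ⊆ TT A B p then β p U * (1/p)^|TT A B p \ U| else 0) =
∑_{U : ↥P → Finset σ} ∏_p (...)` (`Finset.prod_coe_sort`, `Finset.prod_univ_sum`).  All `U p ⊆ TT A B p` iff all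
`tU U s ⊆ A s ∪ B s`, and then `∏_p (1/p)^|TT A B p \ U p| = ∏_s iw ((A s ∪ B s) \ tU U s)` (both are the
product of `1/p` over the pairs `(p, s)` with `p ∈ A s ∪ B s`, `s ∉ U p`).  Sum over `A`, `B`:
`∑_A ∑_B ∏_s f s (A s) (B s) = ∏_s ∑_a ∑_b f s a b` (`Finset.prod_univ_sum` twice). -/
def ExaStmt : Prop := ∀ (σ : Type) [Fintype σ] [DecidableEq σ] (P : Finset ℕ) (R : ℕ)
  (α β : ℕ → Finset σ → ℝ), (∀ p ∈ P, p.Prime) →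
  (∀ p ∈ P, ∀ T, α p T = ∑ U ∈ T.powerset, β p U * (1 / (p : ℝ)) ^ (T \ U).card) →
  brk P R (fun A B : σ → Finset ℕ => ∏ p ∈ P, α p (TT A B p)) =
    ∑ U : ↥P → Finset σ, (∏ p : ↥P, β p (U p)) * ∏ s, (GG P R * SS P R (tU U s))

/-- C_EXB (uses SSB, LVC).

Proof.  The term with all `U p = ∅` is `1` (`G S(∅) = 1`).  The absolute value of the term `U` is at
most `∏_p |β p (U p)| * 10^(∑_s |tU U s|) = ∏_p (|β p (U p)| 10^|U p|)`.  So the left side is at most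
`∏_p (∑_V |β p V| 10^|V|) - 1 ≤ ∏_p (1 + ∑_V 20^|V| / p²) - 1 = ∏_p (1 + 21^|σ| / p²) - 1`. -/
def ExbStmt : Prop := ∀ (σ : Type) [Fintype σ] [DecidableEq σ] (P : Finset ℕ) (R : ℕ)
  (β : ℕ → Finset σ → ℝ), (∀ p ∈ P, p.Prime) → 2 ≤ R →
  (∀ p ∈ P, β p ∅ = 1 ∧ (∀ U : Finset σ, U.card = 1 → β p U = 0) ∧
    ∀ U : Finset σ, 2 ≤ U.card → |β p U| ≤ 2 ^ U.card / (p : ℝ) ^ 2) →
  |(∑ U : ↥P → Finset σ, (∏ p : ↥P, β p (U p)) * ∏ s, (GG P R * SS P R (tU U s))) - 1| ≤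
    ∏ p ∈ P, (1 + 40 ^ Fintype.card σ / (p : ℝ) ^ 2) - 1

/-- C_EXC (uses BET, EXA, EXB).  Proof.  Combine (choose `β p` by BET for `p ∈ P`). -/
def ExcStmt : Prop := ∀ (σ : Type) [Fintype σ] [DecidableEq σ] (P : Finset ℕ) (R : ℕ)
  (α : ℕ → Finset σ → ℝ), (∀ p ∈ P, p.Prime) → 2 ≤ R →
  (∀ p ∈ P, α p ∅ = 1 ∧ (∀ s, α p {s} = 1 / (p : ℝ)) ∧
    ∀ T : Finset σ, 2 ≤ T.card → 0 ≤ α p T ∧ α p T ≤ 1 / (p : ℝ) ^ 2) →
  |brk P R (fun A B : σ → Finset ℕ => ∏ p ∈ P, α p (TT A B p)) - 1| ≤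
    ∏ p ∈ P, (1 + 40 ^ Fintype.card σ / (p : ℝ) ^ 2) - 1

/-- C_EPS.

Proof.  `1 + x ≤ exp x`, and `∑_{p > w} 1/p² ≤ 1/w` (`1/p² ≤ 1/(p-1) - 1/p`); `exp (C/w) - 1 → 0`. -/
def EpsStmt : Prop := ∀ C ε : ℝ, 0 ≤ C → 0 < ε → ∃ w : ℕ, ∀ P : Finset ℕ, (∀ p ∈ P, w < p) →
  ∏ p ∈ P, (1 + C / (p : ℝ) ^ 2) - 1 ≤ ε

/-- C_BRB: trivial bound (uses LAM, LVC).

Proof.  `G^m ≤ R^m`, `|λ| ≤ 1`; only tuples `A`, `B` with all `A s, B s ∈ lv P R` contribute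
(`λ_a = 0` if `nn a ≥ R`), at most `R^m` each. -/
def BrbStmt : Prop := ∀ (σ : Type) [Fintype σ] [DecidableEq σ] (P : Finset ℕ) (R : ℕ)
  (X : (σ → Finset ℕ) → (σ → Finset ℕ) → ℝ), (∀ p ∈ P, p.Prime) → 2 ≤ R → (∀ A B, |X A B| ≤ 1) →
  |brk P R X| ≤ (R : ℝ) ^ (3 * Fintype.card σ)

/-! ## 3. Local densities and translations -/

/-- C_LOC.

Proof.  Key: let `p ∤ L s i` and let `E` be a set of `v : ι → Fin p` such that membership does not depend on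
`v i`.  Then `p * |{v ∈ E : p ∣ W (c_s + L_s(v)) + b}| = |E|` (for fixed other coordinates exactly one `v i`
is a solution, `p ∤ W L s i`).  `|T| = 1`: `i` with `L s i = ±1`, `E` = everything.  `|T| ≥ 2`: `s ≠ s'` in `T`, `i`
with `L s i ≠ 0` (so `p ∤ L s i`, as `|L s i| ≤ B < p`) and `L s' i = 0`, `E` = the set of the condition `s'`. -/
def LocStmt : Prop := ∀ (σ ι : Type) [Fintype σ] [Fintype ι] [DecidableEq σ] [DecidableEq ι] (B : ℕ)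
  (L : σ → ι → ℤ) (W b : ℕ) (c : σ → ℤ) (p : ℕ), Good B L → p.Prime → B < p → ¬ p ∣ W →
  al L W b c p ∅ = 1 ∧ (∀ s, al L W b c p {s} = 1 / (p : ℝ)) ∧
    ∀ T : Finset σ, 2 ≤ T.card → 0 ≤ al L W b c p T ∧ al L W b c p T ≤ 1 / (p : ℝ) ^ 2

/-- C_CRM: the Chinese remainder theorem for averages.

Proof.  Induction on `Q`: for `q ∉ Q`, `D = nn Q`, the numbers `q` and `D` are coprime, and
`h ↦ (h mod q, h mod D)` is a bijection of `Fin (q D)` with `Fin q × Fin D`, hence of `ι → Fin (q D)` with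
`(ι → Fin q) × (ι → Fin D)`. -/
def CrmStmt : Prop := ∀ (ι : Type) [Fintype ι] [DecidableEq ι] (Q : Finset ℕ) (φ : ℕ → (ι → ℤ) → ℝ),
  (∀ p ∈ Q, p.Prime) →
  (∀ p ∈ Q, ∀ u v : ι → ℤ, (∀ i, (p : ℤ) ∣ u i - v i) → φ p u = φ p v) →
  (∑ h : ι → Fin (nn Q), ∏ p ∈ Q, φ p (fun i => ((h i : ℕ) : ℤ))) / (nn Q : ℝ) ^ Fintype.card ι =
    ∏ p ∈ Q, (∑ v : ι → Fin p, φ p (fun i => ((v i : ℕ) : ℤ))) / (p : ℝ) ^ Fintype.card ι

/-- C_AVD (uses CRM).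

Proof.  Let `Q = ⋃ (A s ∪ C s)`, `D = nn Q ≤ ∏_s nn (A s) nn (C s) ≤ R^(2m)`, `D > 0`.  For `h ∈ [0, D)^ι` we have
`|∑ L s i h i| ≤ B d D ≤` the margin, so the integer `(ev L s z).val + ∑ L s i h i` is in `[0, N)` and it is
`(ev L s (z + h)).val`.  `nn (A s ∪ C s)` divides `W e + b` iff every `p ∈ A s ∪ C s` does.  So the
indicator function in `avb` is `∏_{p ∈ Q} φ_p(h)`, `φ_p(u) = 1` if `p ∣ W (c_s + ∑ L s i u i) + b` for all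
`s ∈ TT A C p`, and `0` otherwise; CRM gives `avb = ∏_{p ∈ Q} al p (TT A C p)`.  For `p ∈ P \ Q` the set
`TT A C p` is empty and `al p ∅ = 1`. -/
def AvdStmt : Prop := ∀ (σ ι : Type) [Fintype σ] [Fintype ι] [DecidableEq σ] [DecidableEq ι] (B : ℕ)
  (L : σ → ι → ℤ) (W b : ℕ) (P : Finset ℕ) (R N : ℕ) [NeZero N] (z : ι → ZMod N)
  (A C : σ → Finset ℕ), (∀ s i, |L s i| ≤ B) → (∀ p ∈ P, p.Prime) →
  (∀ s, A s ⊆ P ∧ C s ⊆ P ∧ nn (A s) < R ∧ nn (C s) < R) →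
  Gd L (B * Fintype.card ι * R ^ (2 * Fintype.card σ)) z →
  avb L W b A C z = ∏ p ∈ P, al L W b (fun s => ((ev L s z).val : ℤ)) p (TT A C p)

/-- C_TRA.

Proof.  `nu x = G ∑_{a, c ⊆ P} λ_a λ_c [nn a ∣ n] [nn c ∣ n]`, `n = W x.val + b`, and
`[nn a ∣ n] [nn c ∣ n] = [nn (a ∪ c) ∣ n]` (sets of primes).  Expand the product over `s`
(`Finset.prod_univ_sum`).  For fixed `A`, `C` let `F z` be `1` if `nn (A s ∪ C s) ∣ W (ev L s z).val + b` for all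
`s`, and `0` otherwise: `∑_z F z = ∑_z F (z + h)` for every `h`; average over `h : ι → Fin (DD A C)`
(`DD A C > 0`, there are `(DD A C)^|ι|` such `h`). -/
def TraStmt : Prop := ∀ (σ ι : Type) [Fintype σ] [Fintype ι] [DecidableEq σ] [DecidableEq ι]
  (L : σ → ι → ℤ) (W b : ℕ) (P : Finset ℕ) (R N : ℕ) [NeZero N], (∀ p ∈ P, p.Prime) →
  ∑ z : ι → ZMod N, ∏ s, nu P R W b (ev L s z) =
    ∑ z : ι → ZMod N, brk P R (fun A C : σ → Finset ℕ => avb L W b A C z)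

/-- C_BAD.

Proof.  For each `s` there is `i` with `L s i = ±1`, so for each `x : ZMod N` there are `N^(|ι|-1)` vectors `z` with
`ev L s z = x`, and there are at most `2 T` elements `x` with `x.val < T` or `N ≤ x.val + T`. -/
def BadStmt : Prop := ∀ (σ ι : Type) [Fintype σ] [Fintype ι] [DecidableEq σ] [DecidableEq ι] (B : ℕ)
  (L : σ → ι → ℤ) (N T : ℕ) [NeZero N], Good B L → ∃ S : Finset (ι → ZMod N),
    (∀ z, ¬ Gd L T z → z ∈ S) ∧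
    (S.card : ℝ) * N ≤ 2 * Fintype.card σ * T * (N : ℝ) ^ Fintype.card ι

/-- C_LFG: the linear forms condition (uses LAM, EXC, LOC, AVD, TRA, BRB, BAD).

Proof.  `m = |σ|`, `d = |ι|`, `T = B d R^(2m)`, `E` = the first term on the right.  By TRA the left side is
`|∑_z (br(z) - 1)| / N^d`, `br(z) = brk P R (avb L W b · · z)`.  If `z` is good with margin `T`, then AVD (the
tuples with some `nn (A s) ≥ R` or `nn (B s) ≥ R` have coefficient `0` by LAM) and EXC with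
`α p = al L W b (ev L · z).val p` (LOC) give `|br(z) - 1| ≤ E`.  For every `z`,
`|br(z) - 1| ≤ R^(3m) + 1 ≤ 2 R^(3m)` (BRB; `0 ≤ avb ≤ 1`).  The number of the bad `z` is at most
`2 m T N^d / N` (BAD).  Total: `E + 4 m T R^(3m) / N`. -/
def LfgStmt : Prop := ∀ (σ ι : Type) [Fintype σ] [Fintype ι] [DecidableEq σ] [DecidableEq ι] (B : ℕ)
  (L : σ → ι → ℤ) (W b : ℕ) (P : Finset ℕ) (R N : ℕ) [NeZero N], Good B L →
  (∀ p ∈ P, p.Prime ∧ B < p ∧ ¬ p ∣ W) → 2 ≤ R →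
  |(∑ z : ι → ZMod N, ∏ s, nu P R W b (ev L s z)) / (N : ℝ) ^ Fintype.card ι - 1| ≤
    (∏ p ∈ P, (1 + 40 ^ Fintype.card σ / (p : ℝ) ^ 2) - 1) +
      4 * Fintype.card σ * B * Fintype.card ι * (R : ℝ) ^ (5 * Fintype.card σ) / N

/-- C_SYS: the forms of `LF` are a good system.

Proof.  `co q v` for `v = (i, e)` is `i - j` (`q = (j, ω)`) if `e = ω i`, and `0` otherwise: absolute value
`≤ K`.  `i = j ± 1` gives a coefficient `±1`.  `q ≠ q'`: if `j ≠ j'` take `v = (j', ω j')`; if `j = j'` take `i` with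
`ω i ≠ ω' i` (`i ≠ j`, since `ω j = ω' j = false`) and `v = (i, ω i)`.  The sums: `z (i, false) = x i`,
`z (i, true) = y i`, and `∑_v co q v * z v = ∑_i (i - j) * (mix ω x y) i`. -/
def SysStmt : Prop := ∀ (K N : ℕ) [NeZero N] (S : Finset (Fin K × (Fin K → Bool))) (ν : ZMod N → ℝ),
  3 ≤ K → (∀ q ∈ S, q.2 q.1 = false) →
  Good K (fun (q : ↥S) (v : Fin K × Bool) => co q.1 v) ∧
  ∑ x : Fin K → ZMod N, ∑ y : Fin K → ZMod N, ∏ q ∈ S, ν (psi q.1 (mix q.2 x y)) =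
    ∑ z : Fin K × Bool → ZMod N, ∏ q : ↥S, ν (ev (fun (q : ↥S) (v : Fin K × Bool) => co q.1 v) q z)

/-! ## 4. Primes, and the assembly -/

/-- C_PRI: primes in a residue class.

Proof.  Mathlib: `ArithmeticFunction.vonMangoldt.LSeries_residueClass_lower_bound`, for `s → 1+` the sum
`∑ Λ(n)/n^s` over the `n = b` mod `M` is at least `1/(φ(M)(s-1)) - C`.  If all dyadic intervals `(2^j, 2^(j+1)]`,
`2^j ≥ X₀` had `∑ Λ ≤ c 2^j`, the sum would be at most `C' + c ∑_j 2^{-j(s-1)} = C' + O(c/(s-1))`.  Prime powers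
contribute `O(√X log X)`.  (Or any theorem of the library on primes in residue classes.) -/
def PriStmt : Prop := ∀ M b : ℕ, 0 < M → b.Coprime M → ∃ c : ℝ, 0 < c ∧ ∀ X₀ : ℕ, ∃ X : ℕ,
  X₀ ≤ X ∧ 2 ≤ X ∧
    c * X / Real.log X ≤ (((Finset.Ioc X (2 * X)).filter fun p => p.Prime ∧ p % M = b % M).card : ℝ)

/-- C_PIG (uses PRI): pigeonhole in the classes mod `W`.

Proof.  PRI with `max X₀ W`.  A prime `p > X ≥ W` is coprime to `W`, `p = W n + b'` with `b' = p % W`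
coprime to `W`, `b' = p = b` mod `M`; there are `φ(W)` such `b'`, so one of them has at least `1/φ(W)` of the
primes. -/
def PigStmt : Prop := ∀ M b : ℕ, 0 < M → b.Coprime M → ∃ c : ℝ, 0 < c ∧ ∀ W X₀ : ℕ, 0 < W → M ∣ W →
  ∃ X b' : ℕ, X₀ ≤ X ∧ 2 ≤ X ∧ b' < W ∧ b' ≡ b [MOD M] ∧
    c * X / (W.totient * Real.log X) ≤ (((Finset.range (2 * X + 1)).filter fun n =>
      (W * n + b').Prime ∧ X < W * n + b' ∧ W * n + b' ≤ 2 * X).card : ℝ)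

/-- C_WIN: the choice of `N` and `R`.

Proof.  Let `F = (K-1)!`.  For large `X` the interval `(8 X / (3 W), 4 X / W - 4]` has length greater than
`F`, so it contains a number `N = 1` mod `F`.  `X < W n + b'` and `b' < W` give `n > X/W - 1`, so `N < 4 n`;
`W n + b' ≤ 2 X` gives `4 n ≤ 8 X / W < 3 N`.  Let `R` be the largest number with `R^B₀ ≤ N`: `R → ∞` with `X`,
`R² ≤ N ≤ 4 X`, so `R ≤ X`; `N < (R+1)^B₀`, so `log N ≤ B₀ log (R+1) ≤ 2 B₀ log R`; and `X ≤ N W ≤ N²`. -/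
def WinStmt : Prop := ∀ K B₀ W n₀ : ℕ, 2 ≤ B₀ → 0 < W → ∃ X₀ : ℕ, ∀ X b' : ℕ, X₀ ≤ X → b' < W →
  ∃ N R : ℕ, 0 < N ∧ N.Coprime (K - 1).factorial ∧ n₀ ≤ N ∧ n₀ ≤ R ∧ 2 ≤ R ∧ R ^ B₀ ≤ N ∧ R ≤ X ∧
    Real.log X ≤ 4 * B₀ * Real.log R ∧ (N : ℝ) ≤ 4 * X / W ∧
    ∀ n, X < W * n + b' → W * n + b' ≤ 2 * X → N ≤ 4 * n ∧ 4 * n < 3 * N

/-- C_MAJ: the majorant (uses LVC, GLB, TDS, EPS, LFG, SYS, PIG, WIN).

Proof.  `c` from PIG, `m₀ = K 2^K`, `B₀ = 5 m₀ + K + 1`, `δ = c / (16 B₀)`.  Let `ε`, `n₀` be given; `w` from EPS for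
`C = 40^m₀`, `ε/2`; `W = M (w + K + 1)!`, so that all primes which do not divide `W` are greater than
`w` and `K`.  `X₀` from WIN for `B₀`, `W` and `max n₀ (⌈16 m₀ K² / ε⌉ + ⌈1/ε⌉)`, `X`, `b'` from PIG, `N`, `R` from WIN;
`P = PP W R`, `ν = nu P R W b'`, `f x = GG P R` if `W x.val + b'` is a prime in `(X, 2X]`, and `0` otherwise.
* `f ≤ ν`: a prime `W x.val + b' > X ≥ R` has `tds = 1` (TDS), and `ν ≥ 0`.
* density: the `n` of PIG are less than `N`, so `∑ f = G |{n}| ≥ (φ(W)/W) log R * c X / (φ(W) log X) ≥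
(c / (4 B₀)) (X/W) ≥ c N / (16 B₀)` (GLB, WIN).
* `∑ f^K ≤ N G^K ≤ N R^K ≤ N * N / R ≤ ε N²` (`G ≤ R`, `R^(K+1) ≤ N`, `R ≥ 1/ε`).
* `LF`: for `S` let `m = |S| ≤ m₀`; SYS and LFG with `B = K`, `d = 2 K`: the error is at most
`∏ (1 + 40^m/p²) - 1 + 8 m K² R^(5m) / N ≤ ε/2 + 8 m₀ K² / R ≤ ε`. -/
def MajRowStmt : Prop := MajStmt

/-- C_GTM: the theorem of Green and Tao.

Proof.  We may take `K ≥ 3` (`max K 3`).  `δ` from `MajStmt`, `(c, ε)` from `RelStmt` for `K`, `δ`; `N`, ... from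
`MajStmt` for `min ε (c/2)` and `4 n₀ + 1`.  Then `c N² ≤ ∑_{a,d} ∏_j f (a + j d)`; the terms with `d = 0` give at
most `(c/2) N²`; so there are `a` and `d ≠ 0` with all `f (a + j d) ≠ 0`, `j < K`.  Let
`x_j = (a + j d).val`, `N ≤ 4 x_j < 3 N`: `x_{j+1} - x_j = d` mod `N` and `|x_{j+1} - x_j| < N/2`, so all these
differences are equal to one integer `e ≠ 0`.  If `e > 0`, take `W x_0 + b'` and the difference `W e`; if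
`e < 0`, take `W x_{K-1} + b'` and `W |e|`. -/
def GtmStmt : Prop := RelStmt → MajStmt → GtStmt

end Pool.Agent.GT
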