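import Pool.Agent.GT.DefsE

/-!
# Squad GT (MP_ba5221_nt), block E: one fibre decides. Statements

All rows are independent: the statements of the rows in `uses` are hypotheses (`D_..` are the proved rows of
block D). Complete proofs are in the docstrings.  `e i` are the roots, `X i = Xc e x w i = x - e i w²`; the
class of a point at the component `i` is the class of `X i` modulo squares; the 2-torsion point
`T_j = (e j, 0)` has the component `e j - e k` at `k ≠ j`.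

Theorem (row MAIN): let all bad places of `E` be rational, `t0` a good point. If `k` has a prime factor `r`
outside a finite set and the 2-Selmer group of the fibre of `kE` at `t0` is trivial, then `kE` has rank 0 and
infinitely many fibres of rank 0.  Idea: at the points `t` of the Green-Tao pattern the differences of the
roots are `P i` (those at `t0`) times powers of the primes `p l`, and `p l` is very close to `1` at all bad
primes of the fibre at `t0` except `r`, and a nonresidue modulo `r`. For a point of the fibre at `t`,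
normalised by a 2-torsion point, the symbols at the `p l` show that its class is unramified at the `p l` and
trivial at `r`; so by continuity it is a Selmer class of the fibre at `t0`.
-/

set_option autoImplicit false

namespace Pool.Agent.GT.OF

open Polynomial Pool.Agent.NJ Pool.Agent.GT.D

noncomputable section

/-! ### Local solubility -/

/-- E_SQA: squares in `Q_q`.

Proof.  `n = q^(2 a) u`, `q` does not divide `u = un q n`, `u` is a nonzero square modulo `q` (`ul`); Hensel's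
lemma for `X² - u` (`q ≠ 2`), or `PadicInt` / `hensels_lemma`. -/
def SqaStmt : Prop := ∀ (q : ℕ) [Fact q.Prime] (n : ℤ), q ≠ 2 → n ≠ 0 → vl q n = 0 → ul q n = 0 →
  IsSquare (n : ℚ_[q])

/-- E_FFD: finite fields.

Proof.  `χ` the quadratic character, `s i = χ (c i)`, `s 0 s 1 s 2 = 1`.  Let `N_c` be the number of `x ≠ a 0, a 1, a 2` with
`χ (x - a i) = s i` for all `i`.  `8 N_c = ∑_x ∏_i (1 + s i χ (x - a i))` over `x ≠ a 0, a 1, a 2`.  Expand (`s i s j = s k`):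
`∑_x χ (x - a i)` over these `x` is `- χ (a j - a i) - χ (a k - a i)` (the full sum is 0), and
`∑_x χ ((x - a i) (x - a j))` is `- 1 - χ ((a k - a i) (a k - a j))` (the full sum is `-1`: for `b ≠ 0`,
`∑_x χ (x (x + b)) = ∑_(x ≠ 0) χ (1 + b / x) = ∑_(y ≠ 1) χ y = - 1`).  So
`8 N_c = C - ∑_k s k T_k`, `T_k = (1 + χ (a i - a k)) (1 + χ (a j - a k))` for `{i, j, k} = {0, 1, 2}`, with `C`
independent of `c`.  For `c = 1` this is `≥ 0`, so `8 N_c ≥ ∑_k (1 - s k) T_k`.  If there is `k` with `s k = -1`, `T_k = 4`,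
then `N_c ≥ 1`: third case.  Otherwise, if `c` is not trivial, there is exactly one `k` with `s k = 1`, `s i = s j = -1` and
`T_i = T_j = 0`.  The point number `j'` has the class `χ (a j' - a k')` at `k' ≠ j'`; one of the three has the class of `c`:
let `A = χ (a i - a j)`, `B = χ (a i - a k)`, `C = χ (a j - a k)`.  If `χ (-1) = 1`: `A = 1` implies `B = C = -1` (`T_i = T_j = 0`),
point `k`; `A = -1, B = 1`: point `i`; `A = -1, C = 1`: point `j`; all `-1`: point `k`.  If `χ (-1) = -1`: `A = 1` implies `C = 1`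
(`T_j = 0`), point `j`; `A = -1` implies `B = 1` (`T_i = 0`), point `i`. -/
def FfdStmt : Prop := ∀ (q : ℕ) [Fact q.Prime] (a c : Fin 3 → ZMod q), q ≠ 2 →
  (∀ i j, i ≠ j → a i ≠ a j) → (∀ i, c i ≠ 0) → IsSquare (c 0 * c 1 * c 2) →
  (∀ i, IsSquare (c i)) ∨ (∃ j, ∀ k, k ≠ j → IsSquare (c k * (a j - a k))) ∨
  ∃ x : ZMod q, ∀ i, x - a i ≠ 0 ∧ IsSquare (c i * (x - a i))

/-- E_GDP: good primes: every unramified class is soluble.

Proof.  `u i = un q (d i)`, not divisible by `q`; `d i = q^(2 a) u i`; `u 0 u 1 u 2` is a square (`ADD`, or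
directly).  FFD for `a = rt 1 P` and `c = u` modulo `q` (the differences of the roots are `± P i`: `rt_sub`).
Case 1: all `d i` are squares in `Q_q` (SQA): `z i = 1 / √(d i)`, `w = 0`.  Case 2: `w = 1`, `z j = 0`, and for `k ≠ j`,
`d k (e j - e k)` is a square in `Q_q` (SQA: its unit part is a square modulo `q`), `z k = √((e j - e k) / d k)`.
Case 3: lift `x` to an integer `X`; `d i (X - e i)` is a square in `Q_q` (SQA), `z i = √((X - e i) / d i)`, `w = 1`. -/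
def GdpStmt : Prop := ∀ (q : ℕ) [Fact q.Prime] (P d : Fin 3 → ℤ), q ≠ 2 → P 0 + P 1 + P 2 = 0 →
  (∀ i, ¬ (q : ℤ) ∣ P i) → (∀ i, d i ≠ 0) → IsSquare (d 0 * d 1 * d 2) → (∀ i, vl q (d i) = 0) →
  Cov ℚ_[q] P d

/-- E_STB: solubility is stable.

Proof.  By contradiction: for every `n` there are `D^(n)` with `q^n ∣ D^(n) i - P i`, `d^(n)` and a solution `(z^(n), w^(n))` for
`D^(n), d^(n)`, but no solution for `P, d^(n)`.  Divide `d^(n) i` by an even power of `q` (replacing `z i` by a multiple; work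
with elements of `Z_q` instead of integers from here on) such that its valuation is 0 or 1, and scale
`(z, w)` such that it is in `Z_q^4` with maximal norm 1.  `Z_q` is compact: a subsequence converges to
`(d, z, w)`; the `d i` have valuation 0 or 1, `(z, w)` has norm 1, so it is `≠ 0`, and it is a solution for `P, d`.  For large
`n`, `d^(n) i / d i` is so close to 1 that it is a square in `Q_q`, so `P, d^(n)` has a solution: contradiction. -/
def StbStmt : Prop := ∀ (q : ℕ) [Fact q.Prime] (P : Fin 3 → ℤ), ∃ N : ℕ, ∀ D : Fin 3 → ℤ,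
  (∀ i, (q : ℤ) ^ N ∣ D i - P i) → ∀ d : Fin 3 → ℤ, (∀ i, d i ≠ 0) → Cov ℚ_[q] D d → Cov ℚ_[q] P d

/-- E_REL: the real place.

Proof.  The roots `rt 1 D` and `rt 1 P` have the same order (their differences have the same signs:
`rt_sub`).  `X = x / w²`: `∏ (X - e i) > 0` (it is a square `≠ 0` over `w^6`), so `X` is larger than all roots or between the
smallest and the middle one.  Choose a real `X'` in the same position with respect to the roots of `P`
(the largest root plus 1, or the mean of the two smallest roots): `X' - e' i` has the sign of `X - e i`, which is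
the sign of `Xc .. i`.  `z i = √((X' - e' i) / Xc .. i)`, `w = 1`. -/
def RelStmt : Prop := ∀ (P D : Fin 3 → ℤ) (x w : ℤ), P 0 + P 1 + P 2 = 0 → D 0 + D 1 + D 2 = 0 →
  (∀ i, 0 < D i * P i) → Tri (rt 1 D) x w → Cov ℝ P (Xc (rt 1 D) x w)

/-! ### The descent -/

/-- E_DVL: the differences of the roots.

Proof.  `Dn .. i = P i ∏ (p l)^(st l + [bl l = i] m l)`.  The `p l` are different primes which do not divide `P i`: first
claim for `padicValInt`.  `ul (p l) (P i) = 1`: `D_EXP` with `f = ul (p l)` (`D_ADD`): `f (-1) = f 2 = 0` (`D_RCP`), for an odd prime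
`q ∣ P i`, `q ≠ r`: `f q = ul q (p l)` (`D_RCP`) `= 0` because `q ∣ p l - 1` (`cl`, `1 ≤ N`; `D_VAL`); `f r = ul r (p l) = 1` and
`vl r (P i) = 1` (`rd`).  `f (p l') = h` for `l' ≠ l`, `f (p l) = 0`.  So with `M` of `deg`: `f (Dn .. i) =
1 + h (∑_(l' ≠ l) (st l' + [bl l' = i] m l')) = 1 + h (∑ st + M - st l - [bl l = i] m l)`, where `∑ st + M` is even.
`r`: it is different from all `p l` (`nd`, `rd`), so `padicValInt r (Dn .. i) = 1`; `∑_l vl (p l) (Dn .. i) = ∑ st + M = 0` in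
`ZMod 2`.  The sign: the product is positive.  `q` old: all `p l = 1` modulo `q^N`, so the product is
`1` modulo `q^N`.  Last claim: clear. -/
def DvlStmt : Prop := ∀ (ι : Type) [Fintype ι] [DecidableEq ι] (P : Fin 3 → ℤ) (r : ℕ)
  (bl : ι → Fin 3) (m st p : ι → ℕ) (h : ZMod 2) (N : ℕ), 1 ≤ N → Nwe P r bl m st p h N →
  (∀ l i, padicValInt (p l) (Dn P bl m st p i) = st l + (if bl l = i then m l else 0) ∧
    ul (p l) (Dn P bl m st p i) =
      1 + h * ((st l : ZMod 2) + (if bl l = i then (m l : ZMod 2) else 0))) ∧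
  (∀ i, Dn P bl m st p i ≠ 0 ∧ 0 < Dn P bl m st p i * P i ∧ padicValInt r (Dn P bl m st p i) = 1 ∧
    zz r h p (Dn P bl m st p i) = 1) ∧
  (∀ q : ℕ, q.Prime → q ≠ r → (q : ℤ) ∣ 2 * P 0 * P 1 * P 2 →
    ∀ i, (q : ℤ) ^ N ∣ Dn P bl m st p i - P i) ∧
  (∀ q : ℕ, q.Prime → ¬ (q : ℤ) ∣ 2 * P 0 * P 1 * P 2 → (∀ l, q ≠ p l) →
    ∀ i, ¬ (q : ℤ) ∣ Dn P bl m st p i)

/-- E_CLX: the symbols of the components at the `p l`.

Proof.  `D_EXP` for `f = ul (p l)`, `n = X i` and the finite set of the primes dividing `2 P 0 P 1 P 2` together with the `p l'`: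
for other primes `q`, `vl q (X i) = 0` by `D_GOO` (DVL: `q` does not divide the differences of the roots
`± Dn .. j`, `rt_sub`).  The values of `f` are as in the proof of DVL: `0` at `-1`, at the old primes `≠ r` and at `p l`, `1` at `r`,
`h` at `p l'`, `l' ≠ l`.  So `f (X i) = vl r (X i) + h ∑_(l' ≠ l) vl (p l') (X i)`, and `h v + h v = 0` in `ZMod 2`. -/
def ClxStmt : Prop := ∀ (ι : Type) [Fintype ι] [DecidableEq ι] (P : Fin 3 → ℤ) (r : ℕ)
  (bl : ι → Fin 3) (m st p : ι → ℕ) (h : ZMod 2) (N : ℕ), 1 ≤ N → Nwe P r bl m st p h N →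
  ∀ x w : ℤ, Tri (rt 1 (Dn P bl m st p)) x w → ∀ l i,
    ul (p l) (Xc (rt 1 (Dn P bl m st p)) x w i) = zz r h p (Xc (rt 1 (Dn P bl m st p)) x w i) +
      h * vl (p l) (Xc (rt 1 (Dn P bl m st p)) x w i)

/-- E_TRL: translation by a 2-torsion point.

Proof.  `X = x / w²`, `Y` rational with `Y² = ∏ (X - e i) ≠ 0` (`Tri`).  `X' = e j + (e j - e k) (e j - e m) / (X - e j)` for
`{j, k, m} = {0, 1, 2}`: then `X' - e k = (e j - e k) (X - e m) / (X - e j)`, the same for `m`, so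
`∏ (X' - e i) = ((e j - e k) (e j - e m) Y / (X - e j)²)²`, not zero.  `X' = x' / w'²` in lowest terms: the denominator
is a square, because `X'` is a root of the monic cubic `∏ (X' - e i) = Y'²` with integral `e i` (`den X'^3 = den Y'^2`).
So `Tri e x' w'`.  For `k ≠ j`: `Xc e x w k · Xc e x' w' k · (e j - e k) = w² w'² (X - e k) (X' - e k) (e j - e k) =
w² w'² (e j - e k)² (X - e k) (X - e m) / (X - e j) = (w w' (e j - e k) Y / (X - e j))²`: an integer which is the square of a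
rational number is the square of an integer (`Rat.isSquare_intCast_iff`). -/
def TrlStmt : Prop := ∀ (e : Fin 3 → ℤ) (x w : ℤ), (∀ i j, i ≠ j → e i ≠ e j) → Tri e x w →
  ∀ j : Fin 3, ∃ x' w' : ℤ, Tri e x' w' ∧
    ∀ k, k ≠ j → IsSquare (Xc e x w k * Xc e x' w' k * (e j - e k))

/-- E_NRZ: normalisation.

Proof.  `zz r h p` is additive (`D_ADD`), `zz (-1) = 0`, `zz` of a square is `0`; the sum of the three `zz (X i)` is `0` (`Tri`), so all are
`0`, or exactly two are `1`, the ones at `k ≠ j` for some `j`.  First case: the point itself.  Second case: TRL with `j`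
(`rt_sub`, DVL: the differences `e j - e k = ± Dn .. t` are not 0 and have `zz = 1`): `0 = zz (X k X' k (e j - e k)) =
1 + zz (X' k) + 1`, so `zz (X' k) = 0` for `k ≠ j`, and for `j` because the sum is `0`. -/
def NrzStmt : Prop := ∀ (ι : Type) [Fintype ι] [DecidableEq ι] (P : Fin 3 → ℤ) (r : ℕ)
  (bl : ι → Fin 3) (m st p : ι → ℕ) (h : ZMod 2) (N : ℕ), 1 ≤ N → Nwe P r bl m st p h N →
  ∀ x w : ℤ, Tri (rt 1 (Dn P bl m st p)) x w → ∃ x' w' : ℤ, Tri (rt 1 (Dn P bl m st p)) x' w' ∧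
    (∀ i, zz r h p (Xc (rt 1 (Dn P bl m st p)) x' w' i) = 0) ∧
    ((∀ k, IsSquare (Xc (rt 1 (Dn P bl m st p)) x w k * Xc (rt 1 (Dn P bl m st p)) x' w' k)) ∨
      ∃ j, ∀ k, k ≠ j → IsSquare (Xc (rt 1 (Dn P bl m st p)) x w k *
        Xc (rt 1 (Dn P bl m st p)) x' w' k *
          (rt 1 (Dn P bl m st p) j - rt 1 (Dn P bl m st p) k)))

/-- E_NPE: normalised points.

Proof.  As in `D_NWP` (3)-(6); here `e (i+1) - e (i+2) = D i`, `e (i+1) - e i = - D (i+2)`, `e (i+2) - e i = D (i+1)` (`rt_sub` with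
`K = 1`), `D = Dn ..`.  By CLX `ul (p l) (X i) = h vl (p l) (X i)`.
(3) `st l = 1`: `D_STR` with `i = bl l` (DVL: `p l` divides all differences, `D (i+1)` and `D (i+2)` exactly once).  Second
alternative: for the given `j` choose `k ≠ j` such that the third index `t` is `≠ bl l`; `e j - e k = ± D t`, so
`vl (p l) (X k) = 1` and `ul (p l) (X k) = ul (p l) (D t) = 1 + h` (DVL; `ul (p l) (-1) = 0`), but this must be `h`.
(4) `st l = 0`, `i = bl l`, `m l` odd: `D_MLO`: `vl (X i) = 0`, `vl (X (i+1)) = vl (X (i+2))`, and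
`0 = h vl (X i) = ul (X i) = vl (X (i+1)) ul (- D (i+2)) = vl (X (i+1))` (DVL).
(5) `st l = 0`, `m l > 0` even: `D_MLE` (`ul (p l) (- D (i+2)) = 1`).  (6) `st l = m l = 0`: `D_GOO`.
At `r`: `zz (X i) = 0` gives `vl r (X i) = 0`; `D_STR` at `r` with any `i` (`r` divides all `D j` exactly once); the second
alternative is impossible: `vl r (e j - e k) = 1`. -/
def NpeStmt : Prop := ∀ (ι : Type) [Fintype ι] [DecidableEq ι] (P : Fin 3 → ℤ) (r : ℕ)
  (bl : ι → Fin 3) (m st p : ι → ℕ) (h : ZMod 2) (N : ℕ), 1 ≤ N → Nwe P r bl m st p h N →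
  ∀ x w : ℤ, Tri (rt 1 (Dn P bl m st p)) x w →
    (∀ i, zz r h p (Xc (rt 1 (Dn P bl m st p)) x w i) = 0) →
    (∀ l i, vl (p l) (Xc (rt 1 (Dn P bl m st p)) x w i) = 0) ∧
    ∀ i, vl r (Xc (rt 1 (Dn P bl m st p)) x w i) = 0 ∧ ul r (Xc (rt 1 (Dn P bl m st p)) x w i) = 0

/-- E_SLC: the class of a normalised point is a Selmer class of the fibre at the base point.

Proof.  `N` = the maximum of 1 and the `N` of STB for the (finitely many) primes `q ∣ 2 P 0 P 1 P 2`.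
(a) `q = r`: NPE and SQA: the `X i` are squares in `Q_r`: `z i = 1 / √(X i)`, `w = 0`.  (b) `q ∣ 2 P 0 P 1 P 2`, `q ≠ r`: `Cov ℚ_[q] D X`
holds with `z i = 1` and `w` (`X (i+1) - X (i+2) = (e (i+2) - e (i+1)) w² = - D i w²`); `q^N ∣ D i - P i` (DVL); STB.
(c) other `q`: `vl q (X i) = 0`: for `q = p l` by NPE, otherwise by `D_GOO` (DVL: `q` does not divide the
differences); GDP.  Real place: REL (DVL). -/
def SlcStmt : Prop := ∀ P : Fin 3 → ℤ, (∀ i, P i ≠ 0) → P 0 + P 1 + P 2 = 0 → ∃ N : ℕ, 1 ≤ N ∧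
  ∀ (ι : Type) [Fintype ι] [DecidableEq ι] (r : ℕ) (bl : ι → Fin 3) (m st p : ι → ℕ) (h : ZMod 2),
  Nwe P r bl m st p h N → ∀ x w : ℤ, Tri (rt 1 (Dn P bl m st p)) x w →
  (∀ i, zz r h p (Xc (rt 1 (Dn P bl m st p)) x w i) = 0) →
    (∀ (q : ℕ) [Fact q.Prime], Cov ℚ_[q] P (Xc (rt 1 (Dn P bl m st p)) x w)) ∧
    Cov ℝ P (Xc (rt 1 (Dn P bl m st p)) x w) ∧
    ∀ i, vl r (Xc (rt 1 (Dn P bl m st p)) x w i) = 0

/-- E_INJ: all classes come from the 2-torsion.

Proof.  `N` of SLC.  NRZ: a normalised point `(x', w')`; SLC and `Zsel P` for `d = Xc .. x' w'` (`Tri`): either all `d i` are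
squares, or there is `j` such that `d k (e j - e k)` is a square for `k ≠ j`, `e = rt 1 P`; but `vl r (d k) = 0` (SLC) and
`vl r (e j - e k) = vl r (± P t) = 1` (`rd`), and `vl r` of a square is `0`.  So all `d i` are squares, and NRZ gives
`InTor`. -/
def InjStmt : Prop := ∀ P : Fin 3 → ℤ, (∀ i, P i ≠ 0) → P 0 + P 1 + P 2 = 0 → Zsel P →
  ∃ N : ℕ, 1 ≤ N ∧ ∀ (ι : Type) [Fintype ι] [DecidableEq ι] (r : ℕ) (bl : ι → Fin 3)
  (m st p : ι → ℕ) (h : ZMod 2), Nwe P r bl m st p h N → ∀ x w : ℤ,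
    Tri (rt 1 (Dn P bl m st p)) x w → InTor (rt 1 (Dn P bl m st p)) x w

/-- E_PRE: the primes from the theorem of Green and Tao.

Proof.  As `D_PRI`.  `Q` = the primes `≠ r` which divide `2 P 0 P 1 P 2` or some `n l - n l' ≠ 0` (these are `< r`).
`M = 8 r ∏_Q q^(N+3)`, `b = 1` modulo `8 ∏_Q q^(N+3)`, `b` a nonresidue modulo `r`.  `GtStmt` for `K = 2 + max n l`, `M`, `b` and a large
bound (`≥ n₀`, `> r`, all `|P i|` and all elements of `Q`): `p l = a' + n l d` are primes `= b` modulo `M`; `a'` does not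
divide `d` because `a' + d` is a prime.  `mu`: for `l ≠ l'`, `p l' = (n l' - n l) d` modulo `p l`, so
`ul (p l) (p l') = ul (p l) (n l' - n l) + ul (p l) d = ul (p l) d` (`D_EXP`, `D_RCP`: the primes of `n l' - n l` are in
`Q`, `p l = 1` modulo each of them), and by `D_RCP` (third part) this does not depend on `l`: `h = ul a' d`. -/
def PreStmt : Prop := GtStmt → ∀ (ι : Type) [Fintype ι] [DecidableEq ι] (P : Fin 3 → ℤ) (r : ℕ)
  (bl : ι → Fin 3) (m st n : ι → ℕ), (∀ i, P i ≠ 0) → P 0 + P 1 + P 2 = 0 → r.Prime → r ≠ 2 →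
  (∀ i, (r : ℤ) ∣ P i ∧ ¬ (r : ℤ) ^ 2 ∣ P i) → Function.Injective n → (∀ l, n l < r) →
  (∀ l, st l ≤ 1) →
  (∃ M : ℕ, (∀ i, ∑ l, (if bl l = i then m l else 0) = M) ∧ Even (M + ∑ l, st l)) →
  (∀ a' d : ℕ, Dn P bl m st (fun l => a' + n l * d) 0 + Dn P bl m st (fun l => a' + n l * d) 1 +
    Dn P bl m st (fun l => a' + n l * d) 2 = 0) →
  ∀ N n₀ : ℕ, ∃ a' d : ℕ, n₀ ≤ a' ∧ a'.Prime ∧ 0 < d ∧ a'.Coprime d ∧
    ∃ h : ZMod 2, Nwe P r bl m st (fun l => a' + n l * d) h N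

/-- E_LDE: products of linear forms.

Proof.  `D_APP`: `u₁, v₁, n`.  `S` = `{2}`, the primes dividing `F A 0 A 1 A 2` at `(u₀, v₀)`, and all numbers `≤ max n l`.
Let `k`, `r` be as in the statement, `P i = k F(u₀, v₀) A i (u₀, v₀)`: not zero (`k0`, `g0`), the sum is 0 (`D.sum`),
`r` divides `P i` exactly once (`k` squarefree).  INJ: `N`.  `q₁ ≠ q₂` odd primes which do not divide `2 P 0 P 1 P 2`.
For `a', d ∈ ℕ` and `(u, v) = (u₀ a' + u₁ d, v₀ a' + v₁ d)`: `L l (u, v) = L l (u₀, v₀) p l`, `p l = a' + n l d` (`D_APP`), so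
`k F(u, v) A i (u, v) = Dn P bl m st p i`, and the sum over `i` is 0 (`D.sum`).  PRE with `n₀ > q₁, q₂`: `Nwe`, so INJ gives
`InTor`, and DVL (last part) gives `q₁, q₂ ∤ Dn .. i`.  `D_INF`: infinitely many `t`. -/
def LdeStmt : Prop := GtStmt → ∀ (ι : Type) [Fintype ι] [DecidableEq ι] (D : LD ι) (u₀ v₀ : ℤ),
  (∀ l, D.L l u₀ v₀ ≠ 0) → ∃ S : Finset ℕ, ∀ k : ℤ, Squarefree k →
  (∃ r : ℕ, r.Prime ∧ (r : ℤ) ∣ k ∧ r ∉ S) → Zsel (fun i => k * D.F u₀ v₀ * D.A i u₀ v₀) →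
  ∃ q₁ q₂ : ℕ, q₁.Prime ∧ q₂.Prime ∧ q₁ ≠ 2 ∧ q₂ ≠ 2 ∧ q₁ ≠ q₂ ∧
  {t : ℚ | ∃ u v : ℤ, v ≠ 0 ∧ t = (u : ℚ) / (v : ℚ) ∧ (∀ l, D.L l u v ≠ 0) ∧
    (∀ i, ¬ (q₁ : ℤ) ∣ k * D.F u v * D.A i u v ∧ ¬ (q₂ : ℤ) ∣ k * D.F u v * D.A i u v) ∧
    ∀ x w : ℤ, Tri (rt 1 (fun i => k * D.F u v * D.A i u v)) x w →
      InTor (rt 1 (fun i => k * D.F u v * D.A i u v)) x w}.Infinite

/-! ### The group law -/

open Classical in
/-- E_IDN: the identity for `X(Q+R) X(Q-R)`.

Proof.  `Q = (x₁, y₁)`, `R = (x₂, y₂)`, `η = 2 y + a₁ x + a₃`, `η² = 4 x³ + b₂ x² + 2 b₄ x + b₆ = 4 ∏ (x - e i)` (`Roots`).  The slope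
is `L = (y₁ - y₂) / (x₁ - x₂)`, `x₃ = L² + a₁ L - a₂ - x₁ - x₂`, so `4 x₃ = (2 L + a₁)² - b₂ - 4 x₁ - 4 x₂` and
`2 L + a₁ = (η₁ - η₂) / (x₁ - x₂)`; the same for `- R` with `η₂` replaced by `- η₂` (`-R = (x₂, - y₂ - a₁ x₂ - a₃)`).  So
`4 (x₃ - e i) (x₁ - x₂)² = (η₁ - η₂)² + (4 (e 0 + e 1 + e 2) - 4 x₁ - 4 x₂ - 4 e i) (x₁ - x₂)²` and the same for `x₄` with
`(η₁ + η₂)²`; multiply, replace `η₁²`, `η₂²` by the products, and compare (a polynomial identity: `ring`;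
best with `x₁ - e i = A`, `x₂ - e i = B`, `e i - e j`, `e i - e k` as variables, then
`η₁² = 4 A (A + β) (A + γ)`, `η₂² = 4 B (B + β) (B + γ)`, `β = e i - e j`, `γ = e i - e k`, and
`4 (x₃ - e i) (A - B)² = η₁² + η₂² - 2 η₁ η₂ - 4 (β + γ + A + B) (A - B)² = 4 (A B - ..) ..`; the product of the two is
`16 (A B - β γ)² (A - B)²`). -/
def IdnStmt : Prop := ∀ (F : Type) [Field F] (W : WeierstrassCurve F) (e : Fin 3 → F), Rt3 W e →
  ∀ (Q R : W.toAffine.Point) (x₁ x₂ : F), HasX Q x₁ → HasX R x₂ → x₁ ≠ x₂ →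
    ∃ x₃ x₄ : F, HasX (Q + R) x₃ ∧ HasX (Q - R) x₄ ∧ ∀ i : Fin 3,
      (x₃ - e i) * (x₄ - e i) * (x₁ - x₂) ^ 2 =
        ((x₁ - e i) * (x₂ - e i) - (e i - e (i + 1)) * (e i - e (i + 2))) ^ 2

open Classical in
/-- E_DUP: duplication, points of order 2, points with the same first coordinate.

Proof.  Notation of IDN.  `- Q = Q` if and only if `η₁ = 0`, if and only if `x₁` is a root (`η₁² = 4 ∏ (x₁ - e j)`).  Otherwise
`2 L + a₁ = (6 x₁² + b₂ x₁ + b₄) / η₁` (derivative of the right side over `η`), `4 x₃ = (2 L + a₁)² - b₂ - 8 x₁`, and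
`4 η₁² (x₃ - e i) = (6 x₁² + b₂ x₁ + b₄)² - (b₂ + 8 x₁ + 4 e i) η₁²`; with `A = x₁ - e i`, `β`, `γ` as in IDN the right side is
`4 (A² - β γ)²` (`ring`), and `η₁² = 4 A (A + β) (A + γ)`.  Existence of the points `T`: a root `e i` is the first
coordinate of the point `(e i, y)`, `2 y = - a₁ e i - a₃`, which is nonsingular because the root is simple (the
curve has `Δ = 16 ∏ (e i - e j)² ≠ 0`).  Two affine points with the same first coordinate are equal or
opposite. -/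
def DupStmt : Prop := ∀ (F : Type) [Field F] (W : WeierstrassCurve F) (e : Fin 3 → F), Rt3 W e →
  (∀ (Q : W.toAffine.Point) (x : F), HasX Q x → (2 • Q = 0 ↔ ∃ i, x = e i)) ∧
  (∀ (Q : W.toAffine.Point) (x : F), HasX Q x → 2 • Q ≠ 0 → ∃ x' : F, HasX (2 • Q) x' ∧
    ∀ i : Fin 3, (x' - e i) * (4 * ((x - e 0) * (x - e 1) * (x - e 2))) =
      ((x - e i) ^ 2 - (e i - e (i + 1)) * (e i - e (i + 2))) ^ 2) ∧
  (∀ i, ∃ T : W.toAffine.Point, HasX T (e i)) ∧
  (∀ (Q R : W.toAffine.Point) (x : F), HasX Q x → HasX R x → Q = R ∨ Q = -R) ∧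
  (∀ (Q : W.toAffine.Point) (x : F), HasX Q x → HasX (-Q) x ∧
    IsSquare ((x - e 0) * (x - e 1) * (x - e 2)) ∧ ∀ x' : F, HasX Q x' → x' = x) ∧
  (∀ Q : W.toAffine.Point, Q ≠ 0 → ∃ x, HasX Q x) ∧
  (∀ x : F, ¬ HasX (0 : W.toAffine.Point) x) ∧
  (∀ x : F, IsSquare ((x - e 0) * (x - e 1) * (x - e 2)) → ∃ Q : W.toAffine.Point, HasX Q x)

open Classical in
/-- E_TRT: translation by a point of order 2.

Proof.  Direct (slope as in IDN, `η = 0` at `T`): with `A = x - e j`, `β = e j - e (j+1)`, `γ = e j - e (j+2)`: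
`4 (x' - e j) A² = η² - 4 (β + γ + A) A²`, `η² = 4 A (A + β) (A + γ)`, so `(x' - e j) A² = A β γ`. -/
def TrtStmt : Prop := ∀ (F : Type) [Field F] (W : WeierstrassCurve F) (e : Fin 3 → F), Rt3 W e →
  ∀ (T Q : W.toAffine.Point) (j : Fin 3) (x : F), HasX T (e j) → HasX Q x → x ≠ e j →
    ∃ x' : F, HasX (Q + T) x' ∧ (x' - e j) * (x - e j) = (e j - e (j + 1)) * (e j - e (j + 2))

open Classical in
/-- E_HLF: halving.

Proof.  `x - e i = (r i)²`.  `ξ = x + r 0 r 1 + r 0 r 2 + r 1 r 2`, so `ξ - e i = (r i + r j) (r i + r k)` and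
`∏ (ξ - e i) = ((r 0 + r 1) (r 0 + r 2) (r 1 + r 2))²`: there is a point `Q'` with `HasX Q' ξ` (DUP).  `r i ≠ ± r j` (different
roots), so `ξ` is not a root and `2 Q' ≠ 0`.  DUP: `(x' - e 0) 4 ∏ (ξ - e i) = ((ξ - e 0)² - β γ)²`, `β γ = (e 0 - e 1) (e 0 - e 2) =
(r 1² - r 0²) (r 2² - r 0²)`, so `(ξ - e 0)² - β γ = (r 0 + r 1) (r 0 + r 2) ((r 0 + r 1) (r 0 + r 2) - (r 1 - r 0) (r 2 - r 0)) =
2 r 0 (r 0 + r 1) (r 0 + r 2) (r 1 + r 2)`, hence `x' - e 0 = r 0² = x - e 0`.  So `2 Q' = ± Q` (DUP), `Q = 2 (± Q')`. -/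
def HlfStmt : Prop := ∀ (F : Type) [Field F] (W : WeierstrassCurve F) (e : Fin 3 → F), Rt3 W e →
  ∀ (Q : W.toAffine.Point) (x : F), HasX Q x → (∀ i, IsSquare (x - e i)) →
    ∃ Q' : W.toAffine.Point, Q = 2 • Q'

/-- E_GRP: from classes to the group.

Proof.  Let `Q` be a point.  `Q = 0`: clear; `2 Q = 0`: `T = Q`, `Q' = 0`.  Otherwise `HasX Q x`, `x` not a root (DUP).  The
numbers `c i = (ε i - ε 0) / lam²` are the integers `rt 1 D i` (`ε 1 - ε 0 = - lam² D 2`, `ε 2 - ε 0 = lam² D 1`).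
`X = (x - ε 0) / lam²`: `∏ (X - c i) = ∏ (x - ε i) / lam^6` is a square (DUP), not zero, so (as in TRL, the
denominator is a square) `X = x₀ / w²` with `Tri (rt 1 D) x₀ w`, `Xc (rt 1 D) x₀ w i = w² (x - ε i) / lam²`: it has the class of
`x - ε i`.  `InTor`: (1) all `x - ε i` are squares: HLF, `T = 0`.  (2) There is `j` such that `(x - ε k) (ε j - ε k)` is a square for
`k ≠ j`.  `T` the point with `HasX T (ε j)` (DUP); `HasX (Q + T) x'` with `(x' - ε j) (x - ε j) = (ε j - ε k) (ε j - ε m)` (TRT),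
so `x' - ε k = (ε j - ε k) (x - ε m) / (x - ε j)`, which has the class of `(ε j - ε k) (x - ε k)` (the product of the
three `x - ε i` is a square): a square, the same for `m`, and the product of the three `x' - ε i` is a square
(DUP): HLF gives `Q + T = 2 Q'`, `Q = T + 2 Q'` (`2 T = 0`). -/
def GrpStmt : Prop := ∀ (W : WeierstrassCurve ℚ) (ε : Fin 3 → ℚ) (lam : ℚ) (D : Fin 3 → ℤ),
  Scl W ε lam D → (∀ x w : ℤ, Tri (rt 1 D) x w → InTor (rt 1 D) x w) → Div2 W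

/-! ### Heights -/

/-- E_HTA: heights and rational functions.

Proof.  `d = max (deg f) (deg g)`; clear denominators: `F, G` homogeneous forms of degree `d` with integral
coefficients, `f(a/b) / g(a/b) = F(a, b) / G(a, b)`.  Upper bound: `|F|, |G| ≤ C max(|a|, |b|)^d`.  Lower bound: `F`, `G` have no common
zero (`f, g` coprime, and one of them has degree `d`), so there are forms `U, V, U', V'` of degree `d - 1` with
`U F + V G = c a^(2d-1)`, `U' F + V' G = c b^(2d-1)`, `c ≠ 0` an integer.  For `a, b` coprime: the gcd of `F(a, b)`, `G(a, b)` divides `c`, and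
`|c| max(|a|, |b|)^(2d-1) ≤ C' max(|a|, |b|)^(d-1) max(|F|, |G|)`.  (Mathlib: `Height.logHeight_eval_ge'` and
`Height.logHeight_eval_le'`, or `Polynomial` Bezout for `f, g` and for the reversed polynomials.) -/
def HtaStmt : Prop := ∀ f g : ℚ[X], IsCoprime f g → 1 ≤ max f.natDegree g.natDegree →
  ∃ C : ℕ, 0 < C ∧ ∀ x : ℚ, g.eval x ≠ 0 →
    Ht x ^ max f.natDegree g.natDegree ≤ C * Ht (f.eval x / g.eval x) ∧
    Ht (f.eval x / g.eval x) ≤ C * Ht x ^ max f.natDegree g.natDegree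

/-- E_HGT: descent with heights.

Proof.  Put `H(Q) = Ht x` if `HasX Q x`, and `H(0) = 1`.  (a) `H(Q)^4 ≤ C₁ H(2 Q)` for all `Q` with `2 Q ≠ 0`: DUP with
`i = 0`, HTA for `f = ((X - e 0)² - β γ)² + 4 e 0 ∏ (X - e i)`, `g = 4 ∏ (X - e i)` (coprime: at `X = e 0` the value of `f` is
`(β γ)²`, at `X = e 1` it is `((e 1 - e 0) (e 1 - e 2))²`, the same at `e 2`), degrees 4 and 3.  If `2 Q = 0` then `H(Q)` is one of
finitely many values; so `H(Q)^4 ≤ C₂ H(2 Q)` for all `Q`.  (b) `H(Q + T) ≤ C₃ H(Q)` for all `Q` and `2 T = 0`: `T = 0` clear; otherwise TRT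
and HTA with `f = e j (X - e j) + (e j - e (j+1)) (e j - e (j+2))`, `g = X - e j`; if `x = e j` then `Q + T = 0` (`Q = T`).
So `Q = T + 2 Q'` implies `H(Q')^4 ≤ C₂ H(Q + T) ≤ C H(Q)` (`- T = T`), thus `H(Q') ≤ max (C, H(Q))` (otherwise
`H(Q')^4 > C H(Q)`).  Let `Q_0 = Q`, `Q_k = T_k + 2 Q_(k+1)`: all `H(Q_k) ≤ B = max (C, H(Q))`; there are only finitely many
rational numbers with `Ht x ≤ B` and at most two points for each (DUP), so `Q_i = Q_j` for some `i < j`;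
`Q_i = T_i + 2^(j - i) Q_j`, so `2 (2^(j-i) - 1) Q_i = 0`, and `Q = T_0 + 2^i Q_i` has finite order. -/
def HgtStmt : Prop := ∀ (W : WeierstrassCurve ℚ) (e : Fin 3 → ℚ), Rt3 W e → Div2 W → Tors W

/-! ### Torsion is bounded -/

/-- E_EON: torsion of order prime to `q` is integral at a good prime `q`.  (For the group of points use the
classical decidability, as in `Kil`, `Div2`, `Tors`, `Expo` and IDN, DUP for `F = ℚ`: `classical` is not enough,
the instance of `ℚ` differs; state lemmas for a general field `F` or via these definitions.)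

Proof.  Suppose `v ((x - ε i) / lam²) < 0` for some `i`; the differences `D j` are integers, so this holds for `i = 0` with the same
value.  Work in the finite cyclic group `⟨Q⟩`, of order prime to `q`.  For an affine point `R` with first coordinate
`x_R` put `ξ_i(R) = (x_R - ε i) / lam²`, `τ(R) = 1 / ξ_0(R)` (if `ξ_0 ≠ 0`), `β = (ε 0 - ε 1) (ε 0 - ε 2) / lam^4`, an integer.
Choose `R` in `⟨Q⟩` affine with `ν = v(τ(R)) > 0` maximal, `τ = τ(R)`.  Write `τ_n = τ(n R)`.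
Claim for `1 ≤ n ≤ q - 1`: `n R ≠ 0` is affine and `v(τ_n / τ - n²) ≥ 1`, so `v(τ_n) = ν`.  `n = 1` clear.  `n = 2`: `ξ_i(R) ≠ 0` has
negative valuation, so `2 R ≠ 0` and by DUP (divide by `lam^8`)
`τ_2 = 4 τ (1 - c τ) (1 - c' τ) / (1 - β τ²)²`, `c = (ε 1 - ε 0) / lam²`, `c' = (ε 2 - ε 0) / lam²` integers.  `2 ≤ n ≤ q - 2`: `τ_n ≠ τ`
(`n² ≠ 1` modulo `q`), IDN for `n R`, `R` (divide by `lam^8` and by `ξ_0(nR)² ξ_0(R)²`):
`τ_(n+1) τ_(n-1) = ((τ_n - τ) / (1 - β τ_n τ))²`, so modulo `q`: `τ_(n+1) / τ = (n² - 1)² / (n - 1)² = (n + 1)²`.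
Last step, `n = q - 1 ≥ 2`: `q R ≠ 0` (the order of `R ≠ 0` is prime to `q`), `(q - 2) R ≠ 0`, so `(q - 1) R ≠ ± R`, the first
coordinates are different (DUP), and IDN gives `v(τ_q) + v(τ_(q-2)) = 2 v(τ_(q-1) - τ) ≥ 2 (ν + 1)`
(`(q - 1)² = 1` modulo `q`), `v(τ_(q-2)) = ν`, so `v(τ_q) > ν`: contradiction to the choice of `R`. -/
def EonStmt : Prop := ∀ (q : ℕ) [Fact q.Prime] (W : WeierstrassCurve ℚ) (ε : Fin 3 → ℚ) (lam : ℚ)
  (D : Fin 3 → ℤ), q ≠ 2 → Scl W ε lam D → (∀ i, ¬ (q : ℤ) ∣ D i) →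
  ∀ (Q : W.toAffine.Point) (n : ℕ), ¬ q ∣ n → Kil n Q → ∀ x : ℚ, HasX Q x →
    ∀ i, 0 ≤ padicValRat q ((x - ε i) / lam ^ 2)

/-- E_TBD: a bound for the torsion.

Proof.  `B = (2 q₁ + 1)! (2 q₂ + 1)!`.  (a) Let `q` be one of the two primes and `Q` a point of order `n` prime to `q`; then
`n ≤ 2 q + 1`.  Proof: by EON all affine points of `⟨Q⟩` have integral `ξ_i = (x - ε i) / lam²` at `q`.  For affine `R, S` in `⟨Q⟩`
with `R ≠ ± S` (so different first coordinates, `R ± S` affine): IDN divided by `lam^8`: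
`ξ_i(R+S) ξ_i(R-S) (ξ_0(R) - ξ_0(S))² = (ξ_i(R) ξ_i(S) - β_i)²`, `β_i = (ε i - ε (i+1)) (ε i - ε (i+2)) / lam^4`.  If
`ξ_0(R) = ξ_0(S)` modulo `q`, then `ξ_i(R) = ξ_i(S)` modulo `q` for all `i`, and `ξ_i(R)² = β_i` modulo `q` for `i = 0, 1, 2`.  With
`ξ_i = ξ - c_i` (`c_i - c_j = ± D`): `ξ² - 2 ξ c_i + c_i c_j + c_i c_k - c_j c_k = 0`; the difference of the equations for `i` and `j` is
`- 2 (c_i - c_j) (ξ - c_k) = 0`, so `ξ = c_k` modulo `q` for all `k`: contradiction (`q ∤ 2 D`).  So the residue of `ξ_0` takes every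
value at most twice on the `n - 1` affine points of `⟨Q⟩` (DUP): `n - 1 ≤ 2 q`.
(b) `Q` of order `n = q₁^a n'`, `q₁ ∤ n'`: `q₁^a Q` has order `n' ≤ 2 q₁ + 1`, and `n' Q` has order `q₁^a`, prime to `q₂`, so
`q₁^a ≤ 2 q₂ + 1`.  So `n` divides `B`. -/
def TbdStmt : Prop := ∀ (q₁ q₂ : ℕ), q₁.Prime → q₂.Prime → q₁ ≠ 2 → q₂ ≠ 2 → q₁ ≠ q₂ →
  ∃ B : ℕ, 0 < B ∧ ∀ (W : WeierstrassCurve ℚ) (ε : Fin 3 → ℚ) (lam : ℚ) (D : Fin 3 → ℤ),
  Scl W ε lam D → (∀ i, ¬ (q₁ : ℤ) ∣ D i ∧ ¬ (q₂ : ℤ) ∣ D i) → Tors W → Expo W B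

/-! ### The generic fibre -/

/-- E_EVH: specialisation.

Proof.  Let `Reg t f v` mean: there are polynomials `a, b` with `b(t) ≠ 0`, `f b = a` in `ℚ(T)` and `v b(t) = a(t)`.  For
given `t`, `f` the value `v` is unique; `Reg` is compatible with `+`, `-`, `·` and with the inverse if `v ≠ 0`; every `f` is regular
at all but finitely many `t`, and if `f ≠ 0` then `v ≠ 0` for all but finitely many `t`.  For a point `Q = (x, y)` of the
generic fibre and `t` with `Δ(t) ≠ 0` at which `x, y` are regular, `Q_t = (x(t), y(t))` is a point of the fibre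
(equation; nonsingular because `Δ(t) ≠ 0`); `0_t = 0`.  For two points `Q, R`: `(Q + R)_t = Q_t + R_t` for all but finitely many
`t` (cases: one is 0; `R = - Q`; doubling with `R = Q ≠ - Q`; `x_Q ≠ x_R`: then the same case applies at `t` for almost
all `t`, and the slope and the coordinates of the sum are regular).  So `(n Q)_t = n Q_t` for almost all `t`.  If
`n Q = (x, y) ≠ 0` then `(n Q)_t ≠ 0` for almost all `t`: contradiction to the infinitely many `t` with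
`n Q_t = 0`. -/
def EvhStmt : Prop := ∀ (E : WeierstrassCurve ℚ[X]) (n : ℕ), E.Δ ≠ 0 →
  {t : ℚ | (fib E t).Δ ≠ 0 ∧ Expo (fib E t) n}.Infinite → Expo (gen E) n

/-- E_RKN: rank 0.

Proof.  A family of linearly independent elements over `ℤ` in a torsion group is empty
(`rank_eq_zero_iff`: for every `x` there is `a ≠ 0` with `a • x = 0`). -/
def RknStmt : Prop := ∀ (F : Type) [Field F] (W : WeierstrassCurve F), Tors W → rk W = 0

/-! ### From curves over `ℚ(T)` to linear forms -/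

/-- E_PLR: the roots are polynomials.

Proof.  `NJ.TORStmt`: roots `e₁, e₂, e₃` in `ℚ(T)`.  `4 e_i` is a root of the monic polynomial `X³ + b₂ X² + 8 b₄ X + 16 b₆` over
`ℚ[T]` (`Roots`), so it is a polynomial (`IsIntegrallyClosed`, or the rational root theorem), and `e_i = f i` is a
polynomial.  `Roots` for the fibre: evaluate the identities (`algebraMap` is injective).  `(fib E t).Δ =
16 ∏ (f i (t) - f j (t))²`: an identity in `b₂, b₄, b₆` (`4 b₈ = b₂ b₆ - b₄²`, `Δ = - b₂² b₈ - 8 b₄³ - 27 b₆² + 9 b₂ b₄ b₆`). -/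
def PlrStmt : Prop := ∀ E : WeierstrassCurve ℚ[X], E.Δ ≠ 0 → FullTwo (gen E) →
  ∃ f : Fin 3 → ℚ[X],
    Roots (gen E) (algebraMap ℚ[X] (RatFunc ℚ) (f 0)) (algebraMap ℚ[X] (RatFunc ℚ) (f 1))
      (algebraMap ℚ[X] (RatFunc ℚ) (f 2)) ∧
    (∀ i j, i ≠ j → f i ≠ f j) ∧
    (∀ t : ℚ, Roots (fib E t) ((f 0).eval t) ((f 1).eval t) ((f 2).eval t)) ∧
    ∀ t : ℚ, (fib E t).Δ ≠ 0 → ∀ i j, i ≠ j → (f i).eval t ≠ (f j).eval t

/-- E_FRZ: homogeneous linear forms.

Proof.  This is the proof of `D_FRM` (Helper1_GT/FRM.lean, its lemmas may be imported) for `δ = κ ∏_(c ∈ R) (X - c)`, `s = 1`,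
so `w` is a constant; the forms are `L_c = (den c) u - (num c) v` for the `c` in `R` or among the roots of `x y z`, and
`L = v`; so at `u / v` with `v ≠ 0` all forms are `≠ 0` if `(δ x y z)(u / v) ≠ 0`. -/
def FrzStmt : Prop := ∀ (κ : ℚ) (R : Finset ℚ) (x y z : ℚ[X]), κ ≠ 0 → x ≠ 0 → y ≠ 0 → z ≠ 0 →
  x + y + z = 0 → IsCoprime x y → ¬ (x.natDegree = 0 ∧ y.natDegree = 0) →
  RatBad (C κ * ∏ c ∈ R, (X - C c)) x y z →
  ∃ (ι : Type) (_ : Fintype ι) (_ : DecidableEq ι) (D : LD ι), ∀ u v : ℤ, v ≠ 0 →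
    ((C κ * ∏ c ∈ R, (X - C c)) * x * y * z).eval ((u : ℚ) / v) ≠ 0 →
    (∀ l, D.L l u v ≠ 0) ∧ ∃ lam : ℚ, lam ≠ 0 ∧
      ((C κ * ∏ c ∈ R, (X - C c)) * x).eval ((u : ℚ) / v) =
        lam ^ 2 * ((D.F u v * D.A 2 u v : ℤ) : ℚ) ∧
      ((C κ * ∏ c ∈ R, (X - C c)) * y).eval ((u : ℚ) / v) =
        lam ^ 2 * ((D.F u v * D.A 0 u v : ℤ) : ℚ) ∧
      ((C κ * ∏ c ∈ R, (X - C c)) * z).eval ((u : ℚ) / v) =
        lam ^ 2 * ((D.F u v * D.A 1 u v : ℤ) : ℚ)

/-- E_FRX: from curves to linear forms.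

Proof.  PLR: `f`.  `NJ.POLStmt`: `Dif (f 0) (f 1) (f 2) u δ x y z`; `NJ.NISStmt`: `x, y` not both constant; `D_BDR`: `RatBad δ x y z`; `D_SQP`:
`δ = κ s² δ'`, `δ' = ∏_(c ∈ R) (X - c)`.  `RatBad (κ δ') x y z` (odd multiplicities do not change).  `u s = a / b` with coprime
polynomials: `b² (f 0 - f 1) = a² κ δ' x`, `b² (f 1 - f 2) = a² κ δ' y`, `b² (f 2 - f 0) = a² κ δ' z`.  Let `(fib E t).Δ ≠ 0`, so the `f i (t)` are
different.  If `b(t) = 0` then `a(t) ≠ 0` and `(X - t)²` divides `δ' x`, `δ' y`, `δ' z`; as `x, y` are coprime one of them is not divisible by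
`X - t`, so `(X - t)² ∣ δ'`: contradiction.  So `b(t) ≠ 0`, and the right sides do not vanish at `t`:
`(κ δ' x y z)(t) ≠ 0`, `a(t) ≠ 0`.  FRZ for `t = u / v`: `ε i = f i (t)`, `lam = (a(t) / b(t)) lam'`. -/
def FrxStmt : Prop := ∀ E : WeierstrassCurve ℚ[X], E.Δ ≠ 0 → Nonisotrivial E → FullTwo (gen E) →
  (∀ A ∈ badPlaces E, RatPl A) → ∃ (ι : Type) (_ : Fintype ι) (_ : DecidableEq ι) (D : LD ι),
  ∀ u v : ℤ, v ≠ 0 → (fib E ((u : ℚ) / v)).Δ ≠ 0 → (∀ l, D.L l u v ≠ 0) ∧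
    ∃ (ε : Fin 3 → ℚ) (lam : ℚ), lam ≠ 0 ∧ Roots (fib E ((u : ℚ) / v)) (ε 0) (ε 1) (ε 2) ∧
      ∀ i : Fin 3, ε (i + 1) - ε (i + 2) = lam ^ 2 * ((D.F u v * D.A i u v : ℤ) : ℚ)

/-- E_TWF: fibres of the twist.

Proof.  `b₂ = 4 k b₂(E)`, `b₄ = 16 k² b₄(E)`, `b₆ = 64 k³ b₆(E)` for the twist (evaluate at `t`); `4 b₈ = b₂ b₆ - b₄²`. -/
def TwfStmt : Prop := ∀ (E : WeierstrassCurve ℚ[X]) (k : ℤ), k ≠ 0 →
  (E.Δ ≠ 0 → (twist E k).Δ ≠ 0) ∧ ∀ t : ℚ,
    (fib (twist E k) t).Δ = 2 ^ 12 * (k : ℚ) ^ 6 * (fib E t).Δ ∧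
    ∀ a b c : ℚ, Roots (fib E t) a b c → Roots (fib (twist E k) t) (4 * k * a) (4 * k * b) (4 * k * c)

/-- E_SLT: Selmer groups for rational and for integral roots.

Proof.  `e j - e i = μ² (rt 1 P j - rt 1 P i)` for all `i, j` (`rt_sub`).  A solution `(z, w)` of `Cov F P d` gives the solution
`(z, w / μ)` of `Cv F e d` (all pairs `i, j` follow from the three pairs `(i+1, i+2)`).  In the conclusion: an
integer which is a square in `ℚ` is a square in `ℤ`; divide by `μ²`. -/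
def SltStmt : Prop := ∀ (e : Fin 3 → ℚ) (μ : ℚ) (P : Fin 3 → ℤ), μ ≠ 0 → P 0 + P 1 + P 2 = 0 →
  (∀ i : Fin 3, e (i + 1) - e (i + 2) = μ ^ 2 * (P i : ℚ)) → TrivialSelmer e → Zsel P

/-- E_MAIN: the final theorem.

Proof.  FRX: `D`.  `t₀ = u₀ / v₀`; FRX at `(u₀, v₀)`: `L l (u₀, v₀) ≠ 0`, `ε⁰`, `lam₀`.  LDE: `S`.  Let `k`, `r` be as in the statement.
`e i = 4 k ε⁰ i` are the roots of the fibre of the twist (TWF), `e (i+1) - e (i+2) = (2 lam₀)² k F A i`; SLT: `Zsel`.  LDE: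
`q₁, q₂` and an infinite set of `t = u / v`; remove the finitely many `t` with `(fib E t).Δ = 0`.  For such a `t`: FRX: `ε`, `lam`;
`W = fib (twist E k) t` has the roots `4 k ε i` with the differences `(2 lam)² (k F A i)(u, v)`: `Scl` (`D.sum`, `k0`, `g0`,
`L l ≠ 0`).  GRP: `Div2 W`; HGT: `Tors W` (`Rt3`: the roots are different); TBD: `Expo W B` with `B` depending only on
`q₁, q₂`.  RKN: `rk W = 0`.  EVH for the twist: `Expo (gen (twist E k)) B`, so `rk = 0` (RKN), and all these `t` are in `nonJumping`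
(`(fib (twist E k) t).Δ ≠ 0` by TWF). -/
def MainStmt : Prop := GtStmt → ∀ E : WeierstrassCurve ℚ[X], E.Δ ≠ 0 → Nonisotrivial E →
  FullTwo (gen E) → (∀ A ∈ badPlaces E, RatPl A) → ∀ t₀ : ℚ, (fib E t₀).Δ ≠ 0 →
  ∃ S : Finset ℕ, ∀ k : ℤ, Squarefree k → (∃ r : ℕ, r.Prime ∧ (r : ℤ) ∣ k ∧ r ∉ S) →
    (∀ e : Fin 3 → ℚ, Roots (fib (twist E k) t₀) (e 0) (e 1) (e 2) → TrivialSelmer e) →
    rk (gen (twist E k)) = 0 ∧ (nonJumping (twist E k)).Infinite

end

end Pool.Agent.GT.OF
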